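import Pool.Agent.Lib.MP_1a41ac_nt.Sieve

/-!
Numerical consequences: the conjecture holds unless `q` is small compared with the number of
prime factors of `q - 1`.
-/

namespace Pool.Agent.Lib.MP_1a41ac_nt

open Finset

/-- Lower bounds for the `i`-th prime. -/
def pr (i : ℕ) : ℕ := [2, 3, 5, 7, 11, 13, 17, 19, 23, 29].getD i 29

theorem pr_succ_le {i a b : ℕ} (ha : pr i ≤ a) (hab : a < b) (hb : b.Prime) : pr (i + 1) ≤ b := by
  by_cases hi : i < 9
  · by_contra h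
    interval_cases i <;> simp only [pr] at ha h <;> norm_num at ha h <;>
      (have h1 : b ≤ 28 := by omega) <;> interval_cases b <;> first | omega | norm_num at hb
  · have e1 : pr i = 29 := by
      obtain ⟨j, rfl⟩ : ∃ j, i = j + 9 := ⟨i - 9, by omega⟩
      cases j <;> simp [pr]
    have e2 : pr (i + 1) = 29 := by
      obtain ⟨j, rfl⟩ : ∃ j, i = j + 9 := ⟨i - 9, by omega⟩
      simp [pr]
    omega

theorem exists_enum (P : Finset ℕ) (hP : ∀ p ∈ P, p.Prime) :
    ∃ f : ℕ → ℕ, Set.InjOn f (range (Finset.card P) : Finset ℕ) ∧ P = image f (range (Finset.card P)) ∧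
      ∀ i < (Finset.card P), pr i ≤ f i := by
  have hf : (Set.ofPred (· ∈ P)).Finite := P.finite_toSet
  have hc : (Finset.card hf.toFinset) = (Finset.card P) := by congr 1; ext; simp
  refine ⟨Nat.nth (· ∈ P), ?_, ?_, ?_⟩
  · have := Nat.nth_injOn hf
    rw [hc] at this
    simpa using this
  · ext x
    simp only [mem_image, mem_range]
    constructor
    · intro hx
      have := Nat.exists_lt_card_finite_nth_eq hf (x := x) hx
      rwa [hc] at this
    · rintro ⟨i, hi, rfl⟩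
      exact Nat.nth_mem_of_lt_card hf (hc ▸ hi)
  · intro i hi
    induction i with
    | zero => exact (hP _ (Nat.nth_mem_of_lt_card hf (hc ▸ hi))).two_le
    | succ i ih =>
      exact pr_succ_le (ih (by omega)) (Nat.nth_lt_nth_of_lt_card hf (Nat.lt_succ_self i) (hc ▸ hi))
        (hP _ (Nat.nth_mem_of_lt_card hf (hc ▸ hi)))

theorem pr_pos (i : ℕ) : 0 < pr i := by
  by_cases hi : i < 10
  · interval_cases i <;> simp [pr]
  · obtain ⟨j, rfl⟩ : ∃ j, i = j + 10 := ⟨i - 10, by omega⟩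
    simp [pr]

theorem three_le_pr {i : ℕ} (h : 1 ≤ i) : 3 ≤ pr i := by
  by_cases hi : i < 10
  · interval_cases i <;> simp [pr]
  · obtain ⟨j, rfl⟩ : ∃ j, i = j + 10 := ⟨i - 10, by omega⟩
    simp [pr]

theorem prod_pr_le {n : ℕ} (hn : 0 < n) : ∏ i ∈ range (Finset.card n.primeFactors), pr i ≤ n := by
  obtain ⟨f, h1, h2, h3⟩ := exists_enum n.primeFactors fun p hp => Nat.prime_of_mem_primeFactors hp
  have h4 := Nat.le_of_dvd hn (Nat.prod_primeFactors_dvd n)
  refine le_trans ?_ h4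
  conv_rhs => rw [h2]
  rw [prod_image h1]
  exact prod_le_prod' fun i hi => h3 i (mem_range.1 hi)

variable {F : Type*} [Field F] [Fintype F]

theorem odd_case (m : ℕ) (hn : Fintype.card F = 2 * m + 1) (hm : 0 < m) (k r : ℕ)
    (hk : (Finset.card (2 * m).primeFactors) = k) (hr : 1 ≤ r) (hrk : r ≤ k)
    {κ₀ δ₀ : ℝ} (hκ₀ : κ₀ = 1 / 2 ∨ (κ₀ = 1 ∧ Odd m)) (hδ₀ : 0 < δ₀)
    (hδ : δ₀ ≤ 1 - 3 * ∑ i ∈ Ico r k, 1 / (pr i : ℝ)) (hy : 3 ≤ √(Fintype.card F))
    (hQ : 2 * (3 * (k - r : ℕ) + δ₀) * (2 ^ r) ^ 3 <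
      κ₀ * (δ₀ * (√(Fintype.card F) ^ 2 - 4 - 2 * 2 ^ r * (√(Fintype.card F) + 1) -
        2 * (2 ^ r) ^ 2) - 2 * (k - r : ℕ) * 2 ^ r * (√(Fintype.card F) + 1) -
          4 * (k - r : ℕ) * (2 ^ r) ^ 2)) :
    Concl F := by
  obtain ⟨f, h1, h2, h3⟩ := exists_enum (2 * m).primeFactors
    fun p hp => Nat.prime_of_mem_primeFactors hp
  rw [hk] at h1 h2 h3
  have hs1 : range r ⊆ range k := range_subset_range.2 hrk
  have hs2 : Ico r k ⊆ range k := fun i hi => mem_range.2 (mem_Ico.1 hi).2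
  have i1 : Set.InjOn f (range r : Finset ℕ) := h1.mono (coe_subset.2 hs1)
  have i2 : Set.InjOn f (Ico r k : Finset ℕ) := h1.mono (coe_subset.2 hs2)
  have hU : image f (range r) ∪ image f (Ico r k) = (2 * m).primeFactors := by
    rw [← image_union, h2, range_eq_Ico, range_eq_Ico, Ico_union_Ico_eq_Ico (Nat.zero_le _) hrk]
  refine concl_odd_of_sieve m hn hm (image f (range r)) (image f (Ico r k)) hU ?_ ?_ hκ₀ hδ₀ ?_ hy
    ?_
  · rw [disjoint_left]
    intro x hx hx'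
    obtain ⟨i, hi, rfl⟩ := mem_image.1 hx
    obtain ⟨j, hj, hij⟩ := mem_image.1 hx'
    have := h1 (hs2 hj) (hs1 hi) hij
    have := mem_range.1 hi
    have := (mem_Ico.1 hj).1
    omega
  · have : 2 ∈ image f (range r) ∪ image f (Ico r k) := by
      rw [hU]; exact Nat.mem_primeFactors.2 ⟨Nat.prime_two, dvd_mul_right _ _, by omega⟩
    refine (mem_union.1 this).resolve_right fun h => ?_
    obtain ⟨j, hj, hij⟩ := mem_image.1 h
    have a1 := h3 j (mem_Ico.1 hj).2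
    have a2 := three_le_pr (hr.trans (mem_Ico.1 hj).1)
    omega
  · refine hδ.trans ?_
    rw [sum_image i2]
    have : ∑ i ∈ Ico r k, 1 / (f i : ℝ) ≤ ∑ i ∈ Ico r k, 1 / (pr i : ℝ) := by
      refine sum_le_sum fun i hi => one_div_le_one_div_of_le ?_ ?_
      · exact_mod_cast pr_pos i
      · exact_mod_cast h3 i (mem_Ico.1 hi).2
    linarith
  · rw [card_image_of_injOn i1, card_image_of_injOn i2, card_range, Nat.card_Ico]
    exact hQ

theorem quad_mono {κ δ W s y₀ y : ℝ} (hκ : 0 < κ) (hδ : 0 < δ) (hW : 0 < W) (hs : 0 ≤ s)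
    (hy₀ : 0 < y₀) (hy : y₀ ≤ y)
    (h : 2 * (3 * s + δ) * W ^ 3 < κ * (δ * (y₀ ^ 2 - 4 - 2 * W * (y₀ + 1) - 2 * W ^ 2) -
      2 * s * W * (y₀ + 1) - 4 * s * W ^ 2)) :
    2 * (3 * s + δ) * W ^ 3 < κ * (δ * (y ^ 2 - 4 - 2 * W * (y + 1) - 2 * W ^ 2) -
      2 * s * W * (y + 1) - 4 * s * W ^ 2) := by
  refine h.trans_le (mul_le_mul_of_nonneg_left ?_ hκ.le)
  have h1 : 0 < δ * (y₀ ^ 2 - 4 - 2 * W * (y₀ + 1) - 2 * W ^ 2) -
      2 * s * W * (y₀ + 1) - 4 * s * W ^ 2 := by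
    by_contra h2
    have := mul_nonpos_of_nonneg_of_nonpos hκ.le (not_lt.1 h2)
    have : 0 < 2 * (3 * s + δ) * W ^ 3 := by positivity
    linarith
  have h2 : 0 < y₀ * (δ * y₀ - 2 * δ * W - 2 * s * W) := by
    have : 0 ≤ δ * (4 + 2 * W + 2 * W ^ 2) + 2 * s * W + 4 * s * W ^ 2 := by positivity
    nlinarith
  have h3 : 0 < δ * y₀ - 2 * δ * W - 2 * s * W := (mul_pos_iff_of_pos_left hy₀).1 h2
  have h4 : 0 ≤ (y - y₀) * (δ * y + (δ * y₀ - 2 * δ * W - 2 * s * W)) :=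
    mul_nonneg (sub_nonneg.2 hy) (by have := mul_pos hδ (hy₀.trans_le hy); linarith)
  nlinarith

theorem odd_case' (m : ℕ) (hn : Fintype.card F = 2 * m + 1) (hm : 0 < m) (k r y₀ : ℕ)
    (hk : (Finset.card (2 * m).primeFactors) = k) (hr : 1 ≤ r) (hrk : r ≤ k)
    {κ₀ δ₀ : ℝ} (hκ₀ : κ₀ = 1 / 2 ∨ (κ₀ = 1 ∧ Odd m)) (hδ₀ : 0 < δ₀)
    (hδ : δ₀ ≤ 1 - 3 * ∑ i ∈ Ico r k, 1 / (pr i : ℝ)) (hy3 : 3 ≤ y₀) (hy : y₀ ^ 2 ≤ 2 * m + 1)
    (hQ : 2 * (3 * (k - r : ℕ) + δ₀) * (2 ^ r) ^ 3 <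
      κ₀ * (δ₀ * ((y₀ : ℝ) ^ 2 - 4 - 2 * 2 ^ r * (y₀ + 1) -
        2 * (2 ^ r) ^ 2) - 2 * (k - r : ℕ) * 2 ^ r * (y₀ + 1) -
          4 * (k - r : ℕ) * (2 ^ r) ^ 2)) :
    Concl F := by
  have h1 : (y₀ : ℝ) ≤ √(Fintype.card F) := by
    apply Real.le_sqrt_of_sq_le
    rw [hn]; exact_mod_cast hy
  have h2 : (3 : ℝ) ≤ y₀ := by exact_mod_cast hy3
  refine odd_case m hn hm k r hk hr hrk hκ₀ hδ₀ hδ (h2.trans h1) ?_
  exact quad_mono (by rcases hκ₀ with h | h <;> simp [h]) hδ₀ (by positivity) (Nat.cast_nonneg _)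
    (by linarith) h1 hQ

theorem big_case {W y : ℝ} (h1 : 6 * W ^ 3 ≤ y ^ 2) (h2 : 1024 ≤ W) (hy0 : 0 ≤ y) :
    3 ≤ y ∧ 2 * (3 * 0 + 1) * W ^ 3 < 1 / 2 * (1 * (y ^ 2 - 4 - 2 * W * (y + 1) - 2 * W ^ 2) -
      2 * 0 * W * (y + 1) - 4 * 0 * W ^ 2) := by
  have a2 : 1024 * W ≤ W ^ 2 := by nlinarith
  have a1 : 1024 * W ^ 2 ≤ W ^ 3 := by nlinarith
  constructor
  · by_contra h3
    nlinarith
  · nlinarith [sq_nonneg (y - 6 * W)]

/-- Thresholds in terms of the number of prime factors of `q - 1`. -/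
def thr (k : ℕ) : ℕ := [100, 100, 484, 3136, 19600, 80089].getD k 309136

theorem concl_odd_exact (m : ℕ) (hn : Fintype.card F = 2 * m + 1) (hm : 0 < m)
    (h : thr (Finset.card (2 * m).primeFactors) ≤ 2 * m + 1) : Concl F := by
  obtain ⟨k, hk⟩ : ∃ k, (Finset.card (2 * m).primeFactors) = k := ⟨_, rfl⟩
  have hp := prod_pr_le (n := 2 * m) (by omega)
  have hk1 : 1 ≤ k := by
    rw [← hk]
    exact card_pos.2 ⟨2, Nat.mem_primeFactors.2 ⟨Nat.prime_two, dvd_mul_right _ _, by omega⟩⟩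
  rw [hk] at h hp
  by_cases hk10 : k < 10
  · interval_cases k
    · exact odd_case' m hn hm 1 1 10 hk le_rfl le_rfl (κ₀ := 1 / 2) (δ₀ := 1) (Or.inl rfl) one_pos
        (by simp) (by norm_num) h (by norm_num)
    · exact odd_case' m hn hm 2 2 22 hk (by norm_num) le_rfl (κ₀ := 1 / 2) (δ₀ := 1) (Or.inl rfl)
        one_pos (by simp) (by norm_num) h (by norm_num)
    · exact odd_case' m hn hm 3 3 56 hk (by norm_num) le_rfl (κ₀ := 1 / 2) (δ₀ := 1) (Or.inl rfl)
        one_pos (by simp) (by norm_num) h (by norm_num)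
    · exact odd_case' m hn hm 4 3 140 hk (by norm_num) (by norm_num) (κ₀ := 1 / 2) (δ₀ := 4 / 7)
        (Or.inl rfl) (by norm_num) (by norm_num [sum_Ico_eq_sum_range, sum_range_succ, pr])
        (by norm_num) h (by norm_num)
    · exact odd_case' m hn hm 5 3 283 hk (by norm_num) (by norm_num) (κ₀ := 1 / 2) (δ₀ := 23 / 77)
        (Or.inl rfl) (by norm_num) (by norm_num [sum_Ico_eq_sum_range, sum_range_succ, pr])
        (by norm_num) h (by norm_num)
    · exact odd_case' m hn hm 6 4 556 hk (by norm_num) (by norm_num) (κ₀ := 1 / 2)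
        (δ₀ := 71 / 143)
        (Or.inl rfl) (by norm_num) (by norm_num [sum_Ico_eq_sum_range, sum_range_succ, pr])
        (by norm_num) h (by norm_num)
    · norm_num [prod_range_succ, pr] at hp
      rcases Nat.even_or_odd m with hme | hmo
      · have he : m.primeFactors = (2 * m).primeFactors := by
          rw [Nat.primeFactors_mul two_ne_zero hm.ne', Nat.prime_two.primeFactors]
          refine (union_eq_right.2 ?_).symm
          rw [singleton_subset_iff]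
          exact Nat.mem_primeFactors.2 ⟨Nat.prime_two, hme.two_dvd, hm.ne'⟩
        have hp' := prod_pr_le hm
        rw [he, hk] at hp'
        norm_num [prod_range_succ, pr] at hp'
        exact odd_case' m hn hm 7 4 1000 hk (by norm_num) (by norm_num) (κ₀ := 1 / 2)
          (δ₀ := 8 / 25) (Or.inl rfl) (by norm_num)
          (by norm_num [sum_Ico_eq_sum_range, sum_range_succ, pr]) (by norm_num) (by omega)
          (by norm_num)
      · exact odd_case' m hn hm 7 4 700 hk (by norm_num) (by norm_num) (κ₀ := 1)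
          (δ₀ := 8 / 25) (Or.inr ⟨rfl, hmo⟩) (by norm_num)
          (by norm_num [sum_Ico_eq_sum_range, sum_range_succ, pr]) (by norm_num) (by omega)
          (by norm_num)
    · norm_num [prod_range_succ, pr] at hp
      exact odd_case' m hn hm 8 4 2000 hk (by norm_num) (by norm_num) (κ₀ := 1 / 2)
        (δ₀ := 4 / 25) (Or.inl rfl) (by norm_num)
        (by norm_num [sum_Ico_eq_sum_range, sum_range_succ, pr]) (by norm_num) (by omega)
        (by norm_num)
    · norm_num [prod_range_succ, pr] at hp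
      exact odd_case' m hn hm 9 5 3000 hk (by norm_num) (by norm_num) (κ₀ := 1 / 2)
        (δ₀ := 3 / 10) (Or.inl rfl) (by norm_num)
        (by norm_num [sum_Ico_eq_sum_range, sum_range_succ, pr]) (by norm_num) (by omega)
        (by norm_num)
  · have hbig : ∀ j, 6 * (2 ^ (j + 10)) ^ 3 ≤ ∏ i ∈ range (j + 10), pr i := by
      intro j
      induction j with
      | zero => norm_num [prod_range_succ, pr]
      | succ j ih =>
        have e : pr (j + 10) = 29 := by simp [pr]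
        rw [show j + 1 + 10 = j + 10 + 1 by ring, prod_range_succ, e, pow_succ 2, mul_pow]
        omega
    obtain ⟨j, rfl⟩ : ∃ j, k = j + 10 := ⟨k - 10, by omega⟩
    have h1 : 6 * ((2 : ℝ) ^ (j + 10)) ^ 3 ≤ Fintype.card F := by
      have : 6 * (2 ^ (j + 10)) ^ 3 ≤ Fintype.card F := by
        have := hbig j
        omega
      exact_mod_cast this
    have h2 : (1024 : ℝ) ≤ 2 ^ (j + 10) := by
      rw [pow_add]
      have : (1 : ℝ) ≤ 2 ^ j := one_le_pow₀ one_le_two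
      norm_num; linarith
    have hyq : √(Fintype.card F : ℝ) ^ 2 = Fintype.card F := Real.sq_sqrt (Nat.cast_nonneg _)
    rw [← hyq] at h1
    have hy0 := Real.sqrt_nonneg (Fintype.card F : ℝ)
    refine odd_case m hn hm _ _ hk hk1 le_rfl (κ₀ := 1 / 2) (δ₀ := 1) (Or.inl rfl) one_pos
      (by simp) ?_ ?_
    · exact (big_case h1 h2 hy0).1
    · simp only [Nat.sub_self, Nat.cast_zero]
      exact (big_case h1 h2 hy0).2

theorem thr_mono {a b : ℕ} (h : a ≤ b) : thr a ≤ thr b := by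
  by_cases hb : b < 6
  · interval_cases b <;> interval_cases a <;> simp [thr]
  · have e : thr b = 309136 := by
      obtain ⟨j, rfl⟩ : ∃ j, b = j + 6 := ⟨b - 6, by omega⟩
      simp [thr]
    rw [e]
    by_cases ha : a < 6
    · interval_cases a <;> simp [thr]
    · obtain ⟨j, rfl⟩ : ∃ j, a = j + 6 := ⟨a - 6, by omega⟩
      simp [thr]

theorem concl_odd_thr (m : ℕ) (hn : Fintype.card F = 2 * m + 1) (hm : 0 < m) (l : List ℕ)
    (hl : ∀ p, p.Prime → p ∣ 2 * m → p ∈ l) (h : thr l.length ≤ 2 * m + 1) : Concl F := by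
  refine concl_odd_exact m hn hm (le_trans (thr_mono ?_) h)
  refine le_trans (card_le_card (t := l.toFinset) fun p hp => ?_) (List.toFinset_card_le l)
  exact List.mem_toFinset.2 (hl p (Nat.prime_of_mem_primeFactors hp)
    (Nat.dvd_of_mem_primeFactors hp))

theorem concl_odd_large (m : ℕ) (hn : Fintype.card F = 2 * m + 1) (h : 309136 ≤ 2 * m + 1) :
    Concl F := by
  refine concl_odd_exact m hn (by omega) (le_trans ?_ h)
  exact thr_mono (b := (Finset.card (2 * m).primeFactors) + 6) (by omega) |>.trans (by simp [thr])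

end Pool.Agent.Lib.MP_1a41ac_nt
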