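import Mathlib

/-!
A kernel-friendly model of arithmetic in a finite field: polynomials in a fixed element are
packed into natural numbers in base `2 ^ 128`.
-/

namespace Pool.Agent.Lib.MP_1a41ac_nt

open Polynomial

section Rep

variable {K : Type*} [CommRing K] {α : K}

/-- `N` has a base `2 ^ 128` expansion with `k` digits at most `c`, and `v` is the value at `α`
of the polynomial with these coefficients. -/
def Rep (α : K) (c : ℕ) : ℕ → ℕ → K → Prop
  | 0, N, v => N = 0 ∧ v = 0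
  | k + 1, N, v => ∃ d N' v', d ≤ c ∧ N = d + 2 ^ 128 * N' ∧ v = d + α * v' ∧ Rep α c k N' v'

theorem Rep.zero (c k : ℕ) : Rep α c k 0 0 := by
  induction k with
  | zero => exact ⟨rfl, rfl⟩
  | succ k ih => exact ⟨0, 0, 0, Nat.zero_le _, by simp, by simp, ih⟩

theorem Rep.const {c k d : ℕ} (h : d ≤ c) (hk : 0 < k) : Rep α c k d d := by
  obtain ⟨k, rfl⟩ : ∃ j, k = j + 1 := ⟨k - 1, by omega⟩
  exact ⟨d, 0, 0, h, by simp, by simp, Rep.zero _ _⟩

theorem Rep.gen {c k : ℕ} (h : 1 ≤ c) (hk : 1 < k) : Rep α c k (2 ^ 128) α := by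
  obtain ⟨k, rfl⟩ : ∃ j, k = j + 1 := ⟨k - 1, by omega⟩
  exact ⟨0, 1, (1 : ℕ), Nat.zero_le _, by simp, by simp, Rep.const h (by omega)⟩

theorem Rep.mono {c c' : ℕ} (hc : c ≤ c') : ∀ {k N : ℕ} {v : K}, Rep α c k N v → Rep α c' k N v
  | 0, _, _, h => h
  | _ + 1, _, _, ⟨d, N', v', h1, h2, h3, h4⟩ => ⟨d, N', v', h1.trans hc, h2, h3, h4.mono hc⟩

theorem Rep.pad {c : ℕ} : ∀ {k N : ℕ} {v : K} (j : ℕ), Rep α c k N v → Rep α c (k + j) N v
  | 0, _, _, j, ⟨h1, h2⟩ => by subst h1 h2; exact Rep.zero _ _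
  | k + 1, _, _, j, ⟨d, N', v', h1, h2, h3, h4⟩ => by
    rw [Nat.add_right_comm]
    exact ⟨d, N', v', h1, h2, h3, h4.pad j⟩

theorem Rep.add {c c' : ℕ} : ∀ {k N M : ℕ} {v w : K}, Rep α c k N v → Rep α c' k M w →
    Rep α (c + c') k (N + M) (v + w)
  | 0, _, _, _, _, ⟨h1, h2⟩, ⟨h3, h4⟩ => ⟨by omega, by rw [h2, h4, add_zero]⟩
  | _ + 1, _, _, _, _, ⟨d, N', v', h1, h2, h3, h4⟩, ⟨e, M', w', g1, g2, g3, g4⟩ =>
    ⟨d + e, N' + M', v' + w', by omega, by rw [h2, g2]; ring, by rw [h3, g3]; push_cast; ring,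
      h4.add g4⟩

theorem Rep.smul {c : ℕ} (t : ℕ) : ∀ {k N : ℕ} {v : K}, Rep α c k N v →
    Rep α (t * c) k (t * N) (t * v)
  | 0, _, _, ⟨h1, h2⟩ => ⟨by rw [h1, mul_zero], by rw [h2, mul_zero]⟩
  | _ + 1, _, _, ⟨d, N', v', h1, h2, h3, h4⟩ =>
    ⟨t * d, t * N', t * v', Nat.mul_le_mul_left _ h1, by rw [h2]; ring,
      by rw [h3]; push_cast; ring, h4.smul t⟩

theorem Rep.mul {c c' k' M : ℕ} {w : K} (hM : Rep α c' k' M w) : ∀ {k N : ℕ} {v : K},
    Rep α c k N v → Rep α (k * c * c') (k' + k) (N * M) (v * w)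
  | 0, _, _, ⟨h1, h2⟩ => by subst h1 h2; simpa using Rep.zero _ _
  | k + 1, _, _, ⟨d, N', v', h1, h2, h3, h4⟩ => by
    have a1 : Rep α (c * c') (k' + (k + 1)) (d * M) (d * w) :=
      ((hM.smul d).mono (Nat.mul_le_mul_right _ h1)).pad _
    have a2 : Rep α (k * c * c') (k' + (k + 1)) (2 ^ 128 * (N' * M)) (α * (v' * w)) :=
      ⟨0, N' * M, v' * w, Nat.zero_le _, by simp, by simp, hM.mul h4⟩
    have a3 := a1.add a2
    rw [h2, h3, show (k + 1) * c * c' = c * c' + k * c * c' by ring,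
      show (d + 2 ^ 128 * N') * M = d * M + 2 ^ 128 * (N' * M) by ring,
      show ((d : K) + α * v') * w = d * w + α * (v' * w) by ring]
    exact a3

theorem Rep.unique {c c' : ℕ} (hc : c < 2 ^ 128) (hc' : c' < 2 ^ 128) :
    ∀ {k N : ℕ} {v w : K}, Rep α c k N v → Rep α c' k N w → v = w
  | 0, _, _, _, ⟨_, h2⟩, ⟨_, h4⟩ => by rw [h2, h4]
  | _ + 1, _, _, _, ⟨d, N', v', h1, h2, h3, h4⟩, ⟨e, M', w', g1, g2, g3, g4⟩ => by
    have e1 : d = e := by omega
    have e2 : N' = M' := by omega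
    subst e1 e2
    rw [h3, g3, Rep.unique hc hc' h4 g4]

theorem Rep.split {c k : ℕ} (hc : c < 2 ^ 128) : ∀ (a : ℕ) {N : ℕ} {v : K}, Rep α c (k + a) N v →
    ∃ v₁ v₂, Rep α c a (N % (2 ^ 128) ^ a) v₁ ∧ Rep α c k (N / (2 ^ 128) ^ a) v₂ ∧
      v = v₁ + α ^ a * v₂
  | 0, N, v, h => ⟨0, v, ⟨by simp [Nat.mod_one], rfl⟩, by simpa using h, by simp⟩
  | a + 1, _, _, ⟨d, N', v', h1, h2, h3, h4⟩ => by
    obtain ⟨v₁, v₂, g1, g2, g3⟩ := Rep.split hc a h4
    have hd : d < 2 ^ 128 := h1.trans_lt hc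
    refine ⟨d + α * v₁, v₂, ⟨d, _, v₁, h1, ?_, rfl, g1⟩, ?_, by rw [h3, g3]; ring⟩
    · rw [h2, pow_succ' (2 ^ 128) a, Nat.mod_mul, Nat.add_mul_mod_self_left, Nat.mod_eq_of_lt hd,
        Nat.add_mul_div_left _ _ (by positivity), Nat.div_eq_of_lt hd, zero_add]
    · rw [h2, pow_succ' (2 ^ 128) a, ← Nat.div_div_eq_div_mul, Nat.add_mul_div_left _ _ (by positivity),
        Nat.div_eq_of_lt hd, zero_add]
      exact g2

/-- The number with `k` digits all equal to `c`. -/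
def msk (c : ℕ) : ℕ → ℕ
  | 0 => 0
  | k + 1 => c + 2 ^ 128 * msk c k

theorem Rep.mask {c : ℕ} (hc : c < 2 ^ 128) : ∀ (k N : ℕ), ∃ v, Rep α c k (N &&& msk c k) v
  | 0, N => ⟨0, by simp [msk], rfl⟩
  | k + 1, N => by
    obtain ⟨v, hv⟩ := Rep.mask hc k (N / 2 ^ 128)
    refine ⟨_, N % 2 ^ 128 &&& c, _, v, Nat.and_le_right, ?_, rfl, hv⟩
    have e1 : msk c (k + 1) % 2 ^ 128 = c := by
      rw [msk, Nat.add_mul_mod_self_left, Nat.mod_eq_of_lt hc]
    have e2 : msk c (k + 1) / 2 ^ 128 = msk c k := by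
      rw [msk, Nat.add_mul_div_left _ _ (by positivity), Nat.div_eq_of_lt hc, zero_add]
    conv_lhs => rw [← Nat.mod_add_div (N &&& msk c (k + 1)) (2 ^ 128)]
    rw [Nat.and_mod_two_pow, Nat.and_div_two_pow, e1, e2]

theorem Rep.map {K' : Type*} [CommRing K'] (φ : K →+* K') {c : ℕ} :
    ∀ {k N : ℕ} {v : K}, Rep α c k N v → Rep (φ α) c k N (φ v)
  | 0, _, _, ⟨h1, h2⟩ => ⟨h1, by rw [h2, map_zero]⟩
  | _ + 1, _, _, ⟨d, N', v', h1, h2, h3, h4⟩ =>
    ⟨d, N', φ v', h1, h2, by rw [h3]; simp, h4.map φ⟩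

theorem Rep.degree_lt {F : Type*} [Field F] {c : ℕ} :
    ∀ {k N : ℕ} {v : F[X]}, Rep (X : F[X]) c k N v → v.degree < k
  | 0, _, _, ⟨_, h2⟩ => by rw [h2]; simp
  | k + 1, _, _, ⟨d, N', v', _, _, h3, h4⟩ => by
    rw [h3]
    refine (degree_add_le _ _).trans_lt (max_lt ?_ ?_)
    · rw [← C_eq_natCast]
      exact degree_C_le.trans_lt (by exact_mod_cast Nat.succ_pos k)
    · rw [mul_comm, degree_mul_X]
      have := h4.degree_lt
      push_cast
      exact WithBot.add_lt_add_right (by simp) this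

end Rep

/-- Evaluate a natural number before passing it on. -/
noncomputable def force (n : ℕ) (k : ℕ → Bool) : Bool :=
  Nat.rec (k 0) (fun m _ => k (Nat.succ m)) n

theorem force_eq (n : ℕ) (k : ℕ → Bool) : force n k = k n := by cases n <;> rfl

theorem beq_true {a b : ℕ} (h : a = b) : Nat.beq a b = true := Nat.beq_eq ▸ h

theorem beq_false {a b : ℕ} (h : a ≠ b) : Nat.beq a b = false := by
  rw [← Bool.not_eq_true, Nat.beq_eq]; exact h

/-- Parameters of the model. -/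
structure Par where
  /-- characteristic -/
  p : ℕ
  /-- packed reduction polynomial -/
  R : ℕ
  /-- `(2 ^ 128) ^ a` -/
  B : ℕ
  /-- mask for quotients -/
  mQ : ℕ
  /-- mask for reduced elements -/
  mJ : ℕ
  /-- approximate inverse of `p` -/
  mu : ℕ
  /-- a multiple of the characteristic, used for intermediate reductions -/
  p' : ℕ
  /-- approximate inverse of `p'` -/
  mu' : ℕ

/-- One reduction step modulo the defining polynomial. -/
def Par.red (P : Par) (Z : ℕ) : ℕ := Nat.add (Nat.mod Z P.B) (Nat.mul (Nat.div Z P.B) P.R)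

/-- Reduce all digits modulo `p`. -/
noncomputable def Par.normK (P : Par) (p mu N : ℕ) (k : ℕ → Bool) : Bool :=
  force (Nat.mul p (Nat.land (Nat.shiftRight (Nat.mul N mu) 64) P.mQ)) fun Q =>
    force (Nat.land (Nat.sub N Q) P.mJ) fun N' => Nat.beq (Nat.add N' Q) N && k N'

/-- Multiplication. -/
noncomputable def Par.mulK (P : Par) (X Y : ℕ) (k : ℕ → Bool) : Bool :=
  force (Nat.mul X Y) fun Z => force (P.red Z) fun Z' => force (P.red Z') fun Z'' =>
    P.normK P.p' P.mu' Z'' k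

/-- Equality test. -/
noncomputable def Par.eqK (P : Par) (Y Z : ℕ) : Bool := P.normK P.p P.mu Z fun W => Nat.beq W Y

/-- Exponentiation. -/
noncomputable def Par.powF (P : Par) (X : ℕ) : ℕ → ℕ → (ℕ → Bool) → Bool
  | 0, _, k => k 1
  | f + 1, e, k => bif Nat.beq e 0 then k 1 else force (Nat.div e 2) fun e' =>
      P.powF X f e' fun Z => P.mulK Z Z fun W =>
        bif Nat.beq (Nat.mod e 2) 0 then k W else P.mulK X W k

/-- Exponentiation. -/
noncomputable def Par.powK (P : Par) (X e : ℕ) (k : ℕ → Bool) : Bool :=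
  force e fun e' => P.powF X e' e' k

/-- Soundness conditions for the parameters. -/
structure Par.OK {K : Type*} [CommRing K] (P : Par) (a : ℕ) (α : K) : Prop where
  hp : (P.p : K) = 0
  hp1 : 1 ≤ P.p
  hp2 : P.p ≤ 1024
  hp' : (P.p' : K) = 0
  hp2' : P.p' ≤ 1024
  ha1 : 0 < a
  ha2 : a ≤ 64
  hB : P.B = (2 ^ 128) ^ a
  hQ : P.mQ = msk (2 ^ 64 - 1) a
  hJ : P.mJ = msk 1023 a
  hR : Rep α 1023 a P.R (α ^ a)

section Sound

variable {K : Type*} [CommRing K] {α : K} {P : Par} {a : ℕ}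

theorem Par.red_sound (h : P.OK a α) {c Z : ℕ} {v : K} (hc : c < 2 ^ 128)
    (hZ : Rep α c (a + a) Z v) : Rep α (c + a * c * 1023) (a + a) (P.red Z) v := by
  obtain ⟨v₁, v₂, g1, g2, g3⟩ := Rep.split hc a hZ
  have := (g1.pad a).add (h.hR.mul g2)
  rw [g3, mul_comm (α ^ a)]
  rw [← h.hB] at this
  exact this

theorem Par.normK_sound (h : P.OK a α) {p mu : ℕ} (hp : (p : K) = 0) (hp2 : p ≤ 1024) {c N : ℕ}
    {v : K} (hc : c < 2 ^ 128) (hN : Rep α c (a + a) N v) {k : ℕ → Bool}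
    (hk : P.normK p mu N k = true) :
    ∃ N', Rep α 1023 a N' v ∧ k N' = true := by
  rw [Par.normK, force_eq, force_eq, Bool.and_eq_true, Nat.beq_eq] at hk
  obtain ⟨h1, h2⟩ := hk
  refine ⟨_, ?_, h2⟩
  obtain ⟨w, hw⟩ := Rep.mask (α := α) (c := 2 ^ 64 - 1) (by norm_num) a
    (Nat.shiftRight (Nat.mul N mu) 64)
  obtain ⟨v', hv'⟩ := Rep.mask (α := α) (c := 1023) (by norm_num) a
    (Nat.sub N (Nat.mul p (Nat.land (Nat.shiftRight (Nat.mul N mu) 64) P.mQ)))
  rw [← h.hQ] at hw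
  rw [← h.hJ] at hv'
  have h3 := (hv'.add (hw.smul p)).pad a
  have h4 : Rep α (1023 + p * (2 ^ 64 - 1)) (a + a) N (v' + p * w) := h1 ▸ h3
  have h5 := Rep.unique hc (by norm_num; omega) hN h4
  rw [hp, zero_mul, add_zero] at h5
  rw [h5]
  exact hv'

theorem Par.mulK_sound (h : P.OK a α) {X Y : ℕ} {v w : K} (hX : Rep α 2047 a X v)
    (hY : Rep α 2047 a Y w) {k : ℕ → Bool} (hk : P.mulK X Y k = true) :
    ∃ Z, Rep α 1023 a Z (v * w) ∧ k Z = true := by
  rw [Par.mulK, force_eq, force_eq, force_eq] at hk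
  have ha := h.ha2
  have h1 : Rep α (2 ^ 28) (a + a) (X * Y) (v * w) := (hY.mul hX).mono (by omega)
  have h2 : Rep α (2 ^ 45) (a + a) _ _ := (P.red_sound h (by norm_num) h1).mono (by omega)
  have h3 : Rep α (2 ^ 62) (a + a) _ _ := (P.red_sound h (by norm_num) h2).mono (by omega)
  exact P.normK_sound h h.hp' h.hp2' (by norm_num) h3 hk

theorem Par.eqK_sound (h : P.OK a α) {Y Z : ℕ} {v w : K} (hY : Rep α 2047 a Y w)
    (hZ : Rep α 1023 a Z v) (hk : P.eqK Y Z = true) : v = w := by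
  obtain ⟨W, hW, hk⟩ := P.normK_sound h h.hp h.hp2 (by norm_num) (hZ.pad a) hk
  rw [Nat.beq_eq] at hk
  subst hk
  exact Rep.unique (by norm_num) (by norm_num) hW hY

theorem Par.powF_sound (h : P.OK a α) {X : ℕ} {v : K} (hX : Rep α 2047 a X v) :
    ∀ (f e : ℕ) (k : ℕ → Bool), e ≤ f → P.powF X f e k = true →
      ∃ Z, Rep α 1023 a Z (v ^ e) ∧ k Z = true := by
  have hone : Rep α 1023 a 1 (v ^ 0) := by
    simpa using Rep.const (α := α) (c := 1023) (d := 1) (by norm_num) h.ha1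
  intro f
  induction f with
  | zero =>
    intro e k he hk
    obtain rfl : e = 0 := by omega
    exact ⟨1, hone, hk⟩
  | succ f ih =>
    intro e k he hk
    rw [Par.powF] at hk
    by_cases h0 : e = 0
    · subst h0; exact ⟨1, hone, hk⟩
    rw [beq_false h0, cond_false, force_eq] at hk
    obtain ⟨Z, hZ, hk⟩ := ih (e / 2) _ (by omega) hk
    obtain ⟨W, hW, hk⟩ := P.mulK_sound h (hZ.mono (by norm_num)) (hZ.mono (by norm_num)) hk
    by_cases h2 : e % 2 = 0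
    · rw [beq_true (a := Nat.mod e 2) h2, cond_true] at hk
      refine ⟨W, ?_, hk⟩
      rwa [← pow_add, show e / 2 + e / 2 = e by omega] at hW
    · rw [beq_false (a := Nat.mod e 2) h2, cond_false] at hk
      obtain ⟨U, hU, hk⟩ := P.mulK_sound h hX (hW.mono (by norm_num)) hk
      refine ⟨U, ?_, hk⟩
      rwa [← pow_add, ← pow_succ', show e / 2 + e / 2 + 1 = e by omega] at hU

theorem Par.powK_sound (h : P.OK a α) {X : ℕ} {v : K} (hX : Rep α 2047 a X v) {e : ℕ}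
    {k : ℕ → Bool} (hk : P.powK X e k = true) : ∃ Z, Rep α 1023 a Z (v ^ e) ∧ k Z = true := by
  rw [Par.powK, force_eq] at hk
  exact P.powF_sound h hX e e k le_rfl hk

theorem Par.powK_eq (h : P.OK a α) {X Y : ℕ} {v w : K} (hX : Rep α 2047 a X v)
    (hY : Rep α 2047 a Y w) {e : ℕ} (hk : P.powK X e (P.eqK Y) = true) :
    v ^ e = w := by
  obtain ⟨Z, hZ, hk⟩ := P.powK_sound h hX hk
  exact P.eqK_sound h hY hZ hk

end Sound

/-- Test that the order of an element is `m`, in a field with `n + 1` elements, where `l`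
contains all the prime factors of `m`. -/
noncomputable def Par.ordK (P : Par) (n : ℕ) (l : List ℕ) (m X : ℕ) : Bool :=
  P.powK X m (P.eqK 1) && l.all fun t => !Nat.beq (Nat.mod m t) 0 ||
    P.powK X (Nat.div m t) fun Z => force (Nat.add Z (Nat.pred P.p)) fun Y =>
      P.powK Y n (P.eqK 1)

theorem Par.ordK_sound {F : Type*} [Field F] {α : F} {P : Par} {a : ℕ} (h : P.OK a α)
    {n m X : ℕ} {l : List ℕ} {v : F} (hn : 0 < n) (hm : 0 < m)
    (hl : ∀ t, t.Prime → t ∣ m → t ∈ l) (hX : Rep α 2047 a X v)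
    (hk : P.ordK n l m X = true) : orderOf v = m := by
  have hone : Rep α 2047 a 1 1 := by
    simpa using Rep.const (α := α) (c := 2047) (d := 1) (by norm_num) h.ha1
  rw [Par.ordK, Bool.and_eq_true, List.all_eq_true] at hk
  refine orderOf_eq_of_pow_and_pow_div_prime hm (P.powK_eq h hX hone hk.1) fun t ht htm => ?_
  have h1 := hk.2 t (hl t ht htm)
  rw [beq_true (a := Nat.mod m t) (Nat.mod_eq_zero_of_dvd htm),
    Bool.not_true, Bool.false_or] at h1
  obtain ⟨Z, hZ, h2⟩ := P.powK_sound h hX h1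
  rw [force_eq] at h2
  have hp1 := h.hp1
  have hp2 := h.hp2
  have h3 := (hZ.add (Rep.const (α := α) (c := 1024) (d := P.p - 1) (by omega) h.ha1))
  have h4 := P.powK_eq h h3 hone h2
  intro h5
  have h6 : v ^ (Nat.div m t) = 1 := h5
  rw [h6, Nat.cast_sub hp1, h.hp] at h4
  simp [hn.ne'] at h4

/-- The parameters attached to `p`, `a` and the reduction polynomial, evaluated. -/
noncomputable def withPar (p t a R : ℕ) (k : Par → Bool) : Bool :=
  force ((2 ^ 128) ^ a) fun B => force (msk (2 ^ 64 - 1) a) fun mQ => force (msk 1023 a) fun mJ =>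
    force ((2 ^ 64 - 1) / p + 1) fun mu => force (p * t) fun p' =>
      force ((2 ^ 64 - 1) / p' + 1) fun mu' => Nat.ble 2 p && Nat.ble p 1024 && Nat.ble p' 1024 &&
        Nat.ble 2 a && Nat.ble a 64 && Nat.beq (Nat.land R mJ) R &&
          (Par.mk p R B mQ mJ mu p' mu').powK (2 ^ 128) (p ^ a)
            ((Par.mk p R B mQ mJ mu p' mu').eqK (2 ^ 128)) && k (Par.mk p R B mQ mJ mu p' mu')

theorem withPar_sound {F : Type*} [Field F] [Fintype F] {p t a R : ℕ} (hp : (p : F) = 0)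
    (hq : Fintype.card F = p ^ a) {k : Par → Bool} (hk : withPar p t a R k = true) :
    ∃ (α : F) (P : Par), P.OK a α ∧ P.p = p ∧ 2 ≤ a ∧ k P = true := by
  rw [withPar, force_eq, force_eq, force_eq, force_eq, force_eq, force_eq] at hk
  simp only [Bool.and_eq_true, Nat.ble_eq, Nat.beq_eq] at hk
  obtain ⟨⟨⟨⟨⟨⟨⟨h1, h2⟩, h2'⟩, h3⟩, h4⟩, h5⟩, h6⟩, h7⟩ := hk
  set P := Par.mk p R ((2 ^ 128) ^ a) (msk (2 ^ 64 - 1) a) (msk 1023 a) ((2 ^ 64 - 1) / p + 1)
    (p * t) ((2 ^ 64 - 1) / (p * t) + 1)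
  obtain ⟨v, hv⟩ := Rep.mask (α := (X : F[X])) (c := 1023) (by norm_num) a R
  have hv' : Rep (X : F[X]) 1023 a R v := h5 ▸ hv
  have hdeg : (X ^ a - v).degree = (a : WithBot ℕ) := by
    rw [degree_sub_eq_left_of_degree_lt (by rw [degree_X_pow]; exact hv'.degree_lt), degree_X_pow]
  have key : ∀ {K : Type _} [CommRing K] (φ : F[X] →+* K), φ (X ^ a - v) = 0 → P.OK a (φ X) := by
    intro K _ φ hφ
    have hK : ((p : ℕ) : K) = 0 := by rw [← map_natCast φ, ← C_eq_natCast, hp, C_0, map_zero]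
    refine ⟨hK, by simp only [P]; omega, h2, ?_, h2', by omega, h4, rfl, rfl, rfl, ?_⟩
    · show ((p * t : ℕ) : K) = 0
      rw [Nat.cast_mul, hK, zero_mul]
    · rw [map_sub, map_pow, sub_eq_zero] at hφ
      rw [hφ]
      exact hv'.map φ
  have hA := key (AdjoinRoot.mk (X ^ a - v)) AdjoinRoot.mk_self
  have hg := Rep.gen (α := AdjoinRoot.mk (X ^ a - v) X) (c := 2047) (k := a) (by norm_num) h3
  have h8 := P.powK_eq hA hg hg h6
  have hdvd : X ^ a - v ∣ X ^ Fintype.card F - X := by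
    rw [← AdjoinRoot.mk_eq_zero, map_sub, map_pow, hq, h8, sub_self]
  have hsp : (X ^ Fintype.card F - X : F[X]).Splits := by
    rw [splits_iff_card_roots, FiniteField.roots_X_pow_card_sub_X,
      FiniteField.X_pow_card_sub_X_natDegree_eq F Fintype.one_lt_card]
    rfl
  obtain ⟨α, hα⟩ := (hsp.of_dvd (FiniteField.X_pow_card_sub_X_ne_zero F Fintype.one_lt_card)
    hdvd).exists_eval_eq_zero (by rw [hdeg]; exact_mod_cast (show a ≠ 0 by omega))
  have := key (evalRingHom α) hα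
  rw [coe_evalRingHom, eval_X] at this
  exact ⟨α, P, this, rfl, h3, h7⟩

theorem Par.OK.cert {K : Type*} [CommRing K] {α : K} {P : Par} {a : ℕ} (h : P.OK a α) {X : ℕ}
    (hX : Nat.beq (Nat.land X P.mJ) X = true) : ∃ v, Rep α 1023 a X v := by
  obtain ⟨v, hv⟩ := Rep.mask (α := α) (c := 1023) (by norm_num) a X
  rw [Nat.beq_eq, h.hJ] at hX
  exact ⟨v, hX ▸ hv⟩

end Pool.Agent.Lib.MP_1a41ac_nt
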