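import Pool.Agent.Lib.MP_1a41ac_nt.Arith
import Pool.Agent.Lib.MP_1a41ac_nt.Model

/-!
Checkers for the finitely many remaining fields, with soundness proofs.
-/

namespace Pool.Agent.Lib.MP_1a41ac_nt

open Finset

/-- Trial division of an odd number. -/
noncomputable def facR (f : ℕ) : ℕ → ℕ → List ℕ → (List ℕ → Bool) → Bool :=
  Nat.rec (fun _ g acc k => Bool.rec (k (g :: acc)) (k acc) (Nat.beq g 1))
    (fun _ ih d g acc k => Bool.rec (Bool.rec (k (g :: acc)) (k acc) (Nat.beq g 1))
      (Bool.rec (ih (Nat.add d 2) g acc k)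
        (force (Nat.div g d) fun g' => Bool.rec (ih (Nat.add d 2) g' (d :: acc) k) (ih d g' acc k)
          (Nat.beq (Nat.mod g' d) 0))
        (Nat.beq (Nat.mod g d) 0))
      (Nat.ble (Nat.mul d d) g)) f

theorem facR_zero (d g : ℕ) (acc : List ℕ) (k : List ℕ → Bool) :
    facR 0 d g acc k = bif Nat.beq g 1 then k acc else k (g :: acc) := by
  cases h : Nat.beq g 1 <;> simp [facR, h]

theorem facR_succ (f d g : ℕ) (acc : List ℕ) (k : List ℕ → Bool) :
    facR (f + 1) d g acc k = bif Nat.ble (d * d) g then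
      (bif Nat.beq (g % d) 0 then
        (bif Nat.beq (g / d % d) 0 then facR f d (g / d) acc k
          else facR f (d + 2) (g / d) (d :: acc) k)
        else facR f (d + 2) g acc k)
      else facR 0 d g acc k := by
  have e : facR (f + 1) d g acc k = Bool.rec (facR 0 d g acc k)
      (Bool.rec (facR f (d + 2) g acc k)
        (force (g / d) fun g' => Bool.rec (facR f (d + 2) g' (d :: acc) k) (facR f d g' acc k)
          (Nat.beq (g' % d) 0))
        (Nat.beq (g % d) 0))
      (Nat.ble (d * d) g) := rfl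
  rw [e, force_eq]
  cases Nat.ble (d * d) g <;> cases Nat.beq (g % d) 0 <;> cases Nat.beq (g / d % d) 0 <;> rfl

theorem facR_base {d g : ℕ} {acc : List ℕ} {k : List ℕ → Bool} (hg : g % 2 = 1) (hlt : g < d * d)
    (hd : ∀ t, t.Prime → t ∣ g → d ≤ t) (h : facR 0 d g acc k = true) :
    ∃ l, (∀ t ∈ acc, t ∈ l) ∧ (∀ t, t.Prime → t ∣ g → t ∈ l) ∧ k l = true := by
  rw [facR_zero] at h
  by_cases h1 : g = 1
  · rw [beq_true h1] at h
    refine ⟨acc, fun _ h => h, fun t ht htg => ?_, h⟩
    rw [h1, Nat.dvd_one] at htg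
    exact absurd (htg ▸ ht) Nat.not_prime_one
  · rw [beq_false h1] at h
    refine ⟨g :: acc, fun _ h => List.mem_cons_of_mem _ h, fun t ht htg => ?_, h⟩
    obtain ⟨s, hs⟩ := htg
    by_cases hs1 : s = 1
    · rw [hs, hs1, mul_one]; exact List.mem_cons_self
    · exfalso
      have a1 := hd t ht ⟨s, hs⟩
      have a2 := hd s.minFac (Nat.minFac_prime hs1) (hs ▸ (Nat.minFac_dvd s).mul_left t)
      have a3 : s.minFac ≤ s := Nat.minFac_le (Nat.pos_of_ne_zero (by rintro rfl; omega))
      have := Nat.mul_le_mul a1 (a2.trans a3)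
      omega

theorem facR_sound (k : List ℕ → Bool) : ∀ (f d g : ℕ) (acc : List ℕ), g % 2 = 1 → d % 2 = 1 →
    3 ≤ d → g < f + d → (∀ t, t.Prime → t ∣ g → d ≤ t) → facR f d g acc k = true →
    ∃ l, (∀ t ∈ acc, t ∈ l) ∧ (∀ t, t.Prime → t ∣ g → t ∈ l) ∧ k l = true := by
  intro f
  induction f with
  | zero =>
    intro d g acc hg _ h3 hf hd h
    exact facR_base hg (by nlinarith) hd h
  | succ f ih =>
    intro d g acc hg hd2 h3 hf hd h
    rw [facR_succ] at h
    by_cases h1 : d * d ≤ g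
    swap
    · rw [show Nat.ble (d * d) g = false by rw [← Bool.not_eq_true, Nat.ble_eq]; exact h1,
        cond_false] at h
      exact facR_base hg (by omega) hd h
    rw [show Nat.ble (d * d) g = true by rw [Nat.ble_eq]; exact h1, cond_true] at h
    have hstep : ∀ g', g' % 2 = 1 → g' % d ≠ 0 → (∀ t, t.Prime → t ∣ g' → d ≤ t) →
        ∀ t, t.Prime → t ∣ g' → d + 2 ≤ t := by
      intro g' a1 a2 a3 t ht htg
      have a4 := a3 t ht htg
      have a5 : t ≠ d := by rintro rfl; exact a2 (Nat.mod_eq_zero_of_dvd htg)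
      have a6 : t ≠ d + 1 := by
        rintro rfl
        have : 2 ∣ g' := Dvd.dvd.trans (by omega) htg
        omega
      omega
    by_cases h2 : g % d = 0
    · rw [beq_true h2, cond_true] at h
      obtain ⟨g', hg'⟩ := Nat.dvd_of_mod_eq_zero h2
      have e : g / d = g' := by rw [hg', Nat.mul_div_cancel_left _ (by omega)]
      rw [e] at h
      have hodd : g' % 2 = 1 := by
        by_contra hh
        have : 2 ∣ g := hg' ▸ Dvd.dvd.mul_left (by omega) d
        omega
      have hlt : g' < g := by nlinarith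
      have hd' : ∀ t, t.Prime → t ∣ g' → d ≤ t := fun t ht htg => hd t ht (hg' ▸ htg.mul_left d)
      by_cases h4 : g' % d = 0
      · rw [beq_true h4, cond_true] at h
        obtain ⟨l, b1, b2, b3⟩ := ih d g' acc hodd hd2 h3 (by omega) hd' h
        refine ⟨l, b1, fun t ht htg => b2 t ht ?_, b3⟩
        rw [hg'] at htg
        exact ((Nat.Prime.dvd_mul ht).1 htg).elim
          (fun h5 => h5.trans (Nat.dvd_of_mod_eq_zero h4)) id
      · rw [beq_false h4, cond_false] at h
        obtain ⟨l, b1, b2, b3⟩ := ih (d + 2) g' (d :: acc) hodd (by omega) (by omega) (by omega)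
          (hstep g' hodd h4 hd') h
        refine ⟨l, fun t ht => b1 t (List.mem_cons_of_mem _ ht), fun t ht htg => ?_, b3⟩
        have a4 := hd t ht htg
        rw [hg'] at htg
        refine ((Nat.Prime.dvd_mul ht).1 htg).elim (fun h5 => ?_) (b2 t ht)
        have : t = d := le_antisymm (Nat.le_of_dvd (by omega) h5) a4
        exact b1 t (this ▸ List.mem_cons_self)
    · rw [beq_false h2, cond_false] at h
      exact ih (d + 2) g acc hg (by omega) (by omega) (by omega) (hstep g hg h2 hd) h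

/-- A list containing all prime factors of an odd number. -/
noncomputable def facO (g : ℕ) (acc : List ℕ) (k : List ℕ → Bool) : Bool :=
  force g fun g' => Nat.beq (Nat.mod g' 2) 1 && facR g' 3 g' acc k

theorem facO_sound {g : ℕ} {acc : List ℕ} {k : List ℕ → Bool} (h : facO g acc k = true) :
    ∃ l, (∀ t ∈ acc, t ∈ l) ∧ (∀ t, t.Prime → t ∣ g → t ∈ l) ∧ k l = true := by
  rw [facO, force_eq, Bool.and_eq_true, Nat.beq_eq] at h
  have h1 : g % 2 = 1 := h.1
  refine facR_sound k g 3 g acc h1 rfl le_rfl (by omega) (fun t ht htg => ?_) h.2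
  have := ht.two_le
  have : t ≠ 2 := by rintro rfl; omega
  omega

/-- A list containing all prime factors of an even number. -/
noncomputable def facE (n : ℕ) (k : List ℕ → Bool) : Bool :=
  facO (Nat.div n (Nat.gcd n 4294967296)) [2] k

theorem facE_sound {n : ℕ} {k : List ℕ → Bool} (h : facE n k = true) :
    ∃ l, (∀ t, t.Prime → t ∣ n → t ∈ l) ∧ k l = true := by
  obtain ⟨l, h1, h2, h3⟩ := facO_sound h
  refine ⟨l, fun t ht htn => ?_, h3⟩
  rw [← Nat.div_mul_cancel (Nat.gcd_dvd_left n 4294967296)] at htn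
  refine ((Nat.Prime.dvd_mul ht).1 htn).elim (h2 t ht) fun h4 => ?_
  have h5 : t ∣ 2 ^ 32 := h4.trans (Nat.gcd_dvd_right _ _)
  have := (Nat.prime_dvd_prime_iff_eq ht Nat.prime_two).1 (ht.dvd_of_dvd_pow h5)
  exact h1 t (this ▸ List.mem_cons_self)

/-- Modular exponentiation. -/
def pm (q x e : ℕ) : ℕ :=
  Nat.mod (Nat.mul (Nat.pow (Nat.mod (Nat.mul (Nat.pow (Nat.mod (Nat.pow x (Nat.div e 4096)) q) 64)
    (Nat.pow x (Nat.mod (Nat.div e 64) 64))) q) 64) (Nat.pow x (Nat.mod e 64))) q

variable {F : Type*} [Field F] [Fintype F]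

omit [Fintype F] in
theorem pm_cast {q : ℕ} [CharP F q] (x e : ℕ) : (pm q x e : F) = (x : F) ^ e := by
  have h : ∀ a : ℕ, ((a % q : ℕ) : F) = a := fun a => (CharP.cast_eq_mod F q a).symm
  show (((((x ^ (e / 4096) % q) ^ 64 * x ^ (e / 64 % 64)) % q) ^ 64 * x ^ (e % 64) % q : ℕ) : F) = _
  rw [h, Nat.cast_mul, Nat.cast_pow, h, Nat.cast_mul, Nat.cast_pow, h]
  push_cast
  rw [← pow_mul, ← pow_add, ← pow_mul, ← pow_add]
  congr 1
  omega

omit [Fintype F] in
theorem pm_ne_one {q : ℕ} [CharP F q] (hq : 1 < q) {x e : ℕ} (h : pm q x e ≠ 1) :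
    (x : F) ^ e ≠ 1 := by
  rw [← pm_cast (q := q)]
  intro h1
  apply h
  have h2 : pm q x e < q := Nat.mod_lt _ (by omega)
  rw [← Nat.cast_one, CharP.natCast_eq_natCast F q, Nat.ModEq, Nat.mod_eq_of_lt h2,
    Nat.mod_eq_of_lt hq] at h1
  exact h1

/-- Order test in a prime field. -/
noncomputable def ordP (q : ℕ) (l : List ℕ) (m x : ℕ) : Bool :=
  force x fun x' => Nat.beq (pm q x' m) 1 &&
    l.all fun t => !Nat.beq (Nat.mod m t) 0 || !Nat.beq (pm q x' (Nat.div m t)) 1

omit [Fintype F] in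
theorem ordP_sound {q : ℕ} [CharP F q] (hq : 1 < q) {l : List ℕ} {m x : ℕ} (hm : 0 < m)
    (hl : ∀ t, t.Prime → t ∣ m → t ∈ l) (h : ordP q l m x = true) : orderOf (x : F) = m := by
  rw [ordP, force_eq, Bool.and_eq_true, List.all_eq_true, Nat.beq_eq] at h
  refine orderOf_eq_of_pow_and_pow_div_prime hm ?_ fun t ht htm => ?_
  · rw [← pm_cast (q := q), h.1, Nat.cast_one]
  · have h1 := h.2 t (hl t ht htm)
    rw [beq_true (a := Nat.mod m t) (Nat.mod_eq_zero_of_dvd htm), Bool.not_true, Bool.false_or,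
      Bool.not_eq_true', ← Bool.not_eq_true, Nat.beq_eq] at h1
    exact pm_ne_one hq h1

/-- Certificate check in a prime field; `c` encodes `u` and `r`. -/
noncomputable def chkP (q : ℕ) (l : List ℕ) (c : ℕ) : Bool :=
  force (Nat.div q 2) fun m => force (Nat.mul 2 m) fun n => force (Nat.mod c 1024) fun u =>
    force (Nat.div c 1024) fun r => Nat.beq (pm q u m) n && ordP q l m r &&
      ordP q l n (Nat.add u 1) && ordP q l n (Nat.mod (Nat.add (Nat.mul u r) 1) q)

theorem nonsq {m : ℕ} (hm : 0 < m) (hn : Fintype.card F = 2 * m + 1) {u : F} (h : u ^ m = -1) :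
    u ≠ 0 ∧ u ^ m ≠ 1 := by
  constructor
  · rintro rfl
    rw [zero_pow hm.ne'] at h
    simp at h
  · intro h1
    have h2 : (2 : F) = 0 := by linear_combination h - h1
    have h3 := FiniteField.cast_card_eq_zero F
    rw [hn] at h3
    push_cast at h3
    rw [h2] at h3
    simp at h3

theorem chkP_sound {m : ℕ} (hm : 0 < m) (hn : Fintype.card F = 2 * m + 1) [CharP F (2 * m + 1)]
    {l : List ℕ} (hl : ∀ t, t.Prime → t ∣ 2 * m → t ∈ l) {c : ℕ}
    (h : chkP (2 * m + 1) l c = true) : Concl F := by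
  have e : Nat.div (2 * m + 1) 2 = m := by show (2 * m + 1) / 2 = m; omega
  rw [chkP, force_eq, force_eq, force_eq, force_eq, e] at h
  simp only [Bool.and_eq_true, Nat.beq_eq] at h
  obtain ⟨⟨⟨h1, h2⟩, h3⟩, h4⟩ := h
  have hq : 1 < 2 * m + 1 := by omega
  have a1 : ((Nat.mod c 1024 : ℕ) : F) ^ m = -1 := by
    rw [← pm_cast (q := 2 * m + 1), h1]
    have := CharP.cast_eq_zero F (2 * m + 1)
    rw [Nat.cast_add, Nat.cast_one] at this
    exact eq_neg_of_add_eq_zero_left this
  have a2 := ordP_sound (F := F) hq hm (fun t ht htm => hl t ht (htm.mul_left 2)) h2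
  have a3 := ordP_sound (F := F) (m := 2 * m) hq (by omega) hl h3
  have a4 := ordP_sound (F := F) (m := 2 * m) hq (by omega) hl h4
  refine concl_odd m hn _ _ a2 hm (nonsq hm hn a1).1 (nonsq hm hn a1).2 ?_ ?_
  · rw [← a3]; congr 1; simp
  · rw [← a4]; congr 1
    refine Eq.trans ?_ (CharP.cast_eq_mod F (2 * m + 1) _)
    simp

/-- Loop over the odd numbers `q, q + 2, …` (`f` of them), consuming certificates. -/
noncomputable def loopP (M f : ℕ) : ℕ → List ℕ → Bool :=
  Nat.rec (fun _ _ => true)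
    (fun _ ih q cs => Bool.rec (ih (Nat.add q 2) cs)
      (facE (Nat.pred q) fun l => Bool.rec
        (List.rec false (fun c cs' _ => chkP q l c && ih (Nat.add q 2) cs') cs)
        (ih (Nat.add q 2) cs) (Nat.ble (thr l.length) q))
      (Nat.beq (Nat.gcd q M) 1)) f

theorem loopP_sound {M D : ℕ} (hM : M ∣ D.factorial) [hp : Fact (Fintype.card F).Prime]
    (hD : D < Fintype.card F) : ∀ (f q : ℕ) (cs : List ℕ), q % 2 = 1 → Fintype.card F % 2 = 1 →
      q ≤ Fintype.card F → Fintype.card F < q + 2 * f → loopP M f q cs = true → Concl F := by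
  intro f
  induction f with
  | zero => intro q cs _ _ h1 h2; omega
  | succ f ih =>
    intro q cs hq hF h1 h2 h
    have e : loopP M (f + 1) q cs = Bool.rec (loopP M f (q + 2) cs)
      (facE (q - 1) fun l => Bool.rec
        (List.rec false (fun c cs' _ => chkP q l c && loopP M f (q + 2) cs') cs)
        (loopP M f (q + 2) cs) (Nat.ble (thr l.length) q))
      (Nat.beq (Nat.gcd q M) 1) := rfl
    rw [e] at h
    by_cases hqF : q = Fintype.card F
    · have hg : Nat.gcd q M = 1 := by
        rw [hqF]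
        refine (Nat.Prime.coprime_iff_not_dvd hp.out).2 fun h3 => ?_
        have := (Nat.Prime.dvd_factorial hp.out).1 (h3.trans hM)
        omega
      rw [beq_true hg] at h
      obtain ⟨l, hl, h⟩ := facE_sound h
      obtain ⟨m, rfl⟩ : ∃ m, q = 2 * m + 1 := ⟨q / 2, by omega⟩
      have hm : 0 < m := by have := Fintype.one_lt_card (α := F); omega
      cases h3 : Nat.ble (thr l.length) (2 * m + 1) with
      | true => exact concl_odd_thr m hqF.symm hm l hl (Nat.le_of_ble_eq_true h3)
      | false =>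
        rw [h3] at h
        cases cs with
        | nil => exact absurd h (by simp)
        | cons c cs' =>
          have h4 : chkP (2 * m + 1) l c = true := ((Bool.and_eq_true _ _).mp h).1
          have : CharP F (2 * m + 1) := hqF ▸ charP_of_card_eq_prime rfl
          exact chkP_sound hm hqF.symm hl h4
    · have key : ∃ cs', loopP M f (q + 2) cs' = true := by
        cases h3 : Nat.beq (Nat.gcd q M) 1 with
        | false => rw [h3] at h; exact ⟨cs, h⟩
        | true =>
          rw [h3] at h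
          obtain ⟨l, _, h⟩ := facE_sound h
          cases h4 : Nat.ble (thr l.length) q with
          | true => rw [h4] at h; exact ⟨cs, h⟩
          | false =>
            rw [h4] at h
            cases cs with
            | nil => exact absurd h (by simp)
            | cons c cs' => exact ⟨cs', ((Bool.and_eq_true _ _).mp h).2⟩
      obtain ⟨cs', h⟩ := key
      exact ih (q + 2) cs' (by omega) hF (by omega) (by omega) h

/-- Certificate check in a field with `p ^ a` elements, `p` odd. -/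
noncomputable def chkQ (p a R U V : ℕ) : Bool :=
  withPar p 1 a R fun P => force (Nat.div (Nat.pow p a) 2) fun m => force (Nat.mul 2 m) fun n =>
    facE n fun l => Nat.beq (Nat.land U P.mJ) U && Nat.beq (Nat.land V P.mJ) V &&
      P.powK U m (P.eqK (Nat.pred p)) && P.ordK n l m V &&
        P.ordK n l n (Nat.add U 1) && P.mulK U V fun W => P.ordK n l n (Nat.add W 1)

theorem chkQ_sound {p a R U V m : ℕ} (hp : (p : F) = 0) (hq : Fintype.card F = p ^ a)
    (hm : 0 < m) (hn : Fintype.card F = 2 * m + 1) (h : chkQ p a R U V = true) : Concl F := by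
  obtain ⟨α, P, hP, hPp, ha, h⟩ := withPar_sound hp hq h
  have e : Nat.div (Nat.pow p a) 2 = m := by
    show p ^ a / 2 = m
    omega
  rw [force_eq, force_eq, e] at h
  obtain ⟨l, hl, h⟩ := facE_sound h
  simp only [Bool.and_eq_true] at h
  obtain ⟨⟨⟨⟨⟨h1, h2⟩, h3⟩, h4⟩, h5⟩, h6⟩ := h
  obtain ⟨u, hu⟩ := hP.cert h1
  obtain ⟨r, hr⟩ := hP.cert h2
  have hu' := hu.mono (c' := 2047) (by norm_num)
  have hr' := hr.mono (c' := 2047) (by norm_num)
  have hp1 := hP.hp1
  have hp2 := hP.hp2
  have hone : Rep α 1024 a 1 1 := by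
    simpa using Rep.const (α := α) (c := 1024) (d := 1) (by norm_num) hP.ha1
  have a1 : u ^ m = -1 := by
    rw [P.powK_eq hP hu' (Rep.const (d := p - 1) (by omega) hP.ha1) h3, Nat.cast_sub (by omega),
      hp]
    simp
  have a2 := P.ordK_sound hP (n := 2 * m) (by omega) hm (fun t ht htm => hl t ht (htm.mul_left 2))
    hr' h4
  have a3 := P.ordK_sound hP (n := 2 * m) (m := 2 * m) (by omega) (by omega) hl (hu.add hone) h5
  obtain ⟨W, hW, h7⟩ := P.mulK_sound hP hu' hr' h6
  have a4 := P.ordK_sound hP (n := 2 * m) (m := 2 * m) (by omega) (by omega) hl (hW.add hone) h7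
  exact concl_odd m hn u r a2 hm (nonsq hm hn a1).1 (nonsq hm hn a1).2 a3 a4

/-- Certificate check in a field with `2 ^ a` elements. -/
noncomputable def chkE (a R U V : ℕ) : Bool :=
  withPar 2 512 a R fun P => force (Nat.pred (Nat.pow 2 a)) fun n =>
    facO n [] fun l => Nat.beq (Nat.land U P.mJ) U && Nat.beq (Nat.land V P.mJ) V &&
      P.mulK (Nat.add 1 U) V (P.eqK 1) && P.ordK n l n (Nat.add 1 U) &&
        P.mulK U V (fun W => P.ordK n l n W) && P.mulK U (Nat.add 1 U) fun W => P.ordK n l n W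

theorem chkE_sound {a R U V : ℕ} (hp : (2 : F) = 0) (hq : Fintype.card F = 2 ^ a)
    (h : chkE a R U V = true) : Concl F := by
  obtain ⟨α, P, hP, hPp, ha, h⟩ := withPar_sound (by exact_mod_cast hp) hq h
  obtain ⟨m, hm, hn⟩ : ∃ m, 0 < m ∧ 2 ^ a = 2 * m + 1 + 1 := by
    obtain ⟨j, rfl⟩ : ∃ j, a = j + 2 := ⟨a - 2, by omega⟩
    have := Nat.one_le_two_pow (n := j)
    exact ⟨2 * 2 ^ j - 1, by omega, by rw [pow_add]; omega⟩
  have e : Nat.pred (Nat.pow 2 a) = 2 * m + 1 := by
    show 2 ^ a - 1 = _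
    omega
  rw [force_eq, e] at h
  obtain ⟨l, -, hl, h⟩ := facO_sound h
  simp only [Bool.and_eq_true] at h
  obtain ⟨⟨⟨⟨⟨h1, h2⟩, h3⟩, h4⟩, h5⟩, h6⟩ := h
  obtain ⟨u, hu⟩ := hP.cert h1
  obtain ⟨r, hr⟩ := hP.cert h2
  have hu' := hu.mono (c' := 2047) (by norm_num)
  have hr' := hr.mono (c' := 2047) (by norm_num)
  have hone : Rep α 1024 a 1 1 := by
    simpa using Rep.const (α := α) (c := 1024) (d := 1) (by norm_num) hP.ha1
  have hu1 : Rep α 2047 a (Nat.add 1 U) (1 + u) := hone.add hu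
  obtain ⟨Z, hZ, h7⟩ := P.mulK_sound hP hu1 hr' h3
  have a1 : (1 + u) * r = 1 := P.eqK_sound hP (hone.mono (by norm_num)) hZ h7
  have a2 := P.ordK_sound hP (by omega) (by omega) hl hu1 h4
  obtain ⟨W, hW, h8⟩ := P.mulK_sound hP hu' hr' h5
  have a3 := P.ordK_sound hP (by omega) (by omega) hl (hW.mono (by norm_num)) h8
  obtain ⟨W', hW', h9⟩ := P.mulK_sound hP hu' hu1 h6
  have a4 := P.ordK_sound hP (by omega) (by omega) hl (hW'.mono (by norm_num)) h9
  exact concl_even m (hq.trans hn) hp u r a1 hm a2 a3 a4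

end Pool.Agent.Lib.MP_1a41ac_nt
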