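import Mathlib

/-!
Combinatorial constructions of the circular permutation from a few good field elements.
-/

namespace Pool.Agent.Lib.MP_1a41ac_nt

open Finset

/-- The conclusion of the conjecture for the field `F`. -/
def Concl (F : Type*) [Field F] [Fintype F] : Prop :=
  ∃ b : ℕ → F, Set.BijOn b (Set.Icc 1 (Fintype.card F - 1)) {x | x ≠ 0} ∧
    b (Fintype.card F) = b 1 ∧
    ∀ i ∈ Set.Icc 1 (Fintype.card F - 1), orderOf (b i * b (i + 1) + 1) = Fintype.card F - 1

variable {F : Type*} [Field F] [Fintype F]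

theorem concl_of_seq (n : ℕ) (hn : Fintype.card F = n + 1) (c : ℕ → F)
    (h0 : ∀ i < n, c i ≠ 0) (hinj : ∀ i < n, ∀ j < n, c i = c j → i = j) (hper : c n = c 0)
    (h : ∀ i < n, orderOf (c i * c (i + 1) + 1) = n) : Concl F := by
  classical
  have hn' : Fintype.card F - 1 = n := by omega
  refine ⟨fun i => c (i - 1), ?_, ?_, ?_⟩
  · rw [hn']
    have hm : Set.MapsTo (fun i => c (i - 1)) (Set.Icc 1 n) {x | x ≠ 0} := by
      intro i hi
      exact h0 _ (by have := hi.1; have := hi.2; omega)
    have hi : Set.InjOn (fun i => c (i - 1)) (Set.Icc 1 n) := by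
      intro i hi j hj hij
      have := hinj (i - 1) (by have := hi.1; have := hi.2; omega) (j - 1)
        (by have := hj.1; have := hj.2; omega) hij
      have := hi.1; have := hj.1; omega
    refine ⟨hm, hi, ?_⟩
    have key := Finset.surjOn_of_injOn_of_card_le (s := Finset.Icc 1 n)
      (t := (Finset.univ : Finset F).erase 0) (fun i => c (i - 1))
      (by
        intro i hi
        have := hm (by simpa using hi)
        simpa using this)
      (by simpa using hi)
      (by rw [Finset.card_erase_of_mem (Finset.mem_univ _), Finset.card_univ, hn]; simp)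
    intro x hx
    obtain ⟨i, hi, hix⟩ := key (show x ∈ (((Finset.univ : Finset F).erase 0 : Finset F) : Set F) by
      simpa using hx)
    exact ⟨i, by simpa using hi, hix⟩
  · simp only [hn, Nat.add_sub_cancel, Nat.sub_self, hper]
  · rw [hn']
    intro i hi
    have h1 := hi.1
    have h2 := hi.2
    have := h (i - 1) (by omega)
    have e : i - 1 + 1 = i + 1 - 1 := by omega
    rwa [e] at this

/-- Odd `q`: two perfect matchings whose union is a Hamiltonian cycle. -/
theorem concl_odd (m : ℕ) (hn : Fintype.card F = 2 * m + 1) (u r : F) (hr : orderOf r = m)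
    (hm : 0 < m) (hu0 : u ≠ 0) (hu : u ^ m ≠ 1) (h1 : orderOf (u + 1) = 2 * m)
    (h2 : orderOf (u * r + 1) = 2 * m) : Concl F := by
  have hrm : r ^ m = 1 := by rw [← hr]; exact pow_orderOf_eq_one r
  have hr0 : r ≠ 0 := by
    rintro rfl
    rw [zero_pow hm.ne'] at hrm
    exact zero_ne_one hrm
  have hinj : ∀ i < m, ∀ j < m, r ^ i = r ^ j → i = j := by
    intro i hi j hj hij
    exact pow_injOn_Iio_orderOf (by simpa [hr] using hi) (by simpa [hr] using hj) hij
  have hmix : ∀ i j : ℕ, r ^ i ≠ u * (r ^ j)⁻¹ := by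
    intro i j hij
    apply hu
    have : u = r ^ (i + j) := by
      rw [pow_add, hij]; field_simp
    rw [this, ← pow_mul, mul_comm, pow_mul, hrm, one_pow]
  refine concl_of_seq (2 * m) hn
    (fun i => if i % 2 = 0 then r ^ (i / 2) else u * (r ^ (i / 2))⁻¹) ?_ ?_ ?_ ?_
  · intro i _
    split_ifs
    · exact pow_ne_zero _ hr0
    · exact mul_ne_zero hu0 (inv_ne_zero (pow_ne_zero _ hr0))
  · intro i hi j hj hij
    split_ifs at hij with h3 h4 h4
    · have := hinj (i / 2) (by omega) (j / 2) (by omega) hij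
      omega
    · exact absurd hij (hmix _ _)
    · exact absurd hij.symm (hmix _ _)
    · have h5 := inv_injective (mul_left_cancel₀ hu0 hij)
      have := hinj (i / 2) (by omega) (j / 2) (by omega) h5
      omega
  · have : 2 * m % 2 = 0 := by omega
    simp only [this, if_true]
    rw [show 2 * m / 2 = m by omega, hrm]; simp
  · intro i _
    by_cases h3 : i % 2 = 0
    · rw [if_pos h3, if_neg (by omega), show (i + 1) / 2 = i / 2 by omega]
      have : r ^ (i / 2) * (u * (r ^ (i / 2))⁻¹) = u := by
        have := pow_ne_zero (i / 2) hr0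
        field_simp
      rw [this, h1]
    · rw [if_neg h3, if_pos (by omega), show (i + 1) / 2 = i / 2 + 1 by omega]
      have : u * (r ^ (i / 2))⁻¹ * r ^ (i / 2 + 1) = u * r := by
        have := pow_ne_zero (i / 2) hr0
        rw [pow_succ]
        field_simp
      rw [this, h2]

/-- A cycle given by exponents of a generator. -/
theorem concl_exp (n : ℕ) (hn : Fintype.card F = n + 1) (a t : F) (ha : a ≠ 0)
    (ht : orderOf t = n) (hpos : 0 < n) (e : ℕ → ℕ) (he : ∀ i < n, e i < n)
    (hinj : ∀ i < n, ∀ j < n, e i = e j → i = j) (hper : e n = e 0)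
    (h : ∀ i < n, orderOf (a ^ 2 * t ^ (e i + e (i + 1)) + 1) = n) : Concl F := by
  have htn : t ^ n = 1 := by rw [← ht]; exact pow_orderOf_eq_one t
  have ht0 : t ≠ 0 := by
    rintro rfl
    rw [zero_pow hpos.ne'] at htn
    exact zero_ne_one htn
  refine concl_of_seq n hn (fun i => a * t ^ e i) ?_ ?_ ?_ ?_
  · intro i _
    exact mul_ne_zero ha (pow_ne_zero _ ht0)
  · intro i hi j hj hij
    apply hinj i hi j hj
    exact pow_injOn_Iio_orderOf (by simpa [ht] using he i hi) (by simpa [ht] using he j hj)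
      (mul_left_cancel₀ ha hij)
  · simp only [hper]
  · intro i hi
    have := h i hi
    rw [← this]
    congr 2
    rw [pow_add]; ring

/-- Even `q`: a Hamiltonian path formed by two near-perfect matchings, closed by a third edge. -/
theorem concl_even (m : ℕ) (hn : Fintype.card F = 2 * m + 1 + 1) (h2 : (2 : F) = 0) (a b : F)
    (hb : (1 + a) * b = 1) (hm : 0 < m) (h1 : orderOf (1 + a) = 2 * m + 1)
    (h3 : orderOf (a * b) = 2 * m + 1) (h4 : orderOf (a * (1 + a)) = 2 * m + 1) : Concl F := by
  have hne : ∀ x : F, orderOf x = 2 * m + 1 → x ≠ 0 := by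
    rintro x hx rfl
    have := pow_orderOf_eq_one (0 : F)
    rw [hx, zero_pow (by omega)] at this
    exact zero_ne_one this
  have ha0 : a ≠ 0 := fun h => hne _ h3 (by simp [h])
  have ha1 : 1 + a ≠ 0 := hne _ h1
  have hsq : ∀ x : F, orderOf x = 2 * m + 1 → orderOf (x ^ 2) = 2 * m + 1 := by
    intro x hx
    have hc : (orderOf x).Coprime 2 := by
      rw [hx, Nat.coprime_two_right]; exact ⟨m, rfl⟩
    rw [hc.orderOf_pow, hx]
  have hbe : b = (1 + a)⁻¹ := eq_inv_of_mul_eq_one_right hb
  have hinv : ∀ x : F, orderOf x⁻¹ = orderOf x := fun x => by simp [orderOf_eq_orderOf_iff]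
  set t : F := (a * (1 + a))⁻¹ with htdef
  have ht : orderOf t = 2 * m + 1 := by rw [htdef, hinv, h4]
  have htn : t ^ (2 * m + 1) = 1 := by rw [← ht]; exact pow_orderOf_eq_one t
  have hat : a * t = b := by rw [htdef, hbe]; field_simp
  have hA : orderOf (a ^ 2 + 1) = 2 * m + 1 := by
    have : a ^ 2 + 1 = (1 + a) ^ 2 := by linear_combination (-a) * h2
    rw [this, hsq _ h1]
  have hb1 : b + 1 = a * b := by linear_combination hb + (1 - a * b) * h2
  have hB : orderOf (b ^ 2 + 1) = 2 * m + 1 := by
    have : b ^ 2 + 1 = (b + 1) ^ 2 := by linear_combination (-b) * h2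
    rw [this, hb1, hsq _ h3]
  have hC : orderOf (a * b + 1) = 2 * m + 1 := by
    have : a * b + 1 = b := by linear_combination hb + (1 - b) * h2
    rw [this, hbe, hinv, h1]
  refine concl_exp (2 * m + 1) hn a t ha0 ht (by omega)
    (fun i => if i = 0 ∨ i = 2 * m + 1 then 0 else if i % 2 = 0 then 2 * m + 1 - i else i + 1)
    ?_ ?_ ?_ ?_
  · intro i hi
    split_ifs <;> omega
  · intro i hi j hj hij
    split_ifs at hij <;> omega
  · simp
  · intro i hi
    by_cases h5 : i = 0
    · subst h5
      rw [if_pos (Or.inl rfl), if_neg (by omega), if_neg (by omega)]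
      have : a ^ 2 * t ^ (0 + (0 + 1 + 1)) = b ^ 2 := by rw [← hat]; ring
      rw [this, hB]
    by_cases h6 : i = 2 * m
    · subst h6
      rw [if_neg (by omega), if_pos (by omega), if_pos (Or.inr rfl)]
      have : a ^ 2 * t ^ (2 * m + 1 - 2 * m + 0) = a * b := by
        rw [← hat, show 2 * m + 1 - 2 * m + 0 = 1 by omega]; ring
      rw [this, hC]
    by_cases h7 : i % 2 = 0
    · rw [if_neg (by omega), if_pos h7, if_neg (by omega), if_neg (by omega)]
      have : a ^ 2 * t ^ (2 * m + 1 - i + (i + 1 + 1)) = b ^ 2 := by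
        rw [← hat, show 2 * m + 1 - i + (i + 1 + 1) = (2 * m + 1) + 2 by omega, pow_add, htn]; ring
      rw [this, hB]
    · rw [if_neg (by omega), if_neg h7, if_neg (by omega), if_pos (by omega)]
      have : a ^ 2 * t ^ (i + 1 + (2 * m + 1 - (i + 1))) = a ^ 2 := by
        rw [show i + 1 + (2 * m + 1 - (i + 1)) = 2 * m + 1 by omega, htn]; ring
      rw [this, hA]

end Pool.Agent.Lib.MP_1a41ac_nt
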