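import Pool.Agent.Lib.MP_1a41ac_nt.Check

/-!
Kernel-checked certificates.
-/

namespace Pool.Agent.Lib.MP_1a41ac_nt

theorem loop_40001 : loopP
    2577426147548683169379880845613862450845254401055092509543183257270179188707233718999293223417932941038924189941484105421516996015467418326179536384362799440729804187886824533414953001905801090622787969540076319408964006230
    20000 40001 [
    23960588, 23808047, 19983387, 34825253, 37045266, 2011157, 32617533, 8481837, 9452562,
    16389133, 15328270, 18656286, 15024220, 34677770, 16953362, 31471708, 3138588, 21999628,
    12944401, 18152465, 25473064, 39404562, 25577514, 16004110, 36772875, 15697943, 42767378,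
    27370549, 15146002, 27091990, 24730663, 12543013, 38744076, 18248750, 7841798, 8568865,
    34765865, 19412039, 27874316, 15937557, 22304811, 44677149, 2346025, 27536398, 2369577,
    38642717, 11639829, 31106141, 16955540, 19439654, 36404243, 24924172, 21087251, 928822,
    7167018, 44428305, 16797714, 35602469, 37714983, 29766668, 1088559, 17084434, 50546741,
    22919195, 24162360, 39984145, 18707470, 30583820, 26427529, 49425425, 15305790, 30770188,
    24284197, 29662285, 23974932, 46314572, 52407343, 16086076, 22727718, 49834022, 48525350,
    18915400, 5875740, 27440166, 17341494, 2907155, 47149123, 26933351, 13255722, 39406626,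
    53371012, 5118987, 51442711, 50527251, 46324747, 6672401, 19130460, 37896225, 17623105,
    21233691, 32827413, 40681513, 53323803, 26266635, 11935778, 11603978, 46474250, 15086619,
    17736727, 38872151, 10274873, 13684766, 24173585, 43284514, 9070605, 26881035, 55256078,
    47653898, 32838707, 5214231, 6368322, 38648860, 43443218, 50165766, 7229515, 23241767,
    30972969, 26366999, 48323638, 43044919, 20888608, 22434835, 15668302, 24246328, 10344454,
    52517901, 8098839, 11851797, 10647634, 2079774, 14709794, 24633372, 45712406, 35981349,
    48559121, 39145485, 23136267, 31903756, 27921440, 54410293, 11557938, 10706956, 34292766,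
    7871529, 57113617, 63642682, 62892065, 11197469, 48762900, 22312998, 41527307, 45505638,
    24307766, 25644073, 3297320, 22150177, 6052875, 7920741, 1971234, 9900154, 53699644,
    26516513, 55352331, 65388600, 60349512, 55783491, 40294427, 38161449, 39701516, 22723617,
    59970592, 27530250, 6965337, 40267788, 20721714, 34973799, 27160599, 39726094, 44302366,
    27505692, 24168477, 62379026, 44847126, 44245102, 24335421, 62264386, 53900363, 63194130,
    61169678, 58208283, 66305051, 22281245, 34573339, 49593386, 49873933, 10599458, 61681732,
    14477322, 28309545, 15555612, 24855590, 31497246, 63158310, 69063718, 28699704, 17047582,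
    71579692, 53031954, 49834071, 52020265, 42359848, 36901946, 23107616, 32490537, 54813719,
    17587255, 22915085, 55859268, 34285605, 7921730, 45680658, 46026765, 49630291, 6822923,
    67324995, 15044618, 61555745, 49868841, 30892059, 22764574, 8931345, 74311724, 22644773,
    11310107, 72881173, 55840853, 9994286, 36737047, 26464288, 31713297, 64262156, 10527810,
    64487436, 60197915, 16320531, 30262326, 9583681, 61091863, 63706188, 73647290, 7386250,
    2907163, 69922843, 36635779, 50028604, 50061342, 26402954, 64863287, 65500183, 70534162,
    12372045, 46324748, 20604955, 25248825, 46272614, 32902166, 22094910, 32705573, 32798767,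
    62561293, 4525074, 62715019, 60887091] = true := by
  decide +kernel

theorem loop_80001 : loopP
    2577426147548683169379880845613862450845254401055092509543183257270179188707233718999293223417932941038924189941484105421516996015467418326179536384362799440729804187886824533414953001905801090622787969540076319408964006230
    20000 80001 [
    36681766, 46220318, 71599146, 37661749, 52277270, 62178346, 49613835, 24706066, 96511026] = true := by
  decide +kernel

end Pool.Agent.Lib.MP_1a41ac_nt
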