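import Pool.Agent.Lib.MP_1a41ac_nt.Check

/-!
Kernel-checked certificates.
-/

namespace Pool.Agent.Lib.MP_1a41ac_nt

theorem loop_120001 : loopP
    2577426147548683169379880845613862450845254401055092509543183257270179188707233718999293223417932941038924189941484105421516996015467418326179536384362799440729804187886824533414953001905801090622787969540076319408964006230
    20000 120001 [
    69055545, 75080718, 19262478, 63699000, 65489990, 18861116, 39004274, 146115630, 59770939,
    22778907, 65046557, 80426100, 17373240, 60608571] = true := by
  decide +kernel

theorem loop_160001 : loopP
    2577426147548683169379880845613862450845254401055092509543183257270179188707233718999293223417932941038924189941484105421516996015467418326179536384362799440729804187886824533414953001905801090622787969540076319408964006230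
    20000 160001 [
    89104471, 108288040, 149664855, 124405787, 120124439, 10335249, 144090122, 137009253,
    134057133, 22430737, 153625610, 72951861, 188579912, 95782986, 18095115, 7393362, 23579691] = true := by
  decide +kernel

end Pool.Agent.Lib.MP_1a41ac_nt
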