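import Pool.Agent.Lib.MP_1a41ac_nt.Check

/-!
Kernel-checked certificates.
-/

namespace Pool.Agent.Lib.MP_1a41ac_nt

theorem loop_200001 : loopP
    2577426147548683169379880845613862450845254401055092509543183257270179188707233718999293223417932941038924189941484105421516996015467418326179536384362799440729804187886824533414953001905801090622787969540076319408964006230
    20000 200001 [
    89705511, 146533448, 64531525, 83519633, 164936755, 65489960, 152299533, 199092245, 64741438,
    187265036, 195457078, 105663499, 21167115, 44805141, 93608993, 223720520, 29424681] = true := by
  decide +kernel

theorem loop_240001 : loopP
    2577426147548683169379880845613862450845254401055092509543183257270179188707233718999293223417932941038924189941484105421516996015467418326179536384362799440729804187886824533414953001905801090622787969540076319408964006230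
    15000 240001 [
    9215003, 141232158, 246260792, 22924299, 50664488, 48074805, 39667725, 143797309, 217621538,
    133648406, 218439752, 5434469, 55128074] = true := by
  decide +kernel

end Pool.Agent.Lib.MP_1a41ac_nt
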