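import Pool.Agent.Lib.MP_1a41ac_nt.Check

/-!
Kernel-checked certificates.
-/

namespace Pool.Agent.Lib.MP_1a41ac_nt

theorem loop_270001 : loopP
    2577426147548683169379880845613862450845254401055092509543183257270179188707233718999293223417932941038924189941484105421516996015467418326179536384362799440729804187886824533414953001905801090622787969540076319408964006230
    19568 270001 [
    211638306, 217716786, 233166907, 33284113, 54003770, 164537358, 280174619, 79619083,
    91720746, 209888283, 258355237, 97430556, 76286008, 111416458, 118097015, 55290897,
    124695628] = true := by
  decide +kernel

end Pool.Agent.Lib.MP_1a41ac_nt
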