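import Pool.Agent.Lib.MP_1a41ac_nt.EvenChk

/-!
Kernel-checked certificates.
-/

namespace Pool.Agent.Lib.MP_1a41ac_nt

/-- Packing of a list of coefficients. -/
def enc : List ℕ → ℕ
  | [] => 0
  | c :: l => c + 2 ^ 128 * enc l

/-- Certificates for odd prime powers. -/
def tabQ : List (ℕ × ℕ × List ℕ × List ℕ × List ℕ) := [
  (3, 2, [1, 1], [2, 1], [2, 2]),
  (3, 3, [2, 1], [2, 1, 2], [2, 2, 0]),
  (3, 4, [1, 1], [0, 1, 2, 2], [0, 0, 1, 0]),
  (3, 5, [2, 1], [1, 1, 2, 0, 0], [2, 2, 1, 2, 0]),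
  (3, 6, [1, 1], [1, 2, 0, 1, 0, 2], [0, 1, 1, 1, 1, 0]),
  (5, 3, [2, 1], [2, 2, 2], [3, 3, 1]),
  (5, 4, [2, 1, 1], [4, 2, 1, 1], [1, 4, 1, 3]),
  (5, 5, [2, 1], [3, 1, 4, 0, 1], [2, 3, 1, 1, 1]),
  (5, 6, [2, 2], [3, 2, 4, 4, 0, 3], [1, 4, 4, 1, 4, 2]),
  (7, 2, [2, 2], [5, 4], [5, 3]),
  (7, 3, [5, 1], [0, 1, 4], [5, 6, 3]),
  (7, 4, [2, 1, 2], [6, 4, 3, 2], [3, 1, 4, 3]),
  (11, 2, [3, 1], [4, 4], [3, 1]),
  (11, 3, [2, 2], [7, 10, 2], [5, 4, 1]),
  (11, 4, [3, 5], [2, 3, 5, 6], [6, 9, 7, 4]),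
  (13, 2, [2, 4], [0, 4], [1, 5]),
  (13, 3, [2, 7], [11, 6, 1], [1, 4, 1]),
  (13, 4, [2, 2, 2], [12, 5, 10, 11], [5, 9, 0, 7]),
  (17, 2, [3, 4], [8, 15], [4, 14]),
  (19, 2, [4, 4], [18, 1], [12, 1]),
  (23, 2, [2, 5], [8, 17], [4, 4]),
  (23, 3, [5, 2], [0, 1, 3], [20, 7, 7]),
  (29, 2, [2, 2], [25, 22], [10, 10]),
  (31, 2, [7, 1], [3, 18], [20, 6]),
  (37, 2, [2, 3], [14, 34], [34, 19]),
  (41, 2, [6, 6], [12, 31], [19, 30]),
  (43, 2, [9, 1], [0, 9], [16, 24]),
  (47, 2, [2, 5], [43, 8], [3, 31]),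
  (53, 2, [2, 5], [52, 6], [31, 52]),
  (59, 2, [3, 1], [45, 37], [24, 28]),
  (61, 2, [2, 3], [23, 12], [12, 19]),
  (67, 2, [4, 2], [38, 26], [11, 42]),
  (71, 2, [2, 3], [65, 56], [44, 22]),
  (79, 2, [2, 2], [39, 75], [2, 53]),
  (83, 2, [3, 12], [82, 46], [78, 80]),
  (89, 2, [3, 5], [34, 37], [82, 78]),
  (101, 2, [2, 6], [18, 8], [80, 90]),
  (103, 2, [2, 2], [49, 11], [100, 83]),
  (109, 2, [6, 3], [16, 38], [11, 75]),
  (113, 2, [3, 3], [26, 7], [25, 61]),
  (131, 2, [3, 5], [5, 41], [115, 64]),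
  (137, 2, [3, 3], [38, 123], [121, 120]),
  (139, 2, [4, 4], [67, 35], [89, 32]),
  (181, 2, [2, 3], [46, 7], [87, 100]),
  (211, 2, [4, 1], [199, 82], [137, 161]),
  (229, 2, [6, 7], [87, 36], [61, 225]),
  (239, 2, [2, 7], [5, 61], [175, 57]),
  (281, 2, [3, 3], [178, 60], [244, 280]),
  (419, 2, [3, 7], [112, 137], [229, 336]),
  (461, 2, [2, 8], [145, 6], [406, 456])]

theorem tabQ_ok : (tabQ.all fun e => force (enc e.2.2.1) fun R => force (enc e.2.2.2.1) fun U =>
    force (enc e.2.2.2.2) fun V => chkQ e.1 e.2.1 R U V) = true := by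
  decide +kernel

/-- Packing of the binary digits of a number. -/
def encB : ℕ → ℕ → ℕ
  | 0, _ => 0
  | k + 1, x => x % 2 + 2 ^ 128 * encB k (x / 2)

/-- Certificates for powers of two. -/
def tabE : List (ℕ × ℕ × ℕ × ℕ) := [
  (3, 3, 5, 7),
  (4, 3, 12, 4),
  (5, 5, 20, 26),
  (6, 3, 57, 36),
  (8, 29, 195, 165),
  (9, 17, 339, 275),
  (10, 9, 337, 142),
  (12, 105, 2344, 643),
  (14, 57, 8263, 9501),
  (15, 3, 13750, 8937),
  (16, 57, 47916, 35697),
  (18, 39, 123328, 33855),
  (20, 9, 886294, 716133),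
  (22, 3, 3404200, 3516679),
  (24, 27, 10668784, 4660306),
  (28, 9, 23321503, 62292409),
  (30, 83, 363076654, 216183344),
  (32, 197, 2550453559, 2541057206),
  (36, 123, 38994971753, 19769908122),
  (40, 57, 257796080442, 1024313709329),
  (48, 183, 33283418924160, 129162572009025)]

/-- Check of one table entry. -/
noncomputable def ckE (e : ℕ × ℕ × ℕ × ℕ) : Bool :=
  force (encB e.1 e.2.1) fun R => force (encB e.1 e.2.2.1) fun U =>
    force (encB e.1 e.2.2.2) fun V => chkE e.1 R U V

theorem ckE_3 : ckE (3, 3, 5, 7) = true := by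
  decide +kernel

theorem ckE_4 : ckE (4, 3, 12, 4) = true := by
  decide +kernel

theorem ckE_5 : ckE (5, 5, 20, 26) = true := by
  decide +kernel

theorem ckE_6 : ckE (6, 3, 57, 36) = true := by
  decide +kernel

theorem ckE_8 : ckE (8, 29, 195, 165) = true := by
  decide +kernel

theorem ckE_9 : ckE (9, 17, 339, 275) = true := by
  decide +kernel

theorem ckE_10 : ckE (10, 9, 337, 142) = true := by
  decide +kernel

theorem ckE_12 : ckE (12, 105, 2344, 643) = true := by
  decide +kernel

theorem ckE_14 : ckE (14, 57, 8263, 9501) = true := by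
  decide +kernel

theorem ckE_15 : ckE (15, 3, 13750, 8937) = true := by
  decide +kernel

theorem ckE_16 : ckE (16, 57, 47916, 35697) = true := by
  decide +kernel

theorem ckE_18 : ckE (18, 39, 123328, 33855) = true := by
  decide +kernel

theorem ckE_20 : ckE (20, 9, 886294, 716133) = true := by
  decide +kernel

theorem ckE_22 : ckE (22, 3, 3404200, 3516679) = true := by
  decide +kernel

theorem ckE_24 : ckE (24, 27, 10668784, 4660306) = true := by
  decide +kernel

theorem ckE_28 : ckE (28, 9, 23321503, 62292409) = true := by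
  decide +kernel

theorem ckE_30 : ckE (30, 83, 363076654, 216183344) = true := by
  decide +kernel

theorem ckE_32 : ckE (32, 197, 2550453559, 2541057206) = true := by
  decide +kernel

theorem ckE_36 : ckE (36, 123, 38994971753, 19769908122) = true := by
  decide +kernel

theorem ckE_40 : ckE (40, 57, 257796080442, 1024313709329) = true := by
  decide +kernel

theorem ckE_48 : ckE (48, 183, 33283418924160, 129162572009025) = true := by
  decide +kernel

theorem tabE_ok : ∀ e ∈ tabE, ckE e = true := by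
  simp only [tabE, List.forall_mem_cons]
  exact ⟨ckE_3, ckE_4, ckE_5, ckE_6, ckE_8, ckE_9, ckE_10, ckE_12, ckE_14, ckE_15, ckE_16, ckE_18,
    ckE_20, ckE_22, ckE_24, ckE_28, ckE_30, ckE_32, ckE_36, ckE_40, ckE_48, by simp⟩

/-- Coverage of the exponents in a block. -/
noncomputable def covE (s : ℕ) : Bool := (List.range' s 25).all fun a =>
  Nat.blt a 3 || tabE.any (fun e => Nat.beq e.1 a) || evenChk a

theorem covE_0 : covE (25 * 0) = true := by
  decide +kernel

theorem covE_1 : covE (25 * 1) = true := by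
  decide +kernel

theorem covE_2 : covE (25 * 2) = true := by
  decide +kernel

theorem covE_3 : covE (25 * 3) = true := by
  decide +kernel

theorem covE_4 : covE (25 * 4) = true := by
  decide +kernel

theorem covE_5 : covE (25 * 5) = true := by
  decide +kernel

theorem covE_6 : covE (25 * 6) = true := by
  decide +kernel

theorem covE_7 : covE (25 * 7) = true := by
  decide +kernel

theorem covE_8 : covE (25 * 8) = true := by
  decide +kernel

theorem covE_9 : covE (25 * 9) = true := by
  decide +kernel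

theorem covE_10 : covE (25 * 10) = true := by
  decide +kernel

theorem covE_11 : covE (25 * 11) = true := by
  decide +kernel

theorem covE_12 : covE (25 * 12) = true := by
  decide +kernel

theorem covE_13 : covE (25 * 13) = true := by
  decide +kernel

theorem covE_14 : covE (25 * 14) = true := by
  decide +kernel

theorem covE_15 : covE (25 * 15) = true := by
  decide +kernel

theorem covE_16 : covE (25 * 16) = true := by
  decide +kernel

theorem covE_17 : covE (25 * 17) = true := by
  decide +kernel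

theorem covE_18 : covE (25 * 18) = true := by
  decide +kernel

theorem covE_19 : covE (25 * 19) = true := by
  decide +kernel

theorem covE_20 : covE (25 * 20) = true := by
  decide +kernel

theorem covE_21 : covE (25 * 21) = true := by
  decide +kernel

theorem covE_22 : covE (25 * 22) = true := by
  decide +kernel

theorem covE_23 : covE (25 * 23) = true := by
  decide +kernel

theorem covE_24 : covE (25 * 24) = true := by
  decide +kernel

theorem covE_25 : covE (25 * 25) = true := by
  decide +kernel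

theorem covE_26 : covE (25 * 26) = true := by
  decide +kernel

theorem covE_27 : covE (25 * 27) = true := by
  decide +kernel

theorem coverE {k : ℕ} (hk : k < 28) : covE (25 * k) = true := by
  interval_cases k
  exacts [covE_0, covE_1, covE_2, covE_3, covE_4, covE_5, covE_6, covE_7, covE_8, covE_9, covE_10,
    covE_11, covE_12, covE_13, covE_14, covE_15, covE_16, covE_17, covE_18, covE_19, covE_20,
    covE_21, covE_22, covE_23, covE_24, covE_25, covE_26, covE_27]

theorem coverQ : ((List.range 556).all fun p => (List.range 12).all fun a =>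
    Nat.blt a 2 || Nat.ble 309136 (p ^ a) || Nat.blt p 3 || Nat.beq (p % 2) 0 ||
      (Nat.blt 24 p && !Nat.beq (Nat.gcd p 223092870) 1) || Nat.beq p 9 || Nat.beq p 15 ||
        Nat.beq p 21 || Nat.beq (p ^ a) 25 ||
          tabQ.any (fun e => Nat.beq e.1 p && Nat.beq e.2.1 a) ||
            facE (p ^ a - 1) fun l => Nat.ble (thr l.length) (p ^ a)) = true := by
  decide +kernel

end Pool.Agent.Lib.MP_1a41ac_nt
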