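import Mathlib

/-!
A dual-norm calculus for expansions of functions in characters.
-/

namespace Pool.Agent.Lib.MP_1a41ac_nt

open Finset

section Dom

variable {α : Type*}

/-- Every linear functional bounded by `B` on `S` is bounded by `M * B` at `f`. -/
def Dom (S : Set (α → ℂ)) (f : α → ℂ) (M : ℝ) : Prop :=
  ∀ (L : (α → ℂ) →ₗ[ℂ] ℂ) (B : ℝ), 0 ≤ B → (∀ g ∈ S, ‖L g‖ ≤ B) → ‖L f‖ ≤ M * B

theorem Dom.mono {S T : Set (α → ℂ)} {f : α → ℂ} {M N : ℝ} (h : Dom S f M) (hS : S ⊆ T)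
    (hM : M ≤ N) : Dom T f N := fun L B hB hL =>
  (h L B hB fun g hg => hL g (hS hg)).trans (mul_le_mul_of_nonneg_right hM hB)

theorem Dom.self {S : Set (α → ℂ)} {f : α → ℂ} (h : f ∈ S) : Dom S f 1 := fun L B _ hL => by
  simpa using hL f h

theorem Dom.zero (S : Set (α → ℂ)) : Dom S 0 0 := fun L B _ _ => by simp

theorem Dom.add {S : Set (α → ℂ)} {f g : α → ℂ} {M N : ℝ} (h : Dom S f M) (h' : Dom S g N) :
    Dom S (f + g) (M + N) := fun L B hB hL => by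
  rw [map_add, add_mul]
  exact (norm_add_le _ _).trans (add_le_add (h L B hB hL) (h' L B hB hL))

theorem Dom.smul {S : Set (α → ℂ)} {f : α → ℂ} {M : ℝ} (h : Dom S f M) (c : ℂ) :
    Dom S (c • f) (‖c‖ * M) := fun L B hB hL => by
  rw [map_smul, norm_smul, mul_assoc]
  exact mul_le_mul_of_nonneg_left (h L B hB hL) (norm_nonneg _)

theorem Dom.rsmul {S : Set (α → ℂ)} {f : α → ℂ} {M : ℝ} (h : Dom S f M) {c : ℝ} (hc : 0 ≤ c) :
    Dom S ((c : ℂ) • f) (c * M) := by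
  have := h.smul (c : ℂ)
  rwa [Complex.norm_real, Real.norm_of_nonneg hc] at this

theorem Dom.neg {S : Set (α → ℂ)} {f : α → ℂ} {M : ℝ} (h : Dom S f M) : Dom S (-f) M :=
  fun L B hB hL => by rw [map_neg, norm_neg]; exact h L B hB hL

theorem Dom.sum {ι : Type*} {S : Set (α → ℂ)} (s : Finset ι) {f : ι → α → ℂ} {M : ι → ℝ}
    (h : ∀ i ∈ s, Dom S (f i) (M i)) : Dom S (∑ i ∈ s, f i) (∑ i ∈ s, M i) := by
  classical
  induction s using Finset.induction_on with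
  | empty => simpa using Dom.zero S
  | insert a s ha ih =>
    rw [sum_insert ha, sum_insert ha]
    exact (h a (mem_insert_self _ _)).add (ih fun i hi => h i (mem_insert_of_mem hi))

theorem Dom.map {β : Type*} {S : Set (α → ℂ)} {T : Set (β → ℂ)} {f : α → ℂ} {M : ℝ}
    (h : Dom S f M) (A : (α → ℂ) →ₗ[ℂ] (β → ℂ)) (hA : ∀ g ∈ S, A g ∈ T) : Dom T (A f) M :=
  fun L B hB hL => h (L ∘ₗ A) B hB fun g hg => hL _ (hA g hg)

theorem Dom.mul {S T U : Set (α → ℂ)} {f g : α → ℂ} {M N : ℝ} (h : Dom S f M) (h' : Dom T g N)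
    (hN : 0 ≤ N) (hU : ∀ a ∈ S, ∀ b ∈ T, a * b ∈ U) : Dom U (f * g) (M * N) := by
  intro L B hB hL
  have := h (L ∘ₗ LinearMap.mulRight ℂ g) (N * B) (mul_nonneg hN hB) (by
    intro a ha
    exact h' (L ∘ₗ LinearMap.mulLeft ℂ a) B hB fun b hb => hL _ (hU a ha b hb))
  rw [mul_assoc]
  exact this

end Dom

section Ex

variable {α X : Type*} [CommGroup X]

/-- `f` is `c` times the trivial character plus a combination of nontrivial `m`-torsion
characters of total weight at most `T - c`. -/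
def Ex (ev : X → α → ℂ) (m : ℕ) (f : α → ℂ) (c T : ℝ) : Prop :=
  0 ≤ c ∧ c ≤ T ∧ Dom (ev '' {χ | χ ≠ 1 ∧ χ ^ m = 1}) (f - (c : ℂ) • ev 1) (T - c)

theorem Ex.one (ev : X → α → ℂ) : Ex ev 1 (ev 1) 1 1 := by
  refine ⟨zero_le_one, le_rfl, ?_⟩
  simpa using Dom.zero _

theorem Ex.mul {ev : X → α → ℂ} (hev : ∀ χ ψ, ev (χ * ψ) = ev χ * ev ψ) {m m' : ℕ}
    {f g : α → ℂ} {c T c' T' : ℝ} (h : Ex ev m f c T) (h' : Ex ev m' g c' T')
    (hc : m.Coprime m') : Ex ev (m * m') (f * g) (c * c') (T * T') := by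
  obtain ⟨h0, h1, h2⟩ := h
  obtain ⟨h0', h1', h2'⟩ := h'
  refine ⟨mul_nonneg h0 h0', mul_le_mul h1 h1' h0' (h0.trans h1), ?_⟩
  have he : ev 1 * ev 1 = ev 1 := by rw [← hev, mul_one]
  have e1 : f * g - ((c * c' : ℝ) : ℂ) • ev 1 =
      (f - (c : ℂ) • ev 1) * (g - (c' : ℂ) • ev 1) + (c : ℂ) • (ev 1 * (g - (c' : ℂ) • ev 1)) +
        (c' : ℂ) • (ev 1 * (f - (c : ℂ) • ev 1)) := by
    ext x
    have := congrFun he x
    simp only [Pi.mul_apply, Pi.sub_apply, Pi.add_apply, Pi.smul_apply, smul_eq_mul,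
      Complex.ofReal_mul] at this ⊢
    linear_combination ((c : ℂ) * c') * this
  rw [e1]
  have hone : Dom {ev 1} (ev 1) 1 := Dom.self rfl
  have t1 : Dom (ev '' {χ | χ ≠ 1 ∧ χ ^ (m * m') = 1}) _ _ :=
    h2.mul h2' (sub_nonneg.2 h1') (by
      rintro _ ⟨χ, ⟨hχ, hχm⟩, rfl⟩ _ ⟨ψ, ⟨hψ, hψm⟩, rfl⟩
      refine ⟨χ * ψ, ⟨?_, ?_⟩, hev _ _⟩
      · intro h3
        have h4 : χ ^ m' = 1 := by
          have : (χ * ψ) ^ m' = 1 := by rw [h3, one_pow]
          rwa [mul_pow, hψm, mul_one] at this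
        apply hχ
        have := pow_gcd_eq_one.2 ⟨hχm, h4⟩
        rwa [hc.gcd_eq_one, pow_one] at this
      · rw [mul_pow, pow_mul, hχm, one_pow, mul_comm m, pow_mul, hψm, one_pow, mul_one])
  have t2 : Dom (ev '' {χ | χ ≠ 1 ∧ χ ^ (m * m') = 1}) _ _ :=
    (hone.mul h2' (sub_nonneg.2 h1') (by
      rintro _ rfl _ ⟨ψ, ⟨hψ, hψm⟩, rfl⟩
      refine ⟨ψ, ⟨hψ, ?_⟩, by rw [← hev, one_mul]⟩
      rw [mul_comm m, pow_mul, hψm, one_pow])).rsmul h0
  have t3 : Dom (ev '' {χ | χ ≠ 1 ∧ χ ^ (m * m') = 1}) _ _ :=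
    (hone.mul h2 (sub_nonneg.2 h1) (by
      rintro _ rfl _ ⟨ψ, ⟨hψ, hψm⟩, rfl⟩
      refine ⟨ψ, ⟨hψ, ?_⟩, by rw [← hev, one_mul]⟩
      rw [pow_mul, hψm, one_pow])).rsmul h0'
  exact ((t1.add t2).add t3).mono le_rfl (le_of_eq (by ring))

theorem Ex.prod {ev : X → α → ℂ} (hev : ∀ χ ψ, ev (χ * ψ) = ev χ * ev ψ) (E : Finset ℕ)
    (hE : ∀ p ∈ E, p.Prime) {f : ℕ → α → ℂ} {c T : ℕ → ℝ} (h : ∀ p ∈ E, Ex ev p (f p) (c p) (T p)) :
    Ex ev (∏ p ∈ E, p) (ev 1 * ∏ p ∈ E, f p) (∏ p ∈ E, c p) (∏ p ∈ E, T p) := by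
  induction E using Finset.induction_on with
  | empty => simpa using Ex.one ev
  | insert a s ha ih =>
    rw [prod_insert ha, prod_insert ha, prod_insert ha, prod_insert ha, mul_left_comm]
    refine (h a (mem_insert_self _ _)).mul hev
      (ih (fun p hp => hE p (mem_insert_of_mem hp)) fun p hp => h p (mem_insert_of_mem hp)) ?_
    refine Nat.Coprime.prod_right fun p hp => ?_
    refine (Nat.coprime_primes (hE a (mem_insert_self _ _)) (hE p (mem_insert_of_mem hp))).2 ?_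
    rintro rfl
    exact ha hp

end Ex

section Char

variable {F : Type*} [Field F] [Fintype F]

/-- A multiplicative character as a function. -/
noncomputable def ev1 (χ : MulChar F ℂ) : F → ℂ := fun x => χ x

omit [Fintype F] in
theorem ev1_mul (χ ψ : MulChar F ℂ) : ev1 (χ * ψ) = ev1 χ * ev1 ψ := by
  ext x; simp [ev1]

omit [Fintype F] in
theorem ev1_zero (χ : MulChar F ℂ) : ev1 χ 0 = 0 := MulChar.map_zero χ

omit [Fintype F] in
theorem ev1_one_of_ne {x : F} (hx : x ≠ 0) : ev1 (1 : MulChar F ℂ) x = 1 :=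
  MulChar.one_apply hx.isUnit

theorem exists_char {d : ℕ} (hd : d ∣ Fintype.card F - 1) :
    ∃ χ : MulChar F ℂ, orderOf χ = d ∧
      ∀ x : F, x ≠ 0 → (χ x = 1 ↔ x ^ ((Fintype.card F - 1) / d) = 1) := by
  classical
  set n := Fintype.card F - 1 with hn
  have hn0 : n ≠ 0 := by have := Fintype.one_lt_card (α := F); omega
  obtain ⟨ω, hω⟩ := MulChar.exists_mulChar_orderOf F (R := ℂ) (n := n) dvd_rfl
    (Complex.isPrimitiveRoot_exp n hn0)
  obtain ⟨g, hg⟩ := IsCyclic.exists_generator (α := Fˣ)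
  have hinj : ∀ x : F, x ≠ 0 → ω x = 1 → x = 1 := by
    intro x hx h1
    obtain ⟨k, hk⟩ := (Submonoid.mem_powers_iff _ _).1
      ((mem_powers_iff_mem_zpowers).2 (hg (Units.mk0 x hx)))
    have hxk : x = (g : F) ^ k := by
      have := congrArg Units.val hk
      simpa using this.symm
    have h2 : ω ^ k = 1 := by
      rw [MulChar.eq_iff hg, MulChar.pow_apply_coe, ← map_pow, ← hxk, h1, MulChar.one_apply_coe]
    have h3 : n ∣ k := hω ▸ orderOf_dvd_of_pow_eq_one h2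
    obtain ⟨j, rfl⟩ := h3
    rw [hxk, pow_mul, FiniteField.pow_card_sub_one_eq_one _ g.ne_zero, one_pow]
  have hnd : n / d ≠ 0 := by
    obtain ⟨j, hj⟩ := hd
    have hd0 : d ≠ 0 := by rintro rfl; simp at hj; exact hn0 hj
    rw [hj, Nat.mul_div_cancel_left _ (Nat.pos_of_ne_zero hd0)]
    rintro rfl; simp at hj; exact hn0 hj
  refine ⟨ω ^ (n / d), ?_, ?_⟩
  · rw [orderOf_pow' _ hnd, hω, Nat.gcd_eq_right (Nat.div_dvd_of_dvd hd),
      Nat.div_div_self hd hn0]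
  · intro x hx
    rw [MulChar.pow_apply' _ hnd, ← map_pow]
    exact ⟨hinj _ (pow_ne_zero _ hx), fun h => by rw [h, map_one]⟩

open Classical in
/-- The indicator function of the nonzero `d`-th powers. -/
noncomputable def pw (F : Type*) [Field F] [Fintype F] (d : ℕ) : F → ℂ := fun x =>
  if x ≠ 0 ∧ x ^ ((Fintype.card F - 1) / d) = 1 then 1 else 0

theorem ex_pw {d : ℕ} (hd : d ∣ Fintype.card F - 1) : Ex ev1 d (pw F d) (1 / d) 1 := by
  obtain ⟨χ, hχ, hχ'⟩ := exists_char hd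
  have hd0 : 0 < d := hχ ▸ χ.orderOf_pos
  have hd1 : (1 : ℝ) ≤ d := by exact_mod_cast hd0
  have hdc : (d : ℂ) ≠ 0 := by exact_mod_cast hd0.ne'
  refine ⟨by positivity, by rw [div_le_one (by positivity)]; exact hd1, ?_⟩
  have e1 : pw F d - ((1 / d : ℝ) : ℂ) • ev1 (1 : MulChar F ℂ) =
      ((1 / d : ℝ) : ℂ) • ∑ j ∈ Ico 1 d, ev1 (χ ^ j) := by
    ext x
    simp only [Pi.sub_apply, Pi.smul_apply, smul_eq_mul, Finset.sum_apply]
    by_cases hx : x = 0
    · subst hx; simp [pw, ev1_zero]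
    have hz : ∀ j ∈ Ico 1 d, ev1 (χ ^ j) x = χ x ^ j := by
      intro j hj
      exact MulChar.pow_apply' _ (by have := (mem_Ico.1 hj).1; omega) _
    have hzd : χ x ^ d = 1 := by
      rw [← MulChar.pow_apply' _ hd0.ne', ← hχ, pow_orderOf_eq_one]
      exact ev1_one_of_ne hx
    rw [sum_congr rfl hz, ev1_one_of_ne hx]
    have hs : ∑ j ∈ Ico 1 d, χ x ^ j = ∑ j ∈ range d, χ x ^ j - 1 := by
      rw [range_eq_Ico, sum_eq_sum_Ico_succ_bot hd0]; simp
    rw [hs]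
    by_cases h1 : χ x = 1
    · have : pw F d x = 1 := if_pos ⟨hx, (hχ' x hx).1 h1⟩
      rw [this, h1]
      simp only [one_pow, sum_const, card_range, nsmul_eq_mul, mul_one]
      push_cast
      field_simp
    · have : pw F d x = 0 := if_neg fun h => h1 ((hχ' x hx).2 h.2)
      rw [this, geom_sum_eq h1, hzd]
      simp
  rw [e1]
  have := (Dom.sum (S := ev1 '' {ψ : MulChar F ℂ | ψ ≠ 1 ∧ ψ ^ d = 1}) (Ico 1 d)
    (f := fun j => ev1 (χ ^ j)) (M := fun _ => 1) (by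
      intro j hj
      refine Dom.self ⟨χ ^ j, ⟨?_, ?_⟩, rfl⟩
      · have := mem_Ico.1 hj
        exact pow_ne_one_of_lt_orderOf (by omega) (by omega)
      · rw [← pow_mul, mul_comm, pow_mul, ← hχ, pow_orderOf_eq_one, one_pow])).rsmul
    (c := 1 / d) (by positivity)
  refine this.mono le_rfl (le_of_eq ?_)
  simp only [sum_const, Nat.card_Ico, nsmul_eq_mul, mul_one]
  rw [Nat.cast_sub hd0]
  field_simp
  simp

/-- The centred indicator of `d`-th powers. -/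
noncomputable def pw0 (F : Type*) [Field F] [Fintype F] (d : ℕ) : F → ℂ :=
  pw F d - ((1 / d : ℝ) : ℂ) • ev1 (1 : MulChar F ℂ)

theorem dom_pw0 {d : ℕ} (hd : d ∣ Fintype.card F - 1) :
    Dom (ev1 '' {χ : MulChar F ℂ | χ ≠ 1 ∧ χ ^ d = 1}) (pw0 F d) (1 - 1 / d) := (ex_pw hd).2.2

theorem ex_pw0 {d : ℕ} (hd : d ∣ Fintype.card F - 1) : Ex ev1 d (pw0 F d) 0 1 := by
  refine ⟨le_rfl, zero_le_one, ?_⟩
  have := (dom_pw0 hd).mono le_rfl (show 1 - 1 / (d : ℝ) ≤ 1 - 0 by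
    have : (0 : ℝ) ≤ 1 / d := by positivity
    linarith)
  simpa using this

theorem ex_npw {d : ℕ} (hd : d ∣ Fintype.card F - 1) :
    Ex ev1 d (ev1 1 - pw F d) (1 - 1 / d) (2 * (1 - 1 / d)) := by
  have h := ex_pw hd
  have h1 := h.2.1
  refine ⟨by linarith, by linarith, ?_⟩
  have e : ev1 1 - pw F d - ((1 - 1 / d : ℝ) : ℂ) • ev1 (1 : MulChar F ℂ) = -pw0 F d := by
    ext x
    simp only [pw0, Pi.sub_apply, Pi.smul_apply, smul_eq_mul, Pi.neg_apply]
    push_cast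
    ring
  rw [e]
  exact (dom_pw0 hd).neg.mono le_rfl (le_of_eq (by ring))

/-- The shifted Jacobi sum. -/
noncomputable def jac (χ ψ : MulChar F ℂ) : ℂ := ∑ u : F, χ u * ψ (u + 1)

theorem norm_jac (χ ψ : MulChar F ℂ) : ‖jac χ ψ‖ = ‖jacobiSum χ ψ‖ := by
  have : jac χ ψ = χ (-1) * jacobiSum χ ψ := by
    rw [jac, jacobiSum, mul_sum, ← Equiv.sum_comp (Equiv.neg F)]
    refine sum_congr rfl fun x _ => ?_
    simp only [Equiv.neg_apply]
    rw [← mul_assoc, ← map_mul, neg_one_mul, neg_add_eq_sub]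
  have h1 : ‖χ (-1)‖ = 1 := by
    have : χ (-1) * χ (-1) = 1 := by rw [← map_mul]; simp
    have h2 := congrArg norm this
    rw [norm_mul, norm_one] at h2
    have := norm_nonneg (χ (-1))
    nlinarith
  rw [this, norm_mul, h1, one_mul]

theorem jac_one_one : jac (1 : MulChar F ℂ) 1 = Fintype.card F - 2 := by
  rw [← jacobiSum_one_one (F := F) (R := ℂ), jac, jacobiSum, ← Equiv.sum_comp (Equiv.neg F)]
  refine sum_congr rfl fun x _ => ?_
  simp only [Equiv.neg_apply]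
  rw [neg_add_eq_sub]
  congr 1
  by_cases hx : x = 0
  · subst hx; simp
  · rw [MulChar.one_apply (Ne.isUnit hx), MulChar.one_apply (neg_ne_zero.2 hx).isUnit]

theorem norm_jac_one_left {ψ : MulChar F ℂ} (h : ψ ≠ 1) : ‖jac 1 ψ‖ = 1 := by
  rw [norm_jac, jacobiSum_one_nontrivial h]; simp

theorem norm_jac_one_right {ψ : MulChar F ℂ} (h : ψ ≠ 1) : ‖jac ψ 1‖ = 1 := by
  rw [norm_jac, jacobiSum_comm, jacobiSum_one_nontrivial h]; simp

theorem one_le_sqrt_card : (1 : ℝ) ≤ √(Fintype.card F) := by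
  rw [Real.one_le_sqrt]
  exact_mod_cast Fintype.card_pos

theorem norm_jac_le {χ ψ : MulChar F ℂ} (h : ¬(χ = 1 ∧ ψ = 1)) :
    ‖jac χ ψ‖ ≤ √(Fintype.card F) := by
  by_cases hχ : χ = 1
  · subst hχ
    rw [norm_jac_one_left fun h' => h ⟨rfl, h'⟩]; exact one_le_sqrt_card
  by_cases hψ : ψ = 1
  · subst hψ
    rw [norm_jac_one_right hχ]; exact one_le_sqrt_card
  rw [norm_jac]
  by_cases hχψ : χ * ψ = 1
  · rw [eq_inv_of_mul_eq_one_right hχψ, jacobiSum_nontrivial_inv hχ, norm_neg]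
    have : χ (-1) * χ (-1) = 1 := by rw [← map_mul]; simp
    have h2 := congrArg norm this
    rw [norm_mul, norm_one] at h2
    have h3 := norm_nonneg (χ (-1))
    have h4 : ‖χ (-1)‖ = 1 := by nlinarith
    rw [h4]; exact one_le_sqrt_card
  have hc : ringChar ℂ ≠ ringChar F := by
    rw [ringChar.eq_zero]
    exact (CharP.ringChar_ne_zero_of_finite F).symm
  have h1 := jacobiSum_mul_jacobiSum_inv hc hχ hψ hχψ
  have h2 : jacobiSum χ⁻¹ ψ⁻¹ = star (jacobiSum χ ψ) := by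
    rw [jacobiSum, jacobiSum, star_sum]
    refine sum_congr rfl fun x _ => ?_
    rw [star_mul', MulChar.star_apply', MulChar.star_apply']
  rw [h2] at h1
  have h3 := congrArg norm h1
  rw [norm_mul, norm_star, Complex.norm_natCast] at h3
  apply Real.le_sqrt_of_sq_le
  rw [sq, h3]

end Char

end Pool.Agent.Lib.MP_1a41ac_nt
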