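import Pool.Agent.Lib.MP_1a41ac_nt.Comb
import Pool.Agent.Lib.MP_1a41ac_nt.Dom

/-!
Even `q`: the character sum argument.
-/

namespace Pool.Agent.Lib.MP_1a41ac_nt

open Finset

variable {F : Type*} [Field F] [Fintype F]

/-- A pair of characters as a function of two variables. -/
noncomputable def ev2 (χ : MulChar F ℂ × MulChar F ℂ) : F × F → ℂ := fun z => χ.1 z.1 * χ.2 z.2

omit [Fintype F] in
theorem ev2_mul (χ ψ : MulChar F ℂ × MulChar F ℂ) : ev2 (χ * ψ) = ev2 χ * ev2 ψ := by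
  ext x; simp [ev2]; ring

/-- Pull-back along the second coordinate. -/
noncomputable def pb1 : (F → ℂ) →ₗ[ℂ] (F × F → ℂ) where
  toFun f z := ev1 (1 : MulChar F ℂ) z.1 * f z.2
  map_add' f g := by ext z; simp [mul_add]
  map_smul' c f := by ext z; simp; ring

/-- Pull-back along the quotient. -/
noncomputable def pb2 : (F → ℂ) →ₗ[ℂ] (F × F → ℂ) where
  toFun f z := f (z.1 * z.2⁻¹)
  map_add' f g := by ext z; simp
  map_smul' c f := by ext z; simp

/-- Pull-back along the product. -/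
noncomputable def pb3 : (F → ℂ) →ₗ[ℂ] (F × F → ℂ) where
  toFun f z := f (z.1 * z.2)
  map_add' f g := by ext z; simp
  map_smul' c f := by ext z; simp

/-- The local condition at the prime `l`. -/
noncomputable def phi (F : Type*) [Field F] [Fintype F] (l : ℕ) : F × F → ℂ :=
  pb1 (ev1 1 - pw F l) * pb2 (ev1 1 - pw F l) * pb3 (ev1 1 - pw F l)

theorem ex_phi {l : ℕ} (hl : l.Prime) (h2 : l ≠ 2) (hd : l ∣ Fintype.card F - 1) :
    Ex ev2 l (phi F l) ((1 - 1 / l) * (1 - 2 / l)) ((1 - 1 / l) * (6 - 8 / l)) := by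
  classical
  have hl3 : (3 : ℝ) ≤ l := by
    have := hl.two_le
    exact_mod_cast (show 3 ≤ l by omega)
  have ht : (0 : ℝ) ≤ 1 - 1 / l := by
    rw [sub_nonneg, div_le_one (by linarith)]; linarith
  have ht2 : (0 : ℝ) ≤ 1 - 2 / l := by
    rw [sub_nonneg, div_le_one (by linarith)]; linarith
  have ht3 : (1 : ℝ) - 2 / l ≤ 6 - 8 / l := by
    have : (6 : ℝ) / l ≤ 5 := by rw [div_le_iff₀ (by linarith)]; linarith
    have e : (8 : ℝ) / l = 2 / l + 6 / l := by ring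
    linarith
  refine ⟨mul_nonneg ht ht2, mul_le_mul_of_nonneg_left ht3 ht, ?_⟩
  have hlc : (l : ℂ) ≠ 0 := by exact_mod_cast hl.ne_zero
  have e1 : phi F l - (((1 - 1 / l) * (1 - 2 / l) : ℝ) : ℂ) • ev2 1 =
      -(((1 - 2 / l : ℝ) : ℂ) • (pb1 (pw0 F l) + pb2 (pw0 F l))) + -pb3 (pw0 F l) +
        ((2 : ℝ) : ℂ) • (pb1 (pw0 F l) * pb2 (pw0 F l)) := by
    ext ⟨x, y⟩
    simp only [phi, pb1, pb2, pb3, pw0, ev2, LinearMap.coe_mk, AddHom.coe_mk, Pi.mul_apply,
      Pi.sub_apply, Pi.add_apply, Pi.neg_apply, Pi.smul_apply, smul_eq_mul, Prod.fst_one,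
      Prod.snd_one]
    by_cases hx : x = 0
    · subst hx; simp [pw, ev1_zero, MulChar.map_zero]
    by_cases hy : y = 0
    · subst hy; simp [pw, ev1_zero, MulChar.map_zero]
    have hxy : x * y ≠ 0 := mul_ne_zero hx hy
    have hxy' : x * y⁻¹ ≠ 0 := mul_ne_zero hx (inv_ne_zero hy)
    rw [ev1_one_of_ne hx, ev1_one_of_ne hy, ev1_one_of_ne hxy, ev1_one_of_ne hxy',
      MulChar.one_apply (Ne.isUnit hx), MulChar.one_apply (Ne.isUnit hy)]
    set k := (Fintype.card F - 1) / l with hk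
    have hyl : (y ^ k) ^ l = 1 := by
      rw [← pow_mul, hk, Nat.div_mul_cancel hd, FiniteField.pow_card_sub_one_eq_one _ hy]
    have hyk : y ^ k ≠ 0 := pow_ne_zero _ hy
    have hA : pw F l y = if y ^ k = 1 then 1 else 0 := by simp [pw, hy, hk]
    have hB : pw F l (x * y⁻¹) = if x ^ k = y ^ k then 1 else 0 := by
      simp only [pw, ← hk, hxy', ne_eq, not_false_eq_true, true_and, mul_pow, inv_pow,
        mul_inv_eq_one₀ hyk]
    have hC : pw F l (x * y) = if x ^ k * y ^ k = 1 then 1 else 0 := by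
      simp only [pw, ← hk, hxy, ne_eq, not_false_eq_true, true_and, mul_pow]
    rw [hA, hB, hC]
    push_cast
    by_cases a1 : y ^ k = 1
    · by_cases a2 : x ^ k = 1
      · simp only [a1, a2, mul_one, if_true]; field_simp; ring
      · simp only [a1, a2, mul_one, if_true, if_false]; field_simp; ring
    · by_cases a2 : x ^ k = y ^ k
      · have a3 : ¬(x ^ k * y ^ k = 1) := by
          intro a3
          apply a1
          rw [a2, ← sq] at a3
          have := pow_gcd_eq_one.2 ⟨a3, hyl⟩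
          rwa [((Nat.coprime_primes Nat.prime_two hl).2 h2.symm).gcd_eq_one, pow_one] at this
        rw [if_neg a1, if_pos a2, if_neg a3]; field_simp; ring
      · rw [if_neg a1, if_neg a2]
        split_ifs <;> field_simp <;> ring
  rw [e1]
  have hp := dom_pw0 hd
  have d1 := hp.map (T := ev2 '' {χ : MulChar F ℂ × MulChar F ℂ | χ.1 = 1 ∧ χ.2 ≠ 1 ∧ χ ^ l = 1})
    pb1 (by
      rintro _ ⟨χ, ⟨h1, h3⟩, rfl⟩
      exact ⟨(1, χ), ⟨rfl, h1, by simp [h3]⟩, rfl⟩)
  have d2 := hp.map (T := ev2 '' {χ : MulChar F ℂ × MulChar F ℂ | χ.1 ≠ 1 ∧ χ ^ l = 1})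
    pb2 (by
      rintro _ ⟨χ, ⟨h1, h3⟩, rfl⟩
      refine ⟨(χ, χ⁻¹), ⟨h1, by simp [h3]⟩, ?_⟩
      ext z
      simp [ev2, pb2, ev1, MulChar.inv_apply'])
  have d3 := hp.map (T := ev2 '' {χ : MulChar F ℂ × MulChar F ℂ | χ ≠ 1 ∧ χ ^ l = 1})
    pb3 (by
      rintro _ ⟨χ, ⟨h1, h3⟩, rfl⟩
      refine ⟨(χ, χ), ⟨fun h => h1 (congrArg Prod.fst h), by simp [h3]⟩, ?_⟩
      ext z
      simp [ev2, pb3, ev1])
  have d12 := d1.mul (U := ev2 '' {χ : MulChar F ℂ × MulChar F ℂ | χ ≠ 1 ∧ χ ^ l = 1}) d2 ht (by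
    rintro _ ⟨χ, ⟨h1, h3, h4⟩, rfl⟩ _ ⟨ψ, ⟨h5, h6⟩, rfl⟩
    refine ⟨χ * ψ, ⟨fun h => h5 ?_, by rw [mul_pow, h4, h6, mul_one]⟩, ev2_mul _ _⟩
    have := congrArg Prod.fst h
    simpa [h1] using this)
  have d1' := d1.mono (T := ev2 '' {χ : MulChar F ℂ × MulChar F ℂ | χ ≠ 1 ∧ χ ^ l = 1})
    (Set.image_mono fun χ h => ⟨fun h' => h.2.1 (congrArg Prod.snd h'), h.2.2⟩) le_rfl
  have d2' := d2.mono (T := ev2 '' {χ : MulChar F ℂ × MulChar F ℂ | χ ≠ 1 ∧ χ ^ l = 1})
    (Set.image_mono fun χ h => ⟨fun h' => h.1 (congrArg Prod.fst h'), h.2⟩) le_rfl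
  exact ((((d1'.add d2').rsmul ht2).neg.add d3.neg).add (d12.rsmul zero_le_two)).mono le_rfl
    (le_of_eq (by ring))

theorem orderOf_eq_of_pw {x : F} (hx : x ≠ 0)
    (h : ∀ l ∈ (Fintype.card F - 1).primeFactors, pw F l x ≠ 1) :
    orderOf x = Fintype.card F - 1 := by
  have hn : 0 < Fintype.card F - 1 := by have := Fintype.one_lt_card (α := F); omega
  refine orderOf_eq_of_pow_and_pow_div_prime hn (FiniteField.pow_card_sub_one_eq_one _ hx) ?_
  intro p hp hpn h1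
  exact h p (Nat.mem_primeFactors.2 ⟨hp, hpn, hn.ne'⟩) (if_pos ⟨hx, h1⟩)

/-- The sum along the line `y = x + 1`. -/
noncomputable def lineSum : (F × F → ℂ) →ₗ[ℂ] ℂ where
  toFun f := ∑ a : F, f (a, a + 1)
  map_add' f g := by simp [sum_add_distrib]
  map_smul' c f := by simp [mul_sum]

theorem concl_even_of_ineq (m : ℕ) (hn : Fintype.card F = 2 * m + 1 + 1) (h2 : (2 : F) = 0)
    (hm : 0 < m)
    (hineq : (∏ l ∈ (2 * m + 1).primeFactors, ((6 * l - 8) / (l - 2) : ℝ)) * √(Fintype.card F) <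
      Fintype.card F - 2) : Concl F := by
  have hn' : Fintype.card F - 1 = 2 * m + 1 := by omega
  set E := (2 * m + 1).primeFactors with hE
  have hEp : ∀ l ∈ E, l.Prime := fun l hl => Nat.prime_of_mem_primeFactors hl
  have hE2 : ∀ l ∈ E, l ≠ 2 := by
    rintro l hl rfl
    have := Nat.dvd_of_mem_primeFactors hl
    omega
  have hE3 : ∀ l ∈ E, (3 : ℝ) ≤ l := by
    intro l hl
    have := (hEp l hl).two_le
    have := hE2 l hl
    exact_mod_cast (show 3 ≤ l by omega)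
  have hex := Ex.prod (ev := ev2 (F := F)) ev2_mul E hEp (f := phi F) (fun l hl =>
    ex_phi (hEp l hl) (hE2 l hl) (hn' ▸ Nat.dvd_of_mem_primeFactors hl))
  obtain ⟨h0, h1, h3⟩ := hex
  set c : ℝ := ∏ l ∈ E, (1 - 1 / (l : ℝ)) * (1 - 2 / l) with hc
  set T : ℝ := ∏ l ∈ E, (1 - 1 / (l : ℝ)) * (6 - 8 / l) with hT
  have hcpos : 0 < c := by
    refine prod_pos fun l hl => mul_pos ?_ ?_
    · have := hE3 l hl
      rw [sub_pos, div_lt_one (by linarith)]; linarith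
    · have := hE3 l hl
      rw [sub_pos, div_lt_one (by linarith)]; linarith
  have hTc : T = c * ∏ l ∈ E, ((6 * l - 8) / (l - 2) : ℝ) := by
    rw [hc, hT, ← prod_mul_distrib]
    refine prod_congr rfl fun l hl => ?_
    have := hE3 l hl
    have h4 : (l : ℝ) ≠ 0 := by linarith
    have h5 : (l : ℝ) - 2 ≠ 0 := by linarith
    field_simp
  have hb := h3 lineSum (√(Fintype.card F)) (Real.sqrt_nonneg _) (by
    rintro _ ⟨χ, ⟨hχ, _⟩, rfl⟩
    exact norm_jac_le (χ := χ.1) (ψ := χ.2) fun h => hχ (Prod.ext h.1 h.2))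
  by_contra hcon
  have hz : lineSum (ev2 (F := F) 1 * ∏ l ∈ E, phi F l) = 0 := by
    refine sum_eq_zero fun a _ => ?_
    by_contra hne
    rw [Pi.mul_apply, Finset.prod_apply, ← ne_eq, mul_ne_zero_iff, prod_ne_zero_iff] at hne
    obtain ⟨h4, h5⟩ := hne
    have ha : a ≠ 0 := by rintro rfl; simp [ev2, MulChar.map_zero] at h4
    have ha1 : a + 1 ≠ 0 := by intro h; simp [ev2, h, MulChar.map_zero] at h4
    have hq : a * (a + 1)⁻¹ ≠ 0 := mul_ne_zero ha (inv_ne_zero ha1)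
    have hp : a * (a + 1) ≠ 0 := mul_ne_zero ha ha1
    have key : ∀ l ∈ (Fintype.card F - 1).primeFactors,
        pw F l (a + 1) ≠ 1 ∧ pw F l (a * (a + 1)⁻¹) ≠ 1 ∧ pw F l (a * (a + 1)) ≠ 1 := by
      intro l hl
      have := h5 l (by rw [hE, ← hn']; exact hl)
      simp only [phi, pb1, pb2, pb3, LinearMap.coe_mk, AddHom.coe_mk, Pi.mul_apply, Pi.sub_apply,
        ev1_one_of_ne ha, ev1_one_of_ne ha1, ev1_one_of_ne hq, ev1_one_of_ne hp, ne_eq,
        mul_eq_zero, not_or, sub_eq_zero] at this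
      exact ⟨fun h => this.1.1.2 h.symm, fun h => this.1.2 h.symm, fun h => this.2 h.symm⟩
    apply hcon
    refine concl_even m hn h2 a (a + 1)⁻¹ (by rw [add_comm]; exact mul_inv_cancel₀ ha1) hm ?_ ?_ ?_
    · rw [add_comm, ← hn']; exact orderOf_eq_of_pw ha1 fun l hl => (key l hl).1
    · rw [← hn']; exact orderOf_eq_of_pw hq fun l hl => (key l hl).2.1
    · rw [add_comm, ← hn']; exact orderOf_eq_of_pw hp fun l hl => (key l hl).2.2
  have hone : lineSum (ev2 (F := F) 1) = Fintype.card F - 2 := jac_one_one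
  rw [map_sub, map_smul, hz, hone, zero_sub, norm_neg, norm_smul, Complex.norm_real,
    Real.norm_of_nonneg h0] at hb
  have hq2 : (0 : ℝ) ≤ (Fintype.card F : ℝ) - 2 := by
    have : (2 : ℝ) ≤ Fintype.card F := by exact_mod_cast Fintype.one_lt_card (α := F)
    linarith
  have hnorm : ‖(Fintype.card F : ℂ) - 2‖ = (Fintype.card F : ℝ) - 2 := by
    rw [← Real.norm_of_nonneg hq2, ← Complex.norm_real]; push_cast; rfl
  rw [hnorm, hTc] at hb
  have := mul_lt_mul_of_pos_left hineq hcpos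
  have h6 := mul_nonneg h0 (Real.sqrt_nonneg (Fintype.card F : ℝ))
  nlinarith

end Pool.Agent.Lib.MP_1a41ac_nt
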