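import Pool.Agent.Lib.MP_1a41ac_nt.Check

/-!
Even `q`: numerical verification of the character sum inequality.
-/

namespace Pool.Agent.Lib.MP_1a41ac_nt

open Finset

/-- The odd primes below `128`. -/
def L128 : List ℕ := [3, 5, 7, 11, 13, 17, 19, 23, 29, 31, 37, 41, 43, 47, 53, 59, 61, 67, 71, 73,
  79, 83, 89, 97, 101, 103, 107, 109, 113, 127]

theorem mem_L128 {t : ℕ} (ht : t.Prime) (h2 : t ≠ 2) (h : t < 128) : t ∈ L128 := by
  interval_cases t <;> first | decide | omega | (exfalso; norm_num at ht)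

theorem L128_bounds : ∀ t ∈ L128, 3 ≤ t ∧ t < 128 := by decide

theorem L128_nodup : L128.Nodup := by decide

theorem card_large {n g : ℕ} (hn : 0 < n) (hg : g ∣ n) (hg' : ∀ t, t.Prime → t ∣ g → t < 128) :
    128 ^ (Finset.card (n.primeFactors.filter (128 ≤ ·))) ≤ n / g := by
  have h1 : ∏ p ∈ n.primeFactors.filter (128 ≤ ·), p ∣ n :=
    (prod_dvd_prod_of_subset _ _ _ (filter_subset _ _)).trans (Nat.prod_primeFactors_dvd n)
  have h2 : (∏ p ∈ n.primeFactors.filter (128 ≤ ·), p).Coprime g := by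
    refine Nat.Coprime.prod_left fun p hp => ?_
    have hp' := Nat.prime_of_mem_primeFactors (mem_filter.1 hp).1
    refine (Nat.Prime.coprime_iff_not_dvd hp').2 fun h => ?_
    have := hg' p hp' h
    have := (mem_filter.1 hp).2
    omega
  have h3 : ∏ p ∈ n.primeFactors.filter (128 ≤ ·), p ∣ n / g := by
    refine h2.dvd_of_dvd_mul_right ?_
    rwa [Nat.div_mul_cancel hg]
  refine le_trans ?_ (Nat.le_of_dvd (Nat.div_pos (Nat.le_of_dvd hn hg) (Nat.pos_of_dvd_of_pos hg hn))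
    h3)
  exact pow_card_le_prod _ _ _ fun p hp => (mem_filter.1 hp).2

variable {F : Type*} [Field F] [Fintype F]

theorem concl_even_of_nat (m : ℕ) (hn : Fintype.card F = 2 * m + 1 + 1) (h2 : (2 : F) = 0)
    (hm : 0 < m) (l : List ℕ) (hl1 : l.Nodup) (hl2 : ∀ t ∈ l, 3 ≤ t)
    (hl3 : ∀ t, t.Prime → t ∣ 2 * m + 1 → t < 128 → t ∈ l) (j : ℕ)
    (hj : (Finset.card ((2 * m + 1).primeFactors.filter (128 ≤ ·))) ≤ j)
    (h : ((l.map fun t => 6 * t - 8).prod * 380 ^ j) ^ 2 * (2 * m + 1 + 1) <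
      ((l.map fun t => t - 2).prod * 63 ^ j * (2 * m)) ^ 2) : Concl F := by
  refine concl_even_of_ineq m hn h2 hm ?_
  set ρ : ℕ → ℝ := fun t => (6 * t - 8) / (t - 2) with hρ
  have hρ1 : ∀ t : ℕ, 3 ≤ t → 1 ≤ ρ t := by
    intro t ht
    have : (3 : ℝ) ≤ t := by exact_mod_cast ht
    rw [hρ, one_le_div (by linarith)]; linarith
  have hP3 : ∀ t ∈ (2 * m + 1).primeFactors, 3 ≤ t := by
    intro t ht
    have a1 := (Nat.prime_of_mem_primeFactors ht).two_le
    have a2 := Nat.dvd_of_mem_primeFactors ht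
    have : t ≠ 2 := by rintro rfl; omega
    omega
  have b1 : ∏ t ∈ (2 * m + 1).primeFactors.filter (128 ≤ ·), ρ t ≤ (380 / 63) ^ j := by
    refine le_trans (prod_le_prod (g := fun _ => (380 / 63 : ℝ)) (fun t ht => ?_) fun t ht => ?_) ?_
    · exact zero_le_one.trans (hρ1 t (hP3 t (mem_filter.1 ht).1))
    · have : (128 : ℝ) ≤ t := by exact_mod_cast (mem_filter.1 ht).2
      rw [hρ, div_le_div_iff₀ (by linarith) (by norm_num)]; linarith
    · rw [prod_const]
      exact pow_le_pow_right₀ (by norm_num) hj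
  have b2 : ∏ t ∈ (2 * m + 1).primeFactors.filter (fun t => ¬128 ≤ t), ρ t ≤
      ∏ t ∈ l.toFinset, ρ t := by
    refine prod_le_prod_of_subset_of_one_le (fun t ht => ?_) (fun t ht => ?_) fun t ht _ => ?_
    · obtain ⟨a1, a2⟩ := mem_filter.1 ht
      exact List.mem_toFinset.2 (hl3 t (Nat.prime_of_mem_primeFactors a1)
        (Nat.dvd_of_mem_primeFactors a1) (by omega))
    · exact zero_le_one.trans (hρ1 t (hP3 t (mem_filter.1 ht).1))
    · exact hρ1 t (hl2 t (List.mem_toFinset.1 ht))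
  set A := (l.map fun t => 6 * t - 8).prod with hA
  set B := (l.map fun t => t - 2).prod with hB
  have hBpos : 0 < B := by
    rw [hB, ← List.prod_toFinset _ hl1]
    exact prod_pos fun t ht => by have := hl2 t (List.mem_toFinset.1 ht); omega
  have b3 : ∏ t ∈ l.toFinset, ρ t = A / B := by
    rw [hA, hB, ← List.prod_toFinset _ hl1, ← List.prod_toFinset _ hl1, Nat.cast_prod,
      Nat.cast_prod, ← prod_div_distrib]
    refine prod_congr rfl fun t ht => ?_
    have := hl2 t (List.mem_toFinset.1 ht)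
    rw [Nat.cast_sub (by omega), Nat.cast_sub (by omega)]
    simp [hρ]
  have b4 : ∏ t ∈ (2 * m + 1).primeFactors, ρ t ≤ (380 / 63) ^ j * (A / B) := by
    rw [← prod_filter_mul_prod_filter_not _ (128 ≤ ·), ← b3]
    exact mul_le_mul b1 b2 (prod_nonneg fun t ht =>
      zero_le_one.trans (hρ1 t (hP3 t (mem_filter.1 ht).1))) (by positivity)
  refine (mul_le_mul_of_nonneg_right b4 (Real.sqrt_nonneg _)).trans_lt ?_
  have hB' : (0 : ℝ) < B := by exact_mod_cast hBpos
  have h' : ((A : ℝ) * 380 ^ j) ^ 2 * (Fintype.card F) < (B * 63 ^ j * (2 * m)) ^ 2 := by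
    rw [hn]; exact_mod_cast h
  have e : (Fintype.card F : ℝ) - 2 = 2 * m := by rw [hn]; push_cast; ring
  rw [e]
  have h3 : (A : ℝ) * 380 ^ j * √(Fintype.card F) < B * 63 ^ j * (2 * m) := by
    refine lt_of_pow_lt_pow_left₀ 2 (by positivity) ?_
    rwa [mul_pow, Real.sq_sqrt (Nat.cast_nonneg _)]
  rw [div_pow, div_mul_div_comm, div_mul_eq_mul_div, div_lt_iff₀ (by positivity)]
  linarith

/-- The inequality test for `q = 2 ^ a`. -/
noncomputable def evenChk (a : ℕ) : Bool :=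
  force (2 ^ a - 1) fun n => force (Nat.log2 (n / Nat.gcd n (L128.prod ^ 8)) / 7) fun j =>
    Nat.blt ((((L128.filter fun t => Nat.beq (n % t) 0).map fun t => 6 * t - 8).prod * 380 ^ j) ^ 2
      * (n + 1))
      ((((L128.filter fun t => Nat.beq (n % t) 0).map fun t => t - 2).prod * 63 ^ j * (n - 1)) ^ 2)

theorem exists_m {a : ℕ} (ha : 2 ≤ a) : ∃ m, 0 < m ∧ 2 ^ a = 2 * m + 1 + 1 := by
  obtain ⟨j, rfl⟩ : ∃ j, a = j + 2 := ⟨a - 2, by omega⟩
  have := Nat.one_le_two_pow (n := j)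
  exact ⟨2 * 2 ^ j - 1, by omega, by rw [pow_add]; omega⟩

theorem evenChk_sound {a : ℕ} (ha : 2 ≤ a) (hp : (2 : F) = 0) (hq : Fintype.card F = 2 ^ a)
    (h : evenChk a = true) : Concl F := by
  obtain ⟨m, hm, hn⟩ := exists_m ha
  rw [evenChk, force_eq, force_eq, Nat.blt_eq, show 2 ^ a - 1 = 2 * m + 1 by omega] at h
  refine concl_even_of_nat m (hq.trans hn) hp hm _ (L128_nodup.filter _)
    (fun t ht => (L128_bounds t (List.mem_filter.1 ht).1).1) (fun t ht htn h128 => ?_) _ ?_ h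
  · refine List.mem_filter.2 ⟨mem_L128 ht ?_ h128, beq_true (Nat.mod_eq_zero_of_dvd htn)⟩
    rintro rfl; omega
  · have h1 := card_large (n := 2 * m + 1) (by omega) (Nat.gcd_dvd_left _ (L128.prod ^ 8))
      (fun t ht htg => by
        obtain ⟨s, hs, hts⟩ := (Prime.dvd_prod_iff ht.prime).1
          (ht.dvd_of_dvd_pow (htg.trans (Nat.gcd_dvd_right _ _)))
        have := L128_bounds s hs
        exact (Nat.le_of_dvd (by omega) hts).trans_lt this.2)
    rw [Nat.le_div_iff_mul_le (by norm_num), Nat.le_log2 (by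
      have : 0 < 128 ^ (Finset.card ((2 * m + 1).primeFactors.filter (128 ≤ ·))) := by positivity
      omega), mul_comm, pow_mul]
    exact h1

theorem even_large {a : ℕ} (ha : 700 ≤ a) (hp : (2 : F) = 0) (hq : Fintype.card F = 2 ^ a) :
    Concl F := by
  obtain ⟨m, hm, hn⟩ := exists_m (a := a) (by omega)
  have key : ∀ j, 100 ≤ j → 4 * ((L128.map fun t => 6 * t - 8).prod * 380 ^ j) ^ 2 <
      ((L128.map fun t => t - 2).prod * 63 ^ j) ^ 2 * 128 ^ j := by
    intro j hj
    induction j, hj using Nat.le_induction with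
    | base => decide +kernel
    | succ j _ ih =>
      generalize (L128.map fun t => 6 * t - 8).prod = A at ih ⊢
      generalize (L128.map fun t => t - 2).prod = B at ih ⊢
      have e1 : 4 * (A * 380 ^ (j + 1)) ^ 2 = 144400 * (4 * (A * 380 ^ j) ^ 2) := by ring
      have e2 : (B * 63 ^ (j + 1)) ^ 2 * 128 ^ (j + 1) = 508032 * ((B * 63 ^ j) ^ 2 * 128 ^ j) := by
        ring
      rw [e1, e2]
      omega
  refine concl_even_of_nat m (hq.trans hn) hp hm L128 L128_nodup (fun t ht => (L128_bounds t ht).1)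
    (fun t ht htn h128 => mem_L128 ht (by rintro rfl; omega) h128) (a / 7) ?_ ?_
  · have h1 := card_large (n := 2 * m + 1) (g := 1) (by omega) (one_dvd _)
      (fun t ht htg => by have := Nat.le_of_dvd one_pos htg; omega)
    rw [Nat.le_div_iff_mul_le (by norm_num)]
    have h2 : 2 ^ ((Finset.card ((2 * m + 1).primeFactors.filter (128 ≤ ·))) * 7) < 2 ^ a := by
      rw [mul_comm, pow_mul, show 2 ^ 7 = 128 by norm_num]
      omega
    exact ((Nat.pow_lt_pow_iff_right one_lt_two).1 h2).le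
  · have h1 := key (a / 7) (by omega)
    have h2 : 128 ^ (a / 7) ≤ 2 * m + 1 + 1 := by
      rw [← hn, show 128 = 2 ^ 7 by norm_num, ← pow_mul]
      exact Nat.pow_le_pow_right two_pos (by omega)
    generalize ((L128.map fun t => 6 * t - 8).prod * 380 ^ (a / 7)) ^ 2 = X at h1 ⊢
    rw [mul_pow]
    generalize ((L128.map fun t => t - 2).prod * 63 ^ (a / 7)) ^ 2 = Y at h1 ⊢
    have h3 : 4 * X < Y * (2 * m + 1 + 1) := h1.trans_le (Nat.mul_le_mul_left _ h2)
    have h4 : (2 * m + 1 + 1) ^ 2 ≤ 4 * (2 * m) ^ 2 := by nlinarith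
    have h5 := Nat.mul_le_mul_left Y h4
    have h6 := Nat.mul_lt_mul_of_lt_of_le h3 (le_refl (2 * m + 1 + 1)) (by omega)
    nlinarith

end Pool.Agent.Lib.MP_1a41ac_nt
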