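import Pool.Agent.Lib.MP_1a41ac_nt.DataA
import Pool.Agent.Lib.MP_1a41ac_nt.DataB
import Pool.Agent.Lib.MP_1a41ac_nt.DataC
import Pool.Agent.Lib.MP_1a41ac_nt.DataD
import Pool.Agent.Lib.MP_1a41ac_nt.DataE
import Pool.Agent.Lib.MP_1a41ac_nt.DataQ

/-!
Assembly of all the cases.
-/

namespace Pool.Agent.Lib.MP_1a41ac_nt

variable {F : Type*} [Field F] [Fintype F]

/-- The cycle of exponents for `q = 13`. -/
def e13 (i : ℕ) : ℕ := [0, 5, 7, 10, 2, 3, 6, 11, 1, 4, 8, 9].getD i 0

/-- The cycle of exponents for `q = 25`. -/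
def e25 (i : ℕ) : ℕ :=
  [0, 3, 1, 2, 12, 15, 13, 14, 5, 22, 6, 21, 7, 20, 8, 19, 9, 18, 10, 17, 11, 16, 23, 4].getD i 0

theorem two_three {t m : ℕ} (ht : t.Prime) (hm : m ∣ 24) (h : t ∣ m) : t ∈ [2, 3] := by
  have h1 := h.trans hm
  have h2 := Nat.le_of_dvd (by norm_num) h1
  interval_cases t <;> first | decide | omega | (exfalso; norm_num at ht)

theorem concl_13 (hq : Fintype.card F = 13) : Concl F := by
  have : Fact (Nat.Prime 13) := ⟨by norm_num⟩
  have : CharP F 13 := charP_of_card_eq_prime hq
  have hl : ∀ t, t.Prime → t ∣ 12 → t ∈ [2, 3] := fun t ht h => two_three ht (by norm_num) h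
  have h2 := ordP_sound (F := F) (q := 13) (x := 2) (by norm_num) (by norm_num) hl
    (by decide +kernel)
  refine concl_exp 12 hq 1 ((2 : ℕ) : F) one_ne_zero h2 (by norm_num) e13 (by decide +kernel)
    (by decide +kernel) rfl fun i hi => ?_
  have h3 : ∀ i < 12, ordP 13 [2, 3] 12 (2 ^ (e13 i + e13 (i + 1)) + 1) = true := by
    decide +kernel
  have := ordP_sound (F := F) (by norm_num) (by norm_num) hl (h3 i hi)
  rw [← this]
  congr 1
  simp

theorem chk_25 : withPar 5 1 2 (2 + 2 ^ 128 * 2) (fun P => P.ordK 24 [2, 3] 24 (2 ^ 128) &&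
    (List.range 24).all fun i => P.powK (2 ^ 128) (e25 i + e25 (i + 1)) fun Z =>
      P.ordK 24 [2, 3] 24 (Nat.add Z 1)) = true := by
  decide +kernel

theorem concl_25 (hp : ((5 : ℕ) : F) = 0) (hq : Fintype.card F = 5 ^ 2) : Concl F := by
  obtain ⟨α, P, hP, -, ha, h⟩ := withPar_sound hp hq chk_25
  rw [Bool.and_eq_true, List.all_eq_true] at h
  have hl : ∀ t, t.Prime → t ∣ 24 → t ∈ [2, 3] := fun t ht h => two_three ht dvd_rfl h
  have hg := Rep.gen (α := α) (c := 2047) (k := 2) (by norm_num) (by norm_num)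
  have hone : Rep α 1024 2 1 1 := by
    simpa using Rep.const (α := α) (c := 1024) (d := 1) (by norm_num) hP.ha1
  have h1 := P.ordK_sound hP (by norm_num) (by norm_num) hl hg h.1
  refine concl_exp 24 hq 1 α one_ne_zero h1 (by norm_num) e25 (by decide +kernel)
    (by decide +kernel) rfl fun i hi => ?_
  obtain ⟨Z, hZ, h2⟩ := P.powK_sound hP hg (h.2 i (List.mem_range.2 hi))
  have := P.ordK_sound hP (by norm_num) (by norm_num) hl (hZ.add hone) h2
  rwa [one_pow, one_mul]

theorem concl_char_two {a : ℕ} (hp : (2 : F) = 0) (hq : Fintype.card F = 2 ^ a) (ha : 3 ≤ a) :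
    Concl F := by
  by_cases h7 : 700 ≤ a
  · exact even_large h7 hp hq
  have h1 := coverE (k := a / 25) (by omega)
  rw [covE, List.all_eq_true] at h1
  have h2 := h1 a (List.mem_range'_1.2 (by omega))
  simp only [Bool.or_eq_true, Nat.blt_eq, List.any_eq_true, Nat.beq_eq] at h2
  rcases h2 with (h2 | ⟨e, he, rfl⟩) | h2
  · omega
  · have h3 := tabE_ok e he
    rw [ckE, force_eq, force_eq, force_eq] at h3
    exact chkE_sound hp hq h3
  · exact evenChk_sound (by omega) hp hq h2

theorem concl_prime [Fact (Fintype.card F).Prime] (h7 : 7 < Fintype.card F)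
    (hodd : Fintype.card F % 2 = 1) (hlt : Fintype.card F < 309136) : Concl F := by
  by_cases h13 : Fintype.card F = 13
  · exact concl_13 h13
  by_cases h : Fintype.card F < 13
  · exact loopP_sound (D := 3) (by decide +kernel) (by omega) _ _ _ rfl hodd (by omega) (by omega)
      loop_9
  by_cases h : Fintype.card F < 25
  · exact loopP_sound (D := 5) (by decide +kernel) (by omega) _ _ _ rfl hodd (by omega) (by omega)
      loop_15
  by_cases h : Fintype.card F < 577
  · exact loopP_sound (D := 24) (by decide +kernel) (by omega) _ _ _ rfl hodd (by omega) (by omega)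
      loop_25
  by_cases h : Fintype.card F < 40001
  · exact loopP_sound (D := 556) (by decide +kernel) (by omega) _ _ _ rfl hodd (by omega)
      (by omega) loop_577
  by_cases h : Fintype.card F < 80001
  · exact loopP_sound (D := 556) (by decide +kernel) (by omega) _ _ _ rfl hodd (by omega)
      (by omega) loop_40001
  by_cases h : Fintype.card F < 120001
  · exact loopP_sound (D := 556) (by decide +kernel) (by omega) _ _ _ rfl hodd (by omega)
      (by omega) loop_80001
  by_cases h : Fintype.card F < 160001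
  · exact loopP_sound (D := 556) (by decide +kernel) (by omega) _ _ _ rfl hodd (by omega)
      (by omega) loop_120001
  by_cases h : Fintype.card F < 200001
  · exact loopP_sound (D := 556) (by decide +kernel) (by omega) _ _ _ rfl hodd (by omega)
      (by omega) loop_160001
  by_cases h : Fintype.card F < 240001
  · exact loopP_sound (D := 556) (by decide +kernel) (by omega) _ _ _ rfl hodd (by omega)
      (by omega) loop_200001
  by_cases h : Fintype.card F < 270001
  · exact loopP_sound (D := 556) (by decide +kernel) (by omega) _ _ _ rfl hodd (by omega)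
      (by omega) loop_240001
  · exact loopP_sound (D := 556) (by decide +kernel) (by omega) _ _ _ rfl hodd (by omega)
      (by omega) loop_270001

theorem concl_prime_pow {p a m : ℕ} (hp : p.Prime) (hp2 : p ≠ 2) (hpF : (p : F) = 0)
    (hq : Fintype.card F = p ^ a) (ha : 2 ≤ a) (hn : Fintype.card F = 2 * m + 1)
    (hlt : Fintype.card F < 309136) : Concl F := by
  have hp3 : 3 ≤ p := by have := hp.two_le; omega
  have hm : 0 < m := by have := Fintype.one_lt_card (α := F); omega
  have h1 : p < 556 := by
    by_contra h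
    have := (Nat.pow_le_pow_left (not_lt.1 h) 2).trans (Nat.pow_le_pow_right (by omega) ha)
    omega
  have h2 : a < 12 := by
    by_contra h
    have := (Nat.pow_le_pow_right (show 0 < 3 by norm_num) (not_lt.1 h)).trans
      (Nat.pow_le_pow_left hp3 a)
    omega
  have h3 := coverQ
  rw [List.all_eq_true] at h3
  have h4 := h3 p (List.mem_range.2 h1)
  rw [List.all_eq_true] at h4
  have h5 := h4 a (List.mem_range.2 h2)
  simp only [Bool.or_eq_true, Nat.blt_eq, Nat.ble_eq, List.any_eq_true, Nat.beq_eq,
    Bool.and_eq_true, Bool.not_eq_true'] at h5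
  rcases h5 with (((((((((h5 | h5) | h5) | h5) | h5) | h5) | h5) | h5) | h5) | h5) | h5
  · omega
  · omega
  · omega
  · exact absurd (hp.eq_two_or_odd.resolve_left hp2) (by omega)
  · exfalso
    have h6 : Nat.gcd p 223092870 = 1 := by
      refine (Nat.Prime.coprime_iff_not_dvd hp).2 fun h3 => ?_
      have := (Nat.Prime.dvd_factorial hp).1
        (h3.trans (show 223092870 ∣ Nat.factorial 24 by decide +kernel))
      omega
    rw [beq_true h6] at h5
    exact absurd h5.2 (by simp)
  · subst h5; norm_num at hp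
  · subst h5; norm_num at hp
  · subst h5; norm_num at hp
  · have h6 : p = 5 := by
      have : p ∣ 5 ^ 2 := by rw [show 5 ^ 2 = p ^ a from h5.symm]; exact dvd_pow_self p (by omega)
      exact (Nat.prime_dvd_prime_iff_eq hp Nat.prime_five).1 (hp.dvd_of_dvd_pow this)
    subst h6
    exact concl_25 hpF (hq.trans h5)
  · obtain ⟨e, he, rfl, rfl⟩ := h5
    have h6 := tabQ_ok
    rw [List.all_eq_true] at h6
    have h7 := h6 e he
    rw [force_eq, force_eq, force_eq] at h7
    exact chkQ_sound hpF hq hm hn h7
  · obtain ⟨l, hl, h6⟩ := facE_sound h5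
    rw [← hq, hn] at hl h6
    exact concl_odd_thr m hn hm l hl (Nat.le_of_ble_eq_true h6)

theorem concl_all (h7 : 7 < Fintype.card F) : Concl F := by
  obtain ⟨⟨a, ha⟩, hp, hq⟩ := FiniteField.card F (ringChar F)
  have hpF : ((ringChar F : ℕ) : F) = 0 := ringChar.Nat.cast_ringChar
  generalize ringChar F = p at hp hq hpF
  replace hq : Fintype.card F = p ^ a := hq
  by_cases hp2 : p = 2
  · subst hp2
    refine concl_char_two (by exact_mod_cast hpF) hq ?_
    by_contra h
    have := Nat.pow_le_pow_right (show 0 < 2 by norm_num) (show a ≤ 2 by omega)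
    omega
  have hodd : Fintype.card F % 2 = 1 := by
    rw [hq]; exact Nat.odd_iff.1 (hp.odd_of_ne_two hp2).pow
  obtain ⟨m, hn⟩ : ∃ m, Fintype.card F = 2 * m + 1 := ⟨Fintype.card F / 2, by omega⟩
  by_cases hlt : Fintype.card F < 309136
  · by_cases ha1 : a = 1
    · subst ha1
      have : Fact (Fintype.card F).Prime := ⟨by rwa [hq, pow_one]⟩
      exact concl_prime h7 hodd hlt
    · exact concl_prime_pow hp hp2 hpF hq (by omega) hn hlt
  · exact concl_odd_large m hn (by omega)

end Pool.Agent.Lib.MP_1a41ac_nt
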