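import Pool.Agent.Lib.MP_1a41ac_nt.Even

/-!
Odd `q`: the character sum argument with a sieve.
-/

namespace Pool.Agent.Lib.MP_1a41ac_nt

open Finset

variable {F : Type*} [Field F] [Fintype F]

/-- Half the difference of the trivial character and `η`. -/
noncomputable def nu (η : MulChar F ℂ) : F → ℂ := ((1 / 2 : ℝ) : ℂ) • (ev1 1 - ev1 η)

/-- Twisted sum of a shifted function over the support of `nu η`. -/
noncomputable def hat (η χ : MulChar F ℂ) : (F → ℂ) →ₗ[ℂ] ℂ where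
  toFun G := ∑ u : F, nu η u * G (u + 1) * χ u
  map_add' f g := by simp [mul_add, add_mul, sum_add_distrib]
  map_smul' c f := by
    simp only [Pi.smul_apply, smul_eq_mul, RingHom.id_apply, mul_sum]
    exact sum_congr rfl fun u _ => by ring

theorem hat_ev (η χ ψ : MulChar F ℂ) :
    hat η χ (ev1 ψ) = (1 / 2) * (jac χ ψ - jac (η * χ) ψ) := by
  simp only [hat, LinearMap.coe_mk, AddHom.coe_mk, jac, ← sum_sub_distrib, mul_sum]
  refine sum_congr rfl fun u _ => ?_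
  have : (1 : MulChar F ℂ) u * χ u = χ u := by rw [← MulChar.mul_apply, one_mul]
  simp only [nu, ev1, Pi.smul_apply, Pi.sub_apply, smul_eq_mul, MulChar.mul_apply]
  push_cast
  linear_combination (1 / 2 * ψ (u + 1)) * this

theorem hat_one_bound {η : MulChar F ℂ} (hη : η ≠ 1) {d : ℕ} {G : F → ℂ} {c T : ℝ}
    (h : Ex ev1 d G c T) :
    ‖hat η 1 G - ((c * ((Fintype.card F - 2) / 2) : ℝ) : ℂ)‖ ≤
      T * ((√(Fintype.card F) + 1) / 2) := by
  obtain ⟨h0, h1, h2⟩ := h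
  have hy := one_le_sqrt_card (F := F)
  have hb := h2 (hat η 1) ((√(Fintype.card F) + 1) / 2) (by positivity) (by
    rintro _ ⟨ψ, ⟨hψ, _⟩, rfl⟩
    rw [hat_ev, norm_mul, mul_one]
    have a1 := norm_jac_one_left hψ
    have a2 : ‖jac η ψ‖ ≤ √(Fintype.card F) := norm_jac_le fun h => hη h.1
    have a3 := norm_sub_le (jac 1 ψ) (jac η ψ)
    have : ‖(1 / 2 : ℂ)‖ = 1 / 2 := by simp
    rw [this]
    linarith)
  rw [map_sub, map_smul, hat_ev, jac_one_one, mul_one] at hb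
  have e : hat η 1 G - ((c * ((Fintype.card F - 2) / 2) : ℝ) : ℂ) =
      (hat η 1 G - (c : ℂ) • (1 / 2 * ((Fintype.card F : ℂ) - 2 - jac η 1))) +
        -(((c / 2 : ℝ) : ℂ) * jac η 1) := by
    simp only [smul_eq_mul]; push_cast; ring
  rw [e]
  refine (norm_add_le _ _).trans ?_
  rw [norm_neg, norm_mul, norm_jac_one_right hη, Complex.norm_real,
    Real.norm_of_nonneg (by positivity)]
  nlinarith

theorem hat_bound {η χ : MulChar F ℂ} (hη : η ^ 2 = 1) (hχ : χ ^ 2 ≠ 1) {d : ℕ} {G : F → ℂ}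
    {c T : ℝ} (h : Ex ev1 d G c T) : ‖hat η χ G‖ ≤ T * √(Fintype.card F) := by
  obtain ⟨h0, h1, h2⟩ := h
  have key : ∀ ψ, ‖hat η χ (ev1 ψ)‖ ≤ √(Fintype.card F) := by
    intro ψ
    rw [hat_ev, norm_mul]
    have a1 : ‖jac χ ψ‖ ≤ √(Fintype.card F) := norm_jac_le fun h => hχ (by rw [h.1, one_pow])
    have a2 : ‖jac (η * χ) ψ‖ ≤ √(Fintype.card F) := norm_jac_le fun h => hχ (by
      have := congrArg (· ^ 2) h.1
      simpa [mul_pow, hη] using this)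
    have a3 := norm_sub_le (jac χ ψ) (jac (η * χ) ψ)
    have : ‖(1 / 2 : ℂ)‖ = 1 / 2 := by simp
    rw [this]
    linarith
  have hb := h2 (hat η χ) _ (Real.sqrt_nonneg _) (by
    rintro _ ⟨ψ, _, rfl⟩
    exact key ψ)
  have e : hat η χ G = hat η χ (G - (c : ℂ) • ev1 1) + (c : ℂ) * hat η χ (ev1 1) := by
    rw [map_sub, map_smul]; simp
  rw [e]
  refine (norm_add_le _ _).trans ?_
  rw [norm_mul, Complex.norm_real, Real.norm_of_nonneg h0]
  have := mul_le_mul_of_nonneg_left (key 1) h0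
  linarith

/-- The trilinear counting form. -/
noncomputable def tri (η : MulChar F ℂ) (G G' : F → ℂ) : (F → ℂ) →ₗ[ℂ] ℂ where
  toFun h := ∑ u : F, ∑ r : F, nu η u * G (u + 1) * (nu η (u * r) * G' (u * r + 1)) * h r
  map_add' f g := by simp [mul_add, sum_add_distrib]
  map_smul' c f := by
    simp only [Pi.smul_apply, smul_eq_mul, RingHom.id_apply, mul_sum]
    exact sum_congr rfl fun u _ => sum_congr rfl fun r _ => by ring

theorem tri_ev (η : MulChar F ℂ) (G G' : F → ℂ) (χ : MulChar F ℂ) :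
    tri η G G' (ev1 χ) = hat η χ⁻¹ G * hat η χ G' := by
  simp only [tri, hat, LinearMap.coe_mk, AddHom.coe_mk]
  rw [sum_mul_sum]
  refine sum_congr rfl fun u _ => ?_
  by_cases hu : u = 0
  · subst hu; simp [nu, ev1_zero]
  symm
  rw [← Equiv.sum_comp (Equiv.mulLeft₀ u hu)]
  refine sum_congr rfl fun r _ => ?_
  have : χ⁻¹ u * χ (u * r) = χ r := by
    rw [MulChar.inv_apply', ← map_mul, inv_mul_cancel_left₀ hu]
  simp only [Equiv.mulLeft₀_apply, ev1]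
  rw [← this]; ring

/-- Expansion in characters whose square is nontrivial. -/
def Eh (h : F → ℂ) (c T : ℝ) : Prop :=
  0 ≤ c ∧ 0 ≤ T ∧ Dom (ev1 '' {χ : MulChar F ℂ | χ ^ 2 ≠ 1}) (h - (c : ℂ) • ev1 1) T

theorem tri_bound {η : MulChar F ℂ} (hη : η ^ 2 = 1) {d d' : ℕ} {G G' h : F → ℂ}
    {c₁ T₁ c₂ T₂ c T : ℝ} (h1 : Ex ev1 d G c₁ T₁) (h2 : Ex ev1 d' G' c₂ T₂) (h3 : Eh h c T) :
    ‖tri η G G' h - c * (hat η 1 G * hat η 1 G')‖ ≤ T * (T₁ * T₂ * Fintype.card F) := by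
  have hT1 : 0 ≤ T₁ := h1.1.trans h1.2.1
  have hT2 : 0 ≤ T₂ := h2.1.trans h2.2.1
  have hb := h3.2.2 (tri η G G') (T₁ * T₂ * Fintype.card F) (by positivity) (by
    rintro _ ⟨χ, hχ, rfl⟩
    rw [tri_ev, norm_mul]
    have a1 := hat_bound hη (χ := χ⁻¹) (by rw [inv_pow]; exact inv_ne_one.2 hχ) h1
    have a2 := hat_bound hη hχ h2
    refine (mul_le_mul a1 a2 (norm_nonneg _) (by positivity)).trans (le_of_eq ?_)
    have := Real.mul_self_sqrt (Nat.cast_nonneg (α := ℝ) (Fintype.card F))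
    linear_combination (T₁ * T₂) * this)
  rwa [map_sub, map_smul, tri_ev, inv_one, smul_eq_mul] at hb

omit [Fintype F] in
theorem sq_ne_one_of_odd {χ : MulChar F ℂ} {d : ℕ} (hd : Odd d) (h1 : χ ≠ 1) (h2 : χ ^ d = 1) :
    χ ^ 2 ≠ 1 := by
  intro h
  apply h1
  have := pow_gcd_eq_one.2 ⟨h, h2⟩
  rwa [(Nat.coprime_two_left.2 hd).gcd_eq_one, pow_one] at this

omit [Fintype F] in
theorem eh_one {d : ℕ} (hd : Odd d) {G : F → ℂ} {c T : ℝ} (h : Ex ev1 d G c T) :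
    Eh (ev1 1 * G) (1 * c) T := by
  obtain ⟨h0, h1, h2⟩ := h
  refine ⟨by linarith, h0.trans h1, ?_⟩
  have e : ev1 1 * G - ((1 * c : ℝ) : ℂ) • ev1 (1 : MulChar F ℂ) =
      ev1 1 * (G - (c : ℂ) • ev1 1) := by
    rw [mul_sub, mul_smul_comm, ← ev1_mul, one_mul, one_mul]
  rw [e]
  refine ((Dom.self (S := {ev1 1}) rfl).mul h2 (sub_nonneg.2 h1) ?_).mono le_rfl (by linarith)
  rintro _ rfl _ ⟨χ, ⟨a1, a2⟩, rfl⟩
  exact ⟨χ, sq_ne_one_of_odd hd a1 a2, by rw [← ev1_mul, one_mul]⟩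

omit [Fintype F] in
theorem eh_four {ω : MulChar F ℂ} (hω : orderOf ω = 4) {d : ℕ} (hd : Odd d) {G : F → ℂ} {c T : ℝ}
    (h : Ex ev1 d G c T) : Eh (nu ω * G) (1 / 2 * c) T := by
  obtain ⟨h0, h1, h2⟩ := h
  refine ⟨by linarith, h0.trans h1, ?_⟩
  have hω2 : ω ^ 2 ≠ 1 := pow_ne_one_of_lt_orderOf (by norm_num) (by omega)
  have e : nu ω * G - ((1 / 2 * c : ℝ) : ℂ) • ev1 (1 : MulChar F ℂ) =
      ((1 / 2 : ℝ) : ℂ) • (ev1 1 * (G - (c : ℂ) • ev1 1) + -(ev1 ω * (G - (c : ℂ) • ev1 1)) +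
        -((c : ℂ) • ev1 ω)) := by
    ext x
    have a1 := congrFun (ev1_mul (1 : MulChar F ℂ) 1) x
    have a2 := congrFun (ev1_mul ω 1) x
    simp only [mul_one, Pi.mul_apply] at a1 a2
    simp only [nu, Pi.mul_apply, Pi.sub_apply, Pi.add_apply, Pi.neg_apply, Pi.smul_apply,
      smul_eq_mul]
    push_cast
    linear_combination (-1 / 2 * (c : ℂ)) * a1 + (1 / 2 * (c : ℂ)) * a2
  rw [e]
  have t1 : Dom (ev1 '' {χ : MulChar F ℂ | χ ^ 2 ≠ 1}) _ _ :=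
    (Dom.self (S := {ev1 1}) rfl).mul h2 (sub_nonneg.2 h1) (by
      rintro _ rfl _ ⟨χ, ⟨a1, a2⟩, rfl⟩
      exact ⟨χ, sq_ne_one_of_odd hd a1 a2, by rw [← ev1_mul, one_mul]⟩)
  have t2 : Dom (ev1 '' {χ : MulChar F ℂ | χ ^ 2 ≠ 1}) _ _ :=
    (Dom.self (S := {ev1 ω}) rfl).mul h2 (sub_nonneg.2 h1) (by
      rintro _ rfl _ ⟨χ, ⟨_, a2⟩, rfl⟩
      refine ⟨ω * χ, ?_, ev1_mul _ _⟩
      intro a3
      have a4 : (ω ^ 2) ^ d = 1 := by
        have : ((ω * χ) ^ 2) ^ d = 1 := by rw [a3, one_pow]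
        rwa [mul_pow, mul_pow, ← pow_mul χ, mul_comm 2 d, pow_mul, a2, one_pow, mul_one] at this
      refine sq_ne_one_of_odd hd hω2 a4 ?_
      rw [← pow_mul, show 2 * 2 = orderOf ω from hω.symm, pow_orderOf_eq_one])
  have t3 : Dom (ev1 '' {χ : MulChar F ℂ | χ ^ 2 ≠ 1}) _ _ :=
    (Dom.self (S := ev1 '' {χ : MulChar F ℂ | χ ^ 2 ≠ 1}) (f := ev1 ω) ⟨ω, hω2, rfl⟩).rsmul h0
  exact (((t1.add t2.neg).add t3.neg).rsmul (c := 1 / 2) (by norm_num)).mono le_rfl (by linarith)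

/-- The indicator of elements that are not `l`-th powers for any `l ∈ E`. -/
noncomputable def fr (F : Type*) [Field F] [Fintype F] (E : Finset ℕ) : F → ℂ :=
  ev1 1 * ∏ l ∈ E, (ev1 1 - pw F l)

theorem ex_fr {E : Finset ℕ} (hE : E ⊆ (Fintype.card F - 1).primeFactors) :
    Ex ev1 (∏ l ∈ E, l) (fr F E) (∏ l ∈ E, (1 - 1 / (l : ℝ)))
      (2 ^ (Finset.card E) * ∏ l ∈ E, (1 - 1 / (l : ℝ))) := by
  have := Ex.prod (ev := ev1 (F := F)) ev1_mul E
    (fun l hl => Nat.prime_of_mem_primeFactors (hE hl)) (f := fun l => ev1 1 - pw F l)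
    (fun l hl => ex_npw (Nat.dvd_of_mem_primeFactors (hE hl)))
  rwa [prod_mul_distrib, prod_const] at this

theorem pw_cases (l : ℕ) (x : F) : pw F l x = 0 ∨ pw F l x = 1 := by
  unfold pw; split_ifs <;> simp

theorem fr_cases (E : Finset ℕ) (x : F) :
    fr F E x = 0 ∨ (fr F E x = 1 ∧ x ≠ 0 ∧ ∀ l ∈ E, pw F l x ≠ 1) := by
  by_cases hx : x = 0
  · left; subst hx; simp [fr, ev1_zero]
  by_cases h : ∀ l ∈ E, pw F l x ≠ 1
  · right
    refine ⟨?_, hx, h⟩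
    simp only [fr, Pi.mul_apply, Finset.prod_apply, Pi.sub_apply, ev1_one_of_ne hx, one_mul]
    refine prod_eq_one fun l hl => ?_
    rw [(pw_cases l x).resolve_right (h l hl), sub_zero]
  · left
    push Not at h
    obtain ⟨l, hl, h⟩ := h
    simp only [fr, Pi.mul_apply, Finset.prod_apply, Pi.sub_apply, ev1_one_of_ne hx, one_mul]
    exact prod_eq_zero hl (by rw [h, sub_self])

omit [Fintype F] in
theorem nu_cases {η : MulChar F ℂ} {x : F} (h : x ≠ 0 → η x ^ 2 = 1) :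
    nu η x = 0 ∨ (nu η x = 1 ∧ x ≠ 0 ∧ η x ≠ 1) := by
  by_cases hx : x = 0
  · left; subst hx; simp [nu, ev1_zero]
  have e : nu η x = 1 / 2 * (1 - η x) := by
    simp only [nu, Pi.smul_apply, Pi.sub_apply, ev1_one_of_ne hx, smul_eq_mul]
    push_cast; rfl
  rcases sq_eq_one_iff.1 (h hx) with h1 | h1
  · left; rw [e, h1]; simp
  · right; refine ⟨by rw [e, h1]; norm_num, hx, by rw [h1]; norm_num⟩

theorem fr_mul_pw0 (E : Finset ℕ) (p : ℕ) (x : F) :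
    (fr F E * pw0 F p) x = fr F E x * (pw F p x - 1 / p) := by
  by_cases hx : x = 0
  · subst hx; simp [fr, ev1_zero]
  simp only [pw0, Pi.mul_apply, Pi.sub_apply, Pi.smul_apply, ev1_one_of_ne hx, smul_eq_mul]
  push_cast; ring

theorem exists_k (m : ℕ) (hn : Fintype.card F = 2 * m + 1) :
    ∃ (k : F → ℂ) (κ : ℝ), 1 / 2 ≤ κ ∧ (Odd m → κ = 1) ∧
      (∀ (d : ℕ) (G : F → ℂ) (c T : ℝ), Odd d → Ex ev1 d G c T → Eh (k * G) (κ * c) T) ∧
      ∀ r : F, r ≠ 0 → r ^ m = 1 → k r = 0 ∨ (k r = 1 ∧ (2 ∣ m → r ^ (m / 2) ≠ 1)) := by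
  rcases Nat.even_or_odd m with hm | hm
  · obtain ⟨j, rfl⟩ := hm
    obtain ⟨ω, hω, hω'⟩ := exists_char (F := F) (d := 4) ⟨j, by omega⟩
    have hj : (Fintype.card F - 1) / 4 = j := by omega
    rw [hj] at hω'
    refine ⟨nu ω, 1 / 2, le_rfl, fun h => absurd h (by simp), fun d G c T hd h => eh_four hω hd h,
      ?_⟩
    intro r hr hrm
    have h1 : ω r ^ 2 = 1 := by
      rw [← map_pow, hω' _ (pow_ne_zero _ hr), ← pow_mul, two_mul, hrm]
    rcases nu_cases (η := ω) (x := r) fun _ => h1 with h | h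
    · exact Or.inl h
    · refine Or.inr ⟨h.1, fun _ h2 => h.2.2 ((hω' r hr).2 ?_)⟩
      rwa [show (j + j) / 2 = j by omega] at h2
  · refine ⟨ev1 1, 1, by norm_num, fun _ => rfl, fun d G c T hd h => eh_one hd h, ?_⟩
    intro r hr _
    refine Or.inr ⟨ev1_one_of_ne hr, fun h => ?_⟩
    obtain ⟨j, rfl⟩ := hm
    omega

theorem final_ineq {κ κ₀ δ δ₀ W s y A e V : ℝ} (hκ : κ₀ ≤ κ) (hκ₀ : 0 < κ₀) (hδ : δ₀ ≤ δ)
    (hδ₀ : 0 < δ₀) (hW : 0 < W) (hs : 0 ≤ s) (hy : 3 ≤ y) (hA : A = (y ^ 2 - 2) / 2)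
    (he : e = W * ((y + 1) / 2)) (hV : V = W ^ 3 * y ^ 2 / 2)
    (hQ : 2 * (3 * s + δ₀) * W ^ 3 < κ₀ * (δ₀ * (y ^ 2 - 4 - 2 * W * (y + 1) - 2 * W ^ 2) -
      2 * s * W * (y + 1) - 4 * s * W ^ 2)) :
    s * (2 * (κ * (e * (A + e)) + V) + V) < δ * (κ * (A ^ 2 - e * (2 * A + e)) - V) := by
  have hy2 : 0 < y ^ 2 := by positivity
  have h1 : (y + 1) ^ 2 ≤ 2 * y ^ 2 := by nlinarith
  have hAle : A ≤ y ^ 2 / 2 := by rw [hA]; linarith
  have hA0 : 0 ≤ A := by rw [hA]; nlinarith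
  have he0 : 0 ≤ e := by rw [he]; positivity
  have he2 : e ^ 2 ≤ W ^ 2 * y ^ 2 / 2 := by
    rw [he]
    have := mul_le_mul_of_nonneg_left h1 (sq_nonneg W)
    nlinarith
  have heA : e * A ≤ W * (y + 1) * y ^ 2 / 4 := by
    have := mul_le_mul_of_nonneg_left hAle he0
    rw [he] at this ⊢
    linarith
  have hA2 : y ^ 2 * (y ^ 2 - 4) / 4 ≤ A ^ 2 := by rw [hA]; nlinarith
  have hL : y ^ 2 * (y ^ 2 - 4 - 2 * W * (y + 1) - 2 * W ^ 2) / 4 ≤ A ^ 2 - e * (2 * A + e) := by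
    nlinarith
  have hU : e * (A + e) ≤ y ^ 2 * (W * (y + 1) + 2 * W ^ 2) / 4 := by nlinarith
  set L := A ^ 2 - e * (2 * A + e)
  set U := e * (A + e)
  have hU0 : 0 ≤ U := by positivity
  have hV0 : 0 < V := by rw [hV]; positivity
  have h2 : (3 * s + δ₀) * V < κ₀ * (δ₀ * L - 2 * s * U) := by
    have a1 := mul_lt_mul_of_pos_left hQ (show 0 < y ^ 2 / 4 by positivity)
    have a2 := mul_le_mul_of_nonneg_left hL (mul_pos hκ₀ hδ₀).le
    have a3 := mul_le_mul_of_nonneg_left hU (show 0 ≤ κ₀ * (2 * s) by positivity)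
    rw [hV]
    nlinarith
  have h3 : 0 < δ₀ * L - 2 * s * U := by
    by_contra h
    have : κ₀ * (δ₀ * L - 2 * s * U) ≤ 0 := mul_nonpos_of_nonneg_of_nonpos hκ₀.le (not_lt.1 h)
    have : 0 < (3 * s + δ₀) * V := by positivity
    linarith
  have h4 : (3 * s + δ₀) * V < κ * (δ₀ * L - 2 * s * U) :=
    h2.trans_le (mul_le_mul_of_nonneg_right hκ h3.le)
  have h5 : s * (2 * (κ * U + V) + V) < δ₀ * (κ * L - V) := by nlinarith
  have h6 : 0 ≤ s * (2 * (κ * U + V) + V) := by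
    have : 0 < κ := hκ₀.trans_le hκ
    positivity
  have h7 : 0 < κ * L - V := by
    by_contra h
    have := mul_nonpos_of_nonneg_of_nonpos hδ₀.le (not_lt.1 h)
    linarith
  exact h5.trans_le (mul_le_mul_of_nonneg_right hδ h7.le)

end Pool.Agent.Lib.MP_1a41ac_nt
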