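import Pool.Agent.Lib.MP_1a41ac_nt.Odd

/-!
Odd `q`: the sieve inequality gives the required pair of elements.
-/

namespace Pool.Agent.Lib.MP_1a41ac_nt

open Finset

variable {F : Type*} [Field F] [Fintype F]

theorem re_ge_of_norm {z : ℂ} {a b : ℝ} (h : ‖z - a‖ ≤ b) : a - b ≤ z.re := by
  have h1 := (Complex.abs_re_le_norm (z - a)).trans h
  rw [Complex.sub_re, Complex.ofReal_re] at h1
  linarith [(abs_le.1 h1).1]

theorem concl_odd_of_sieve (m : ℕ) (hn : Fintype.card F = 2 * m + 1) (hm : 0 < m)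
    (E R : Finset ℕ) (hER : E ∪ R = (2 * m).primeFactors) (hdis : Disjoint E R) (h2E : 2 ∈ E)
    {κ₀ δ₀ : ℝ} (hκ₀ : κ₀ = 1 / 2 ∨ (κ₀ = 1 ∧ Odd m)) (hδ₀ : 0 < δ₀)
    (hδ : δ₀ ≤ 1 - 3 * ∑ p ∈ R, 1 / (p : ℝ)) (hy : 3 ≤ √(Fintype.card F))
    (hQ : 2 * (3 * (Finset.card R) + δ₀) * (2 ^ (Finset.card E)) ^ 3 <
      κ₀ * (δ₀ * (√(Fintype.card F) ^ 2 - 4 - 2 * 2 ^ (Finset.card E) * (√(Fintype.card F) + 1) -
        2 * (2 ^ (Finset.card E)) ^ 2) - 2 * (Finset.card R) * 2 ^ (Finset.card E) * (√(Fintype.card F) + 1) - 4 * (Finset.card R) * (2 ^ (Finset.card E)) ^ 2)) :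
    Concl F := by
  have hn' : Fintype.card F - 1 = 2 * m := by omega
  have hEP : E ⊆ (Fintype.card F - 1).primeFactors := by
    rw [hn', ← hER]; exact subset_union_left
  have hRP : R ⊆ (Fintype.card F - 1).primeFactors := by
    rw [hn', ← hER]; exact subset_union_right
  have hE'P : E.erase 2 ⊆ (Fintype.card F - 1).primeFactors := (erase_subset _ _).trans hEP
  obtain ⟨η, hη, hη'⟩ := exists_char (F := F) (d := 2) ⟨m, hn'⟩
  rw [show (Fintype.card F - 1) / 2 = m by omega] at hη'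
  have hη1 : η ≠ 1 := by intro h; rw [h, orderOf_one] at hη; omega
  have hη2 : η ^ 2 = 1 := by rw [← hη, pow_orderOf_eq_one]
  have hηsq : ∀ x : F, x ≠ 0 → η x ^ 2 = 1 := by
    intro x hx
    rw [← MulChar.pow_apply' _ two_ne_zero, hη2]
    exact ev1_one_of_ne hx
  obtain ⟨k, κ, hκ1, hκ2, hK1, hK2⟩ := exists_k m hn
  have hκ : κ₀ ≤ κ := by
    rcases hκ₀ with h | h
    · rw [h]; exact hκ1
    · rw [h.1, hκ2 h.2]
  have hκ₀pos : 0 < κ₀ := by rcases hκ₀ with h | h <;> simp [h]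
  set y := √(Fintype.card F : ℝ) with hydef
  have hyq : y ^ 2 = Fintype.card F := Real.sq_sqrt (Nat.cast_nonneg _)
  set W : ℝ := 2 ^ (Finset.card E) with hW
  have hWpos : 0 < W := by positivity
  set θ : ℝ := ∏ l ∈ E, (1 - 1 / (l : ℝ)) with hθ
  set θ' : ℝ := ∏ l ∈ E.erase 2, (1 - 1 / (l : ℝ)) with hθ'
  have hpos : ∀ S : Finset ℕ, S ⊆ (Fintype.card F - 1).primeFactors →
      0 < ∏ l ∈ S, (1 - 1 / (l : ℝ)) := by
    intro S hS
    refine prod_pos fun l hl => ?_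
    have : (2 : ℝ) ≤ l := by exact_mod_cast (Nat.prime_of_mem_primeFactors (hS hl)).two_le
    rw [sub_pos, div_lt_one (by linarith)]; linarith
  have hθpos : 0 < θ := hpos _ hEP
  have hθ'pos : 0 < θ' := hpos _ hE'P
  have hG := ex_fr hEP
  have hH := ex_fr hE'P
  have hW' : (2 : ℝ) ^ (Finset.card (E.erase 2)) = W / 2 := by
    rw [hW, ← card_erase_add_one h2E, pow_succ]; ring
  rw [hW'] at hH
  rw [← hW, ← hθ] at hG
  rw [← hθ'] at hH
  have hodd : Odd (∏ l ∈ E.erase 2, l) := by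
    rw [← Nat.coprime_two_right]
    refine Nat.Coprime.prod_left fun l hl => ?_
    exact (Nat.coprime_primes (Nat.prime_of_mem_primeFactors (hE'P hl)) Nat.prime_two).2
      (ne_of_mem_erase hl)
  have hcop : ∀ S ⊆ E, ∀ p ∈ R, (∏ l ∈ S, l).Coprime p := by
    intro S hS p hp
    refine Nat.Coprime.prod_left fun l hl => ?_
    refine (Nat.coprime_primes (Nat.prime_of_mem_primeFactors (hEP (hS hl)))
      (Nat.prime_of_mem_primeFactors (hRP hp))).2 ?_
    rintro rfl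
    exact disjoint_left.1 hdis (hS hl) hp
  have hGp : ∀ p ∈ R, Ex ev1 ((∏ l ∈ E, l) * p) (fr F E * pw0 F p) (θ * 0) (W * θ * 1) :=
    fun p hp => hG.mul ev1_mul (ex_pw0 (Nat.dvd_of_mem_primeFactors (hRP hp)))
      (hcop E Subset.rfl p hp)
  have hh := hK1 _ _ _ _ hodd hH
  have hhp : ∀ p ∈ R, Eh (k * (fr F (E.erase 2) * pw0 F p)) (κ * (θ' * 0)) (W / 2 * θ' * 1) := by
    intro p hp
    refine hK1 _ _ _ _ ?_ (hH.mul ev1_mul (ex_pw0 (Nat.dvd_of_mem_primeFactors (hRP hp)))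
      (hcop _ (erase_subset _ _) p hp))
    refine hodd.mul ((Nat.prime_of_mem_primeFactors (hRP hp)).odd_of_ne_two ?_)
    rintro rfl
    exact disjoint_left.1 hdis h2E hp
  set G := fr F E with hGdef
  set H := fr F (E.erase 2) with hHdef
  set A : ℝ := (y ^ 2 - 2) / 2 with hA
  set e : ℝ := W * ((y + 1) / 2) with he
  set V : ℝ := W ^ 3 * y ^ 2 / 2 with hV
  have hA0 : 0 ≤ A := by rw [hA]; nlinarith
  have he0 : 0 ≤ e := by rw [he]; positivity
  have hκpos : 0 < κ := hκ₀pos.trans_le hκ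
  -- bounds
  have ba : ‖hat η 1 G - ((θ * A : ℝ) : ℂ)‖ ≤ θ * e := by
    have := hat_one_bound hη1 hG
    rw [← hydef, ← hyq] at this
    exact this.trans (le_of_eq (by rw [he]; ring))
  have ba' : ‖hat η 1 G‖ ≤ θ * (A + e) := by
    have := norm_add_le (hat η 1 G - ((θ * A : ℝ) : ℂ)) ((θ * A : ℝ) : ℂ)
    rw [sub_add_cancel, Complex.norm_real, Real.norm_of_nonneg (by positivity)] at this
    linarith
  have bp : ∀ p ∈ R, ‖hat η 1 (G * pw0 F p)‖ ≤ θ * e := by
    intro p hp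
    have := hat_one_bound hη1 (hGp p hp)
    simp only [mul_zero, zero_mul, Complex.ofReal_zero, sub_zero] at this
    exact this.trans (le_of_eq (by rw [he]; ring))
  have hVe : W / 2 * θ' * (W * θ * (W * θ) * Fintype.card F) = θ ^ 2 * θ' * V := by
    rw [hV, ← hyq]; ring
  have b0 : θ ^ 2 * θ' * (κ * (A ^ 2 - e * (2 * A + e)) - V) ≤ (tri η G G (k * H)).re := by
    have t1 := tri_bound hη2 hG hG hh
    rw [hVe] at t1
    have t2 : ‖hat η 1 G * hat η 1 G - (((θ * A) ^ 2 : ℝ) : ℂ)‖ ≤ θ * e * (θ * (2 * A + e)) := by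
      have : hat η 1 G * hat η 1 G - (((θ * A) ^ 2 : ℝ) : ℂ) =
          (hat η 1 G - ((θ * A : ℝ) : ℂ)) * (hat η 1 G + ((θ * A : ℝ) : ℂ)) := by
        push_cast; ring
      rw [this, norm_mul]
      refine mul_le_mul ba ((norm_add_le _ _).trans ?_) (norm_nonneg _) (by positivity)
      rw [Complex.norm_real, Real.norm_of_nonneg (by positivity)]
      linarith
    have t3 : ‖tri η G G (k * H) - ((κ * θ' * (θ * A) ^ 2 : ℝ) : ℂ)‖ ≤
        θ ^ 2 * θ' * V + κ * θ' * (θ * e * (θ * (2 * A + e))) := by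
      have : tri η G G (k * H) - ((κ * θ' * (θ * A) ^ 2 : ℝ) : ℂ) =
          (tri η G G (k * H) - ((κ * θ' : ℝ) : ℂ) * (hat η 1 G * hat η 1 G)) +
            ((κ * θ' : ℝ) : ℂ) * (hat η 1 G * hat η 1 G - (((θ * A) ^ 2 : ℝ) : ℂ)) := by
        push_cast; ring
      rw [this]
      refine (norm_add_le _ _).trans (add_le_add t1 ?_)
      rw [norm_mul, Complex.norm_real, Real.norm_of_nonneg (by positivity)]
      exact mul_le_mul_of_nonneg_left t2 (by positivity)
    exact le_trans (le_of_eq (by ring)) (re_ge_of_norm t3)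
  have bgen : ∀ (z a b : ℂ), ‖z - ((κ * θ' : ℝ) : ℂ) * (a * b)‖ ≤ θ ^ 2 * θ' * V →
      ‖a * b‖ ≤ θ * e * (θ * (A + e)) → ‖z‖ ≤ θ ^ 2 * θ' * (κ * (e * (A + e)) + V) := by
    intro z a b h1 h2
    have := norm_add_le (z - ((κ * θ' : ℝ) : ℂ) * (a * b)) (((κ * θ' : ℝ) : ℂ) * (a * b))
    rw [sub_add_cancel, norm_mul, Complex.norm_real, Real.norm_of_nonneg (by positivity)] at this
    have h3 := mul_le_mul_of_nonneg_left h2 (show 0 ≤ κ * θ' by positivity)
    refine this.trans ((add_le_add h1 h3).trans (le_of_eq (by ring)))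
  have b1 : ∀ p ∈ R, ‖tri η (G * pw0 F p) G (k * H) + tri η G (G * pw0 F p) (k * H) +
      tri η G G (k * (H * pw0 F p))‖ ≤ θ ^ 2 * θ' * (2 * (κ * (e * (A + e)) + V) + V) := by
    intro p hp
    have t1 := tri_bound hη2 (hGp p hp) hG hh
    have t2 := tri_bound hη2 hG (hGp p hp) hh
    have t3 := tri_bound hη2 hG hG (hhp p hp)
    rw [mul_one, hVe] at t1 t2 t3
    simp only [mul_zero, Complex.ofReal_zero, zero_mul, sub_zero] at t3
    have s1 := bgen _ _ _ t1 (by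
      rw [norm_mul]; exact mul_le_mul (bp p hp) ba' (norm_nonneg _) (by positivity))
    have s2 := bgen _ _ _ t2 (by
      rw [norm_mul, mul_comm]; exact mul_le_mul (bp p hp) ba' (norm_nonneg _) (by positivity))
    refine (norm_add₃_le).trans ?_
    linarith
  set δ : ℝ := 1 - 3 * ∑ p ∈ R, 1 / (p : ℝ) with hδdef
  have hfin := final_ineq (s := (Finset.card R)) hκ hκ₀pos hδ hδ₀ hWpos (Nat.cast_nonneg _) hy hA he hV hQ
  set w : F → F → ℂ := fun u r =>
    nu η u * G (u + 1) * (nu η (u * r) * G (u * r + 1)) * (k r * H r) with hw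
  have hZ : (δ : ℂ) * tri η G G (k * H) - ∑ p ∈ R, (tri η (G * pw0 F p) G (k * H) +
      tri η G (G * pw0 F p) (k * H) + tri η G G (k * (H * pw0 F p))) =
      ∑ u : F, ∑ r : F, w u r * (1 - ∑ p ∈ R, (pw F p (u + 1) + pw F p (u * r + 1) + pw F p r)) := by
    have e1 : ∀ p, tri η (G * pw0 F p) G (k * H) + tri η G (G * pw0 F p) (k * H) +
        tri η G G (k * (H * pw0 F p)) = ∑ u : F, ∑ r : F,
          w u r * (pw F p (u + 1) + pw F p (u * r + 1) + pw F p r - 3 * (1 / p)) := by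
      intro p
      simp only [tri, LinearMap.coe_mk, AddHom.coe_mk, ← sum_add_distrib]
      refine sum_congr rfl fun u _ => sum_congr rfl fun r _ => ?_
      rw [hGdef, fr_mul_pw0, fr_mul_pw0, Pi.mul_apply k (H * _), hHdef, fr_mul_pw0, Pi.mul_apply]
      simp only [hw, hGdef, hHdef]
      ring
    rw [sum_congr rfl fun p _ => e1 p, sum_comm]
    simp only [tri, LinearMap.coe_mk, AddHom.coe_mk, mul_sum]
    rw [← sum_sub_distrib]
    refine sum_congr rfl fun u _ => ?_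
    rw [sum_comm, ← sum_sub_distrib]
    refine sum_congr rfl fun r _ => ?_
    rw [← mul_sum, sum_sub_distrib, ← mul_sum, hδdef]
    simp only [hw, Pi.mul_apply]
    push_cast
    ring
  have hZpos : 0 < ((δ : ℂ) * tri η G G (k * H) - ∑ p ∈ R, (tri η (G * pw0 F p) G (k * H) +
      tri η G (G * pw0 F p) (k * H) + tri η G G (k * (H * pw0 F p)))).re := by
    rw [Complex.sub_re, Complex.re_ofReal_mul]
    have t1 := (Complex.re_le_norm _).trans ((norm_sum_le _ _).trans (sum_le_sum b1))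
    rw [sum_const, nsmul_eq_mul] at t1
    have t2 := mul_le_mul_of_nonneg_left b0 (hδ₀.le.trans hδ)
    have t3 := mul_lt_mul_of_pos_left hfin (show 0 < θ ^ 2 * θ' by positivity)
    nlinarith
  rw [hZ] at hZpos
  by_contra hcon
  refine absurd hZpos (not_lt.2 ?_)
  rw [Complex.re_sum]
  refine sum_nonpos fun u _ => ?_
  rw [Complex.re_sum]
  refine sum_nonpos fun r _ => ?_
  rcases nu_cases (η := η) (x := u) (hηsq u) with c1 | ⟨c1, hu0, hu1⟩
  · simp [hw, c1]
  rcases nu_cases (η := η) (x := u * r) (hηsq _) with c2 | ⟨c2, hur0, hur1⟩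
  · simp [hw, c2]
  rcases fr_cases (F := F) E (u + 1) with c3 | ⟨c3, d3, e3⟩
  · simp [hw, hGdef, c3]
  rcases fr_cases (F := F) E (u * r + 1) with c4 | ⟨c4, d4, e4⟩
  · simp [hw, hGdef, c4]
  rcases fr_cases (F := F) (E.erase 2) r with c5 | ⟨c5, d5, e5⟩
  · simp [hw, hHdef, c5]
  have hrm : r ^ m = 1 := by
    rw [← hη' r d5]
    have a1 := (sq_eq_one_iff.1 (hηsq u hu0)).resolve_left hu1
    have a2 := (sq_eq_one_iff.1 (hηsq _ hur0)).resolve_left hur1
    rw [map_mul, a1] at a2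
    linear_combination -a2
  rcases hK2 r d5 hrm with c6 | ⟨c6, e6⟩
  · simp [hw, c6]
  have hw1 : w u r = 1 := by simp [hw, hGdef, hHdef, c1, c2, c3, c4, c5, c6]
  rw [hw1, one_mul, Complex.sub_re, Complex.one_re, Complex.re_sum, sub_nonpos]
  have hnn : ∀ p x, 0 ≤ (pw F p x).re := by
    intro p x
    rcases pw_cases p x with h | h <;> simp [h]
  have hex : ∃ p ∈ R, pw F p (u + 1) = 1 ∨ pw F p (u * r + 1) = 1 ∨ pw F p r = 1 := by
    by_contra hno
    push Not at hno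
    apply hcon
    have hall : ∀ x : F, (∀ l ∈ E, pw F l x ≠ 1) → (∀ l ∈ R, pw F l x ≠ 1) →
        ∀ l ∈ (Fintype.card F - 1).primeFactors, pw F l x ≠ 1 := by
      intro x h1 h2 l hl
      rw [hn', ← hER, mem_union] at hl
      exact hl.elim (h1 l) (h2 l)
    refine concl_odd m hn u r ?_ hm hu0 (fun h => hu1 ((hη' u hu0).2 h)) ?_ ?_
    · refine orderOf_eq_of_pow_and_pow_div_prime hm hrm fun l hl hlm => ?_
      by_cases hl2 : l = 2
      · subst hl2; exact e6 hlm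
      have hlP : l ∈ E ∪ R := by
        rw [hER]; exact Nat.mem_primeFactors.2 ⟨hl, hlm.mul_left 2, by omega⟩
      have : pw F l r ≠ 1 := by
        rcases mem_union.1 hlP with h | h
        · exact e5 l (mem_erase.2 ⟨hl2, h⟩)
        · exact (hno l h).2.2
      intro h
      apply this
      refine if_pos ⟨d5, ?_⟩
      rw [hn', Nat.mul_div_assoc 2 hlm, mul_comm, pow_mul, h, one_pow]
    · rw [← hn']; exact orderOf_eq_of_pw d3 (hall _ e3 fun l hl => (hno l hl).1)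
    · rw [← hn']; exact orderOf_eq_of_pw d4 (hall _ e4 fun l hl => (hno l hl).2.1)
  obtain ⟨p, hp, hp'⟩ := hex
  refine le_trans ?_ (single_le_sum (f := fun p => (pw F p (u + 1) + pw F p (u * r + 1) +
    pw F p r).re) (fun p _ => ?_) hp)
  · simp only [Complex.add_re]
    have a1 := hnn p (u + 1)
    have a2 := hnn p (u * r + 1)
    have a3 := hnn p r
    rcases hp' with h | h | h <;> rw [h, Complex.one_re] <;> linarith
  · simp only [Complex.add_re]
    exact add_nonneg (add_nonneg (hnn _ _) (hnn _ _)) (hnn _ _)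

end Pool.Agent.Lib.MP_1a41ac_nt
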